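import Pool.Agent.MP_5053af_an.Mg.H21_Steer

attribute [-instance] IdemSemiring.toCanonicallyOrderedAdd IdemSemiring.toMulLeftMono
  IsOrderedMonoid.toMulLeftMono AddQuantale.instAddLeftMono Quantale.instMulLeftMono
  NumberField.to_charZero covariant_swap_mul_of_covariant_mul CanonicallyOrderedAdd.toMulLeftMono
  continuousSub_of_discreteTopology AddQuantale.instAddRightMono Quantale.instMulRightMono
  NonarchimedeanAddGroup.toIsTopologicalAddGroup RKHS.instFunLike continuousSub_of_indiscreteTopology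
  CanonicallyOrderedMul.toMulLeftMono AlgHom.instNonUnitalAlgHomClassOfAlgHomClass instCoeOTCOfCoeOut
  NonarchimedeanRing.toIsTopologicalRing Valued.toUniformSpace instCoeHTCOfCoeHeadOfCoeOTC
  instCoeHTCTOfCoeTailOfCoeHTC GrpTypeEquivalenceGrp.grpGroup
  TopologicalSpace.instSecondCountableTopologyOfLindelofSpaceOfPseudoMetrizableSpace instCoeTCOfCoe
  LieAdmissibleRing.toNonUnitalNonAssocRing

-- part MP_5053af_an.H21.Bridge
section

/-! The bridge potential: a difference sum of small conditional variance can be kept at a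
medium size while the sum itself is steered to a bounded disc at a prescribed time. -/

set_option autoImplicit false

open MeasureTheory Set Filter Topology intervalIntegral Metric

namespace Pool.Agent.MP_5053af_an.H21

/-- Covariance of the first `n` coefficients. -/
noncomputable def Gp (a c : ℕ → ℂ) (n : ℕ) : ℂ := ∑ i ∈ Finset.range n, c i * (starRingEnd ℂ) (a i)

lemma Gp_add (a c : ℕ → ℂ) (k n : ℕ) :
    Gp a c (k + n) = Gp a c k + Gp (fun j => a (k + j)) (fun j => c (k + j)) n := by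
  unfold Gp; rw [Finset.sum_range_add]

lemma Gp_lin (a c : ℕ → ℂ) (u β : ℂ) (n : ℕ) :
    Gp a (fun i => u * c i + β * a i) n = u * Gp a c n + β * En a n := by
  unfold Gp En
  push_cast
  rw [Finset.mul_sum, Finset.mul_sum, ← Finset.sum_add_distrib]
  refine Finset.sum_congr rfl fun i _ => ?_
  rw [← Complex.mul_conj']; ring

lemma En_lin (a c : ℕ → ℂ) (u β : ℂ) (n : ℕ) : En (fun i => u * c i + β * a i) n =
    ‖u‖ ^ 2 * En c n + ‖β‖ ^ 2 * En a n + 2 * (u * (starRingEnd ℂ) β * Gp a c n).re := by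
  unfold Gp En
  rw [Finset.mul_sum, Finset.mul_sum, Finset.mul_sum, Complex.re_sum, Finset.mul_sum,
    ← Finset.sum_add_distrib, ← Finset.sum_add_distrib]
  refine Finset.sum_congr rfl fun i _ => ?_
  rw [norm_add_sq', norm_mul, norm_mul, map_mul]; ring_nf

lemma P_lin (l : ℕ → ℝ) (a c : ℕ → ℂ) (u β : ℂ) (n : ℕ) (y : ℝ) :
    P l (fun i => u * c i + β * a i) n y = u * P l c n y + β * P l a n y := by
  unfold P
  rw [Finset.mul_sum, Finset.mul_sum, ← Finset.sum_add_distrib]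
  exact Finset.sum_congr rfl fun i _ => by ring

lemma Gp_cs (a c : ℕ → ℂ) {i j : ℕ} (h : i ≤ j) :
    ‖Gp a c j - Gp a c i‖ ^ 2 ≤ (En c j - En c i) * (En a j - En a i) := by
  rw [← En_Ico c h, ← En_Ico a h]
  refine le_trans ?_ (Finset.sum_mul_sq_le_sq_mul_sq _ _ _)
  unfold Gp
  rw [← Finset.sum_Ico_eq_sub _ h]
  gcongr
  exact le_trans (norm_sum_le _ _) (le_of_eq (Finset.sum_congr rfl fun t _ => by simp))

section tilt

variable {K : ℝ} {l : ℕ → ℝ}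

lemma re2 (hl : Lac K l) {c : ℕ → ℂ} {β : ℝ} (hβ : 0 ≤ β) {n : ℕ} (hc : ∀ j < n, ‖c j‖ ≤ β)
    (u v : ℝ) : |(∫ y in u..v, (P l c n y).re ^ 2) - En c n * (v - u) / 2| ≤
      4 * β ^ 2 * (K ^ 3 / l 0) := by
  have e : ∀ z : ℂ, z.re ^ 2 = (‖z‖ ^ 2 + (z ^ 2).re) / 2 := fun z => by
    rw [Complex.sq_norm, Complex.normSq_apply, sq z, Complex.mul_re]; ring
  have m2 := abs_le.1 (le_trans (Complex.abs_re_le_norm _) (M2 hl hβ hc u v))
  have m3 := abs_le.1 (M3 hl hc u v)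
  simp_rw [e]
  rw [intervalIntegral.integral_div, intervalIntegral.integral_add
    (by apply Continuous.intervalIntegrable; fun_prop)
    (by apply Continuous.intervalIntegrable; fun_prop), int_re (by fun_prop), abs_le,
    show 4 * β ^ 2 * (K ^ 3 / l 0) = 4 * K ^ 3 * β ^ 2 / l 0 by ring]
  constructor <;> linarith only [m2.1, m2.2, m3.1, m3.2]

/-- Truncation at level `1 / 4`. -/
noncomputable def cl (t : ℝ) : ℝ := max (-(1 / 4)) (min t (1 / 4))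

@[fun_prop] lemma cl_cont : Continuous cl := by unfold cl; fun_prop

lemma cl_spec (t : ℝ) : |cl t| ≤ 1 / 4 ∧ |cl t - t| ≤ 4 * t ^ 2 ∧ t ^ 2 - 16 * t ^ 4 ≤ t * cl t := by
  unfold cl
  rcases le_total t (1 / 4) with h | h
  · rw [min_eq_left h]
    rcases le_total (-(1 / 4)) t with h' | h'
    · rw [max_eq_right h', sub_self, abs_zero, abs_le]
      exact ⟨⟨h', h⟩, by positivity, by linarith only [show 0 ≤ t ^ 4 by positivity]⟩
    · have e : 1 / 16 ≤ t ^ 2 := by nlinarith only [h']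
      rw [max_eq_left h', abs_neg, abs_of_pos (by norm_num), abs_of_nonneg (by linarith only [h'])]
      exact ⟨le_rfl, by nlinarith only [], by linarith only [h', mul_le_mul_of_nonneg_left e (sq_nonneg t)]⟩
  · have e : 1 / 16 ≤ t ^ 2 := by nlinarith only [h]
    rw [min_eq_right h, max_eq_right (by norm_num), abs_of_pos (by norm_num),
      abs_of_nonpos (by linarith only [h])]
    exact ⟨le_rfl, by nlinarith only [], by linarith only [h, mul_le_mul_of_nonneg_left e (sq_nonneg t)]⟩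

/-- The test function of the bridge. -/
noncomputable def Psi (α κ A : ℝ) (M Z : ℂ) : ℝ := α * ‖M‖ ^ 2 - ‖M‖ ^ 4 / A ^ 2 - κ * ‖Z‖ ^ 2

lemma psi_pt {α κ A R ω ζ j ρ : ℝ} {M₀ Z₀ X Y J ξ θ : ℂ} (hA : 0 < A) (hα : 1 / 2 ≤ α)
    (hκ : 0 ≤ κ) (hR : 0 < R) (hξ : ‖ξ‖ ≤ ω) (hθ : ‖θ‖ ≤ ζ) (hj : ‖J + ξ‖ ^ 2 ≤ j)
    (h1 : 1 / 2 ≤ ρ) (h2 : ρ ≤ 3 / 2) {v u : ℂ}
    (hv : v = (2 * α - 4 * ‖M₀‖ ^ 2 / A ^ 2 : ℝ) * (starRingEnd ℂ) M₀)
    (hu : u = (-2 / R : ℝ) * (starRingEnd ℂ) Z₀) :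
    ρ * (Psi α κ A M₀ Z₀ + (v * J).re - ‖v‖ * ω - κ * (2 * ‖Z₀‖ * ζ + 2 * ζ ^ 2)) +
      ρ * (v * Y).re + κ * R * (ρ * (u * X).re) + ‖Y‖ ^ 2 / 8 - j / 4 -
      30 * ‖M₀‖ ^ 2 / A ^ 2 * (‖Y‖ ^ 2 + j) - 24 / A ^ 2 * (‖Y‖ ^ 4 + j ^ 2) - 3 * κ * ‖X‖ ^ 2 ≤
      ρ * Psi α κ A (M₀ + (Y + (J + ξ))) (Z₀ + (X + θ)) := by
  set V := Y + (J + ξ) with hV
  set b := 1 / A ^ 2 with hb
  have hb0 : 0 < b := by positivity
  have e1 := norm_add_sq' M₀ V
  have e2 := norm_add_sq' Z₀ (X + θ)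
  have c1 : ∀ z w : ℂ, (z * (starRingEnd ℂ) w).re = ((starRingEnd ℂ) z * w).re := fun z w => by
    simp [Complex.mul_re]
  rw [c1] at e1 e2
  set p := ((starRingEnd ℂ) M₀ * V).re with hp
  have e3 : |p| ≤ ‖M₀‖ * ‖V‖ := le_trans (Complex.abs_re_le_norm _) (by simp)
  have e4 : p ^ 2 ≤ ‖M₀‖ ^ 2 * ‖V‖ ^ 2 := by rw [← sq_abs, ← mul_pow]; gcongr
  have e5 : ‖M₀ + V‖ ^ 4 ≤ ‖M₀‖ ^ 4 + 4 * ‖M₀‖ ^ 2 * p + 10 * (‖M₀‖ ^ 2 * ‖V‖ ^ 2) + 2 * ‖V‖ ^ 4 := by
    rw [show ‖M₀ + V‖ ^ 4 = (‖M₀ + V‖ ^ 2) ^ 2 by ring, e1]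
    linarith only [e4, sq_nonneg (2 * p - ‖V‖ ^ 2)]
  have e6 : (v * V).re = (2 * α - 4 * ‖M₀‖ ^ 2 / A ^ 2) * p := by
    rw [hv, mul_assoc, Complex.re_ofReal_mul]
  have e7 : (v * J).re - ‖v‖ * ω + (v * Y).re ≤ (v * V).re := by
    have := (abs_le.1 (le_trans (Complex.abs_re_le_norm (v * ξ)) (show _ ≤ ‖v‖ * ω by
      rw [norm_mul]; gcongr))).1
    rw [hV, mul_add, mul_add, Complex.add_re, Complex.add_re]; linarith only [this]
  have e8 : R * (u * X).re = -2 * ((starRingEnd ℂ) Z₀ * X).re := by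
    rw [hu, mul_assoc, Complex.re_ofReal_mul]; field_simp
  have e9 : ((starRingEnd ℂ) Z₀ * θ).re ≤ ‖Z₀‖ * ζ :=
    le_trans (Complex.re_le_norm _) (by rw [norm_mul, Complex.norm_conj]; gcongr)
  have sq2 : ∀ z w : ℂ, ‖z + w‖ ^ 2 ≤ 2 * ‖z‖ ^ 2 + 2 * ‖w‖ ^ 2 := fun z w => by
    have : ‖z + w‖ ^ 2 ≤ (‖z‖ + ‖w‖) ^ 2 := by gcongr; exact norm_add_le _ _
    linarith only [this, sq_nonneg (‖z‖ - ‖w‖)]
  have e10 : ‖θ‖ ^ 2 ≤ ζ ^ 2 := by gcongr
  have e11 : ‖Z₀ + (X + θ)‖ ^ 2 ≤ ‖Z₀‖ ^ 2 - R * (u * X).re + (2 * ‖Z₀‖ * ζ + 2 * ζ ^ 2) +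
      2 * ‖X‖ ^ 2 := by
    rw [mul_add, Complex.add_re] at e2
    linarith only [e2, e8, e9, e10, sq2 X θ]
  have f1 : ‖V‖ ^ 2 ≤ 2 * (‖Y‖ ^ 2 + j) := by linarith only [hj, sq2 Y (J + ξ)]
  have f2 : ‖Y‖ ^ 2 ≤ 2 * ‖V‖ ^ 2 + 2 * j := by
    have := sq2 V (-(J + ξ))
    rw [norm_neg, hV, add_neg_cancel_right] at this; linarith only [hj, this]
  have f3 : ‖V‖ ^ 4 ≤ 8 * (‖Y‖ ^ 4 + j ^ 2) := by
    have : (‖V‖ ^ 2) ^ 2 ≤ (2 * (‖Y‖ ^ 2 + j)) ^ 2 := by gcongr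
    linarith only [this, sq_nonneg (‖Y‖ ^ 2 - j)]
  have hj0 : 0 ≤ j := le_trans (sq_nonneg _) hj
  have g1 : Psi α κ A M₀ Z₀ + (v * J).re - ‖v‖ * ω - κ * (2 * ‖Z₀‖ * ζ + 2 * ζ ^ 2) + (v * Y).re +
      κ * R * (u * X).re + (1 / 2 * ‖V‖ ^ 2 - (b * (20 * ‖M₀‖ ^ 2 * (‖Y‖ ^ 2 + j) +
        16 * (‖Y‖ ^ 4 + j ^ 2)) + 2 * κ * ‖X‖ ^ 2)) ≤ Psi α κ A (M₀ + V) (Z₀ + (X + θ)) := by
    have g2 := mul_le_mul_of_nonneg_left e11 hκ
    have g3 := mul_le_mul_of_nonneg_right hα (sq_nonneg ‖V‖)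
    have g4 := mul_le_mul_of_nonneg_left f1 (sq_nonneg ‖M₀‖)
    have g5 : b * ‖M₀ + V‖ ^ 4 ≤ b * (‖M₀‖ ^ 4 + 4 * ‖M₀‖ ^ 2 * p +
        (20 * ‖M₀‖ ^ 2 * (‖Y‖ ^ 2 + j) + 16 * (‖Y‖ ^ 4 + j ^ 2))) := by gcongr; linarith only [e5, f3, g4]
    unfold Psi
    rw [div_eq_mul_one_div _ (A ^ 2), ← hb] at e6
    rw [div_eq_mul_one_div _ (A ^ 2), div_eq_mul_one_div (‖M₀ + V‖ ^ 4), ← hb, e1]
    linarith only [e6, e7, g2, g3, g5]
  have g2 := mul_le_mul_of_nonneg_left g1 (show 0 ≤ ρ by linarith only [h1])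
  have g3 := mul_le_mul_of_nonneg_right h1 (sq_nonneg ‖V‖)
  have g4 := mul_le_mul_of_nonneg_right h2 (show 0 ≤ b * (20 * ‖M₀‖ ^ 2 * (‖Y‖ ^ 2 + j) +
    16 * (‖Y‖ ^ 4 + j ^ 2)) + 2 * κ * ‖X‖ ^ 2 by positivity)
  rw [div_eq_mul_one_div _ (A ^ 2), div_eq_mul_one_div 24, ← hb]
  linarith only [f2, g2, g3, g4]

/-- One tilted stage. -/
lemma stage0 (hl : Lac K l) {a c : ℕ → ℂ} {n : ℕ} (ha : ∀ j < n, ‖a j‖ ≤ 1)
    (hc : ∀ j < n, ‖c j‖ ≤ 4) {α κ A R ω ζ j x ℓ δ E q : ℝ} {M₀ Z₀ J v u : ℂ} {M Z : ℝ → ℂ}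
    (hM : Continuous M) (hZ : Continuous Z) (hA : 0 < A) (hα : 1 / 2 ≤ α) (hκ : 0 ≤ κ)
    (hR : 0 < R) (hℓ : 1 ≤ l 0 * ℓ) (hδ : K ^ 3 / l 0 ≤ δ * ℓ) (hE : En a n = E) (hq : En c n = q)
    (hJ : J = Gp a c n / R * Z₀) (hj : 2 * ‖J‖ ^ 2 + 2 * ω ^ 2 ≤ j)
    (h1 : ∀ y ∈ Icc x (x + ℓ), ‖M y - (M₀ + P l c n y + J)‖ ≤ ω)
    (h2 : ∀ y ∈ Icc x (x + ℓ), ‖Z y - (Z₀ + P l a n y)‖ ≤ ζ)
    (hv : v = (2 * α - 4 * ‖M₀‖ ^ 2 / A ^ 2 : ℝ) * (starRingEnd ℂ) M₀)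
    (hu : u = (-2 / R : ℝ) * (starRingEnd ℂ) Z₀) :
    ∃ ρ : ℝ → ℝ, Continuous ρ ∧ (∀ y, 0 ≤ ρ y ∧ ρ y ≤ 2) ∧ ∫ y in x..x + ℓ, ρ y = ℓ ∧
      ℓ * (Psi α κ A M₀ Z₀ + κ * R * (‖u‖ ^ 2 * E) / 2 + 3 / 32 * q - j / 4 -
        30 * ‖M₀‖ ^ 2 / A ^ 2 * (q + j) - 24 / A ^ 2 * (27648 * K ^ 4 * q ^ 2 + j ^ 2) -
        (128 * ‖v‖ ^ 2 + 16 * κ * R) * (27648 * K ^ 4 * (‖u‖ ^ 2 * E) ^ 2) - 3 * κ * E -
        ‖v‖ * ω - κ * (2 * ‖Z₀‖ * ζ + 2 * ζ ^ 2) - δ * (10 * ‖v‖ + 2 * (4 * ‖v‖ + ‖u‖) ^ 2 +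
          κ * R * (3 * ‖u‖ + 4 * ‖u‖ ^ 2) + 6 + 1920 * (‖M₀‖ ^ 2 / A ^ 2) + 12 * κ)) ≤
      ∫ y in x..x + ℓ, ρ y * Psi α κ A (M y) (Z y) := by
  have hK := hl.hK
  have h0 := hl.pos 0
  have hℓ0 : 0 < ℓ := pos_of_mul_pos_left (by linarith only [hℓ]) h0.le
  have hx : x ≤ x + ℓ := by linarith only [hℓ0]
  set X := P l a n with hX
  set Y := P l c n with hY
  have hXc : Continuous X := P_cont _ _ _
  have hYc : Continuous Y := P_cont _ _ _
  have hi : ∀ f : ℝ → ℝ, Continuous f → IntervalIntegrable f volume x (x + ℓ) :=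
    fun f hf => hf.intervalIntegrable _ _
  set φ := (∫ y in x..x + ℓ, cl (u * X y).re) / ℓ with hφ
  have hφ1 : |φ| ≤ 1 / 4 := by
    have := norm_integral_le_of_norm_le_const (a := x) (b := x + ℓ) (C := 1 / 4)
      (f := fun y => cl (u * X y).re) fun y _ => (cl_spec _).1
    rw [add_sub_cancel_left, abs_of_pos hℓ0] at this
    rw [hφ, abs_div, abs_of_pos hℓ0, div_le_iff₀ hℓ0]; exact this
  obtain ⟨hφ2, hφ3⟩ := abs_le.1 hφ1
  have hρ : ∀ y, 1 / 2 ≤ 1 + cl (u * X y).re - φ ∧ 1 + cl (u * X y).re - φ ≤ 3 / 2 := fun y => by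
    have := abs_le.1 (cl_spec (u * X y).re).1
    constructor <;> linarith only [hφ3, hφ2, this.1, this.2]
  have hρ1 : ∫ y in x..x + ℓ, (1 + cl (u * X y).re - φ) = ℓ := by
    rw [intervalIntegral.integral_sub (hi _ (by fun_prop)) (hi _ (by fun_prop)),
      intervalIntegral.integral_add (hi _ (by fun_prop)) (hi _ (by fun_prop))]
    simp only [intervalIntegral.integral_const, smul_eq_mul, add_sub_cancel_left]
    rw [hφ]; field_simp; ring
  refine ⟨fun y => 1 + cl (u * X y).re - φ, by fun_prop,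
    fun y => ⟨by linarith only [(hρ y).1], by linarith only [(hρ y).2]⟩, hρ1, ?_⟩
  set C₀ := Psi α κ A M₀ Z₀ + (v * J).re - ‖v‖ * ω - κ * (2 * ‖Z₀‖ * ζ + 2 * ζ ^ 2) with hC₀
  set m := 30 * ‖M₀‖ ^ 2 / A ^ 2 with hm
  set D := 128 * ‖v‖ ^ 2 + 16 * κ * R with hD
  have key := integral_mono_on hx (μ := volume) (f := fun y => C₀ * (1 + cl (u * X y).re - φ) +
      ((1 - φ) * (v * Y y).re + ((v * Y y).re * (u * X y).re + (κ * R * (1 - φ) * (u * X y).re +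
      (κ * R * (u * X y).re ^ 2 + (-(D * ‖u‖ ^ 4) * ‖X y‖ ^ 4 + ((3 / 32 - m) * ‖Y y‖ ^ 2 +
      (-(24 / A ^ 2) * ‖Y y‖ ^ 4 + (-(3 * κ) * ‖X y‖ ^ 2 + -(j / 4 + m * j + 24 / A ^ 2 * j ^ 2))))))))))
    (g := fun y => (1 + cl (u * X y).re - φ) * Psi α κ A (M y) (Z y)) (hi _ (by fun_prop))
    (hi _ (by unfold Psi; fun_prop)) fun y hy => by
      have e0 : ‖J + (M y - (M₀ + Y y + J))‖ ^ 2 ≤ j := by
        have e1 : ‖J + (M y - (M₀ + Y y + J))‖ ^ 2 ≤ (‖J‖ + ω) ^ 2 := by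
          gcongr; exact le_trans (norm_add_le _ _) (by linarith only [h1 y hy])
        linarith only [hj, e1, sq_nonneg (‖J‖ - ω)]
      have e1 := psi_pt (X := X y) (Y := Y y) hA hα hκ hR (h1 y hy) (h2 y hy) e0 (hρ y).1 (hρ y).2
        hv hu
      rw [show M₀ + (Y y + (J + (M y - (M₀ + Y y + J)))) = M y by ring,
        show Z₀ + (X y + (Z y - (Z₀ + X y))) = Z y by ring, ← hC₀, ← hm] at e1
      obtain ⟨_, e2, e3⟩ := cl_spec (u * X y).re
      set t := (u * X y).re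
      have e4 : |(v * Y y).re * (cl t - t)| ≤ ‖v‖ * ‖Y y‖ * (4 * t ^ 2) := by
        rw [abs_mul]; gcongr
        exact le_trans (Complex.abs_re_le_norm _) (norm_mul_le _ _)
      have e5 : t ^ 4 ≤ ‖u‖ ^ 4 * ‖X y‖ ^ 4 := by
        rw [← Even.pow_abs (by decide), ← mul_pow]; gcongr
        exact le_trans (Complex.abs_re_le_norm _) (norm_mul_le _ _)
      have e6 := mul_le_mul_of_nonneg_left e5 (show 0 ≤ D by positivity)
      have e7 := mul_le_mul_of_nonneg_left e3 (show 0 ≤ κ * R by positivity)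
      rw [hD] at e6 ⊢
      linarith only [e1, e6, e7, (abs_le.1 e4).1, sq_nonneg (‖Y y‖ - 64 * ‖v‖ * t ^ 2)]
  iterate 9 rw [intervalIntegral.integral_add (hi _ (by fun_prop)) (hi _ (by fun_prop))] at key
  simp only [intervalIntegral.integral_const_mul, intervalIntegral.integral_const, smul_eq_mul,
    add_sub_cancel_left, hρ1] at key
  refine le_trans ?_ key
  have hδ1 : K / l 0 ≤ δ * ℓ := le_trans (by gcongr; exact le_self_pow₀ hK.le (by norm_num)) hδ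
  have hδ0 : 0 ≤ δ * ℓ := le_trans (by positivity) hδ
  have hsm : ∀ (s : ℂ) (b : ℕ → ℂ) (β : ℝ), (∀ j < n, ‖b j‖ ≤ β) → ∀ j < n, ‖s * b j‖ ≤ ‖s‖ * β :=
    fun s b β h j hj => by rw [norm_mul]; gcongr; exact h j hj
  have lin : ∀ (s : ℂ) (b : ℕ → ℂ) (β : ℝ), 0 ≤ β → (∀ j < n, ‖b j‖ ≤ β) →
      -(5 / 2 * ‖s‖ * β * (δ * ℓ)) ≤ (1 - φ) * ∫ y in x..x + ℓ, (s * P l b n y).re := by
    intro s b β hβ h
    have e1 := le_trans (Complex.abs_re_le_norm _)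
      (M1 hl (by positivity) (hsm s b β h) x (x + ℓ))
    simp_rw [P_smul] at e1
    rw [← int_re (by fun_prop)] at e1
    have e2 : |(1 - φ) * ∫ y in x..x + ℓ, (s * P l b n y).re| ≤ 5 / 4 * (2 * (‖s‖ * β) * (δ * ℓ)) := by
      rw [abs_mul]; gcongr
      · rw [abs_le]; constructor <;> linarith only [hφ3, hφ2]
      · exact le_trans e1 (by gcongr)
    linarith only [(abs_le.1 e2).1]
  have m1 := lin v c 4 (by norm_num) hc
  have m2 := mul_le_mul_of_nonneg_left (lin u a 1 zero_le_one ha) (show 0 ≤ κ * R by positivity)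
  have m3 : ‖u‖ ^ 2 * E * ℓ / 2 - 4 * ‖u‖ ^ 2 * (δ * ℓ) ≤ ∫ y in x..x + ℓ, (u * X y).re ^ 2 := by
    have e1 := (abs_le.1 (re2 hl (by positivity) (hsm u a 1 ha) x (x + ℓ))).1
    have e2 := En_lin a a u 0 n
    simp only [zero_mul, add_zero, norm_zero, map_zero, mul_zero, Complex.zero_re, hE, ne_eq,
      OfNat.ofNat_ne_zero, not_false_eq_true, zero_pow] at e2
    simp_rw [P_smul, e2, add_sub_cancel_left, mul_one] at e1
    linarith only [e1, mul_le_mul_of_nonneg_left hδ (sq_nonneg ‖u‖)]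
  have m3' := mul_le_mul_of_nonneg_left m3 (show 0 ≤ κ * R by positivity)
  have m4 : -((v * J).re * ℓ) - 2 * (4 * ‖v‖ + ‖u‖) ^ 2 * (δ * ℓ) ≤
      ∫ y in x..x + ℓ, (v * Y y).re * (u * X y).re := by
    have hb : ∀ s : ℂ, ‖s‖ = ‖u‖ → ∀ j < n, ‖v * c j + s * a j‖ ≤ 4 * ‖v‖ + ‖u‖ := fun s hs j hj => by
      linarith only [hs, norm_add_le (v * c j) (s * a j), hsm v c 4 hc j hj, hsm s a 1 ha j hj]
    have e1 := (abs_le.1 (re2 hl (by positivity) (hb u rfl) x (x + ℓ))).1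
    have e2 := (abs_le.1 (re2 hl (by positivity) (hb (-u) (norm_neg u)) x (x + ℓ))).2
    have e3 : ∀ y, (v * Y y).re * (u * X y).re =
        ((v * Y y + u * X y).re ^ 2 - (v * Y y + -u * X y).re ^ 2) / 4 := fun y => by
      simp only [neg_mul, Complex.add_re, Complex.neg_re]; ring
    have e4 : v * (starRingEnd ℂ) u * Gp a c n = (-2 : ℝ) * (v * J) := by
      rw [hu, hJ, map_mul, Complex.conj_ofReal, Complex.conj_conj]; push_cast; ring
    simp_rw [P_lin, En_lin, add_sub_cancel_left] at e1 e2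
    rw [map_neg, mul_neg, neg_mul, Complex.neg_re, norm_neg] at e2
    rw [e4, Complex.re_ofReal_mul] at e1 e2
    simp_rw [e3]
    rw [intervalIntegral.integral_div,
      intervalIntegral.integral_sub (hi _ (by fun_prop)) (hi _ (by fun_prop))]
    linarith only [e1, e2, mul_le_mul_of_nonneg_left hδ (sq_nonneg (4 * ‖v‖ + ‖u‖))]
  have four : ∀ (b : ℕ → ℂ) (e : ℝ), En b n = e →
      ∫ y in x..x + ℓ, ‖P l b n y‖ ^ 4 ≤ 27648 * K ^ 4 * e ^ 2 * ℓ := fun b e h => by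
    refine le_trans (M4 hl h.le hx) ?_
    have : 2 / l 0 ≤ 2 * ℓ := by rw [div_le_iff₀ h0]; linarith only [hℓ]
    calc _ ≤ 9216 * K ^ 4 * e ^ 2 * (3 * ℓ) := by gcongr; linarith only [this]
      _ = _ := by ring
  have m5 := mul_le_mul_of_nonneg_left (four a E hE) (show 0 ≤ D * ‖u‖ ^ 4 by positivity)
  have m6 := mul_le_mul_of_nonneg_left (four c q hq) (show 0 ≤ 24 / A ^ 2 by positivity)
  have two : ∀ (b : ℕ → ℂ) (β e : ℝ), (∀ j < n, ‖b j‖ ≤ β) → En b n = e →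
      |(∫ y in x..x + ℓ, ‖P l b n y‖ ^ 2) - e * ℓ| ≤ 4 * β ^ 2 * (δ * ℓ) := fun b β e h h' => by
    have := M3 hl h x (x + ℓ)
    rw [h', add_sub_cancel_left] at this
    calc _ ≤ _ := this
      _ = 4 * β ^ 2 * (K ^ 3 / l 0) := by ring
      _ ≤ _ := by gcongr
  obtain ⟨m7, m8⟩ := abs_le.1 (two c 4 q hc hq)
  have m8' := mul_le_mul_of_nonneg_left m8 (show 0 ≤ m by positivity)
  have m9 := mul_le_mul_of_nonneg_left (abs_le.1 (two a 1 E ha hE)).2 hκ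
  have m10 : 0 ≤ κ * R * ‖u‖ * (δ * ℓ) := by positivity
  rw [show ‖M₀‖ ^ 2 / A ^ 2 = m / 30 by rw [hm]; ring]
  rw [hC₀]
  linarith only [m1, m2, m3', m4, m5, m6, m7, m8', m9, m10]

end tilt

end Pool.Agent.MP_5053af_an.H21

end

-- part MP_5053af_an.H21.Reach
section

/-! Iteration of the tilted stages. -/

set_option autoImplicit false

open MeasureTheory Set Filter Topology intervalIntegral Metric

namespace Pool.Agent.MP_5053af_an.H21

/-- On long intervals the positive part of `f` is dominated in the mean by `ψ / p`. -/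
def Iv (f ψ : ℝ → ℝ) (d p : ℝ) : Prop :=
  ∀ u v, d ≤ v - u → p * ∫ y in u..v, max (f y) 0 ≤ ∫ y in u..v, ψ y

lemma subdiv {f ψ : ℝ → ℝ} {d p : ℝ} (hf : Continuous f) (hψ : Continuous ψ) (h0 : ∀ y, 0 ≤ ψ y)
    (hd : 0 < d) (hp : 0 ≤ p) (h : ∀ x ℓ, d ≤ ℓ → ℓ ≤ 2 * d → ∀ z ∈ Icc x (x + ℓ), 0 < f z →
      p * (ℓ * f z) ≤ ∫ y in x..x + ℓ, ψ y) : Iv f ψ d p := by
  have base : ∀ u v, d ≤ v - u → v - u ≤ 2 * d →
      p * ∫ y in u..v, max (f y) 0 ≤ ∫ y in u..v, ψ y := fun u v h1 h2 => by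
    have huv : u ≤ v := by linarith only [hd, h1]
    obtain ⟨z, hz, hm⟩ := isCompact_Icc.exists_isMaxOn (nonempty_Icc.2 huv) hf.continuousOn
    have e1 : ∫ y in u..v, max (f y) 0 ≤ (v - u) * max (f z) 0 := by
      rw [← smul_eq_mul, ← intervalIntegral.integral_const]
      exact integral_mono_on huv (by apply Continuous.intervalIntegrable; fun_prop) (by simp only [intervalIntegrable_const])
        fun y hy => max_le_max_right _ (hm hy)
    refine le_trans (mul_le_mul_of_nonneg_left e1 hp) ?_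
    rcases le_or_gt (f z) 0 with e | e
    · rw [max_eq_right e, mul_zero, mul_zero]; exact integral_nonneg huv fun y _ => h0 y
    · have := h u (v - u) h1 h2 z (by rwa [add_sub_cancel]) e
      rwa [add_sub_cancel, ← max_eq_left e.le] at this
  have main : ∀ n : ℕ, ∀ u v, d ≤ v - u → v - u ≤ (n + 2) * d →
      p * ∫ y in u..v, max (f y) 0 ≤ ∫ y in u..v, ψ y := fun n => by
    induction n with
    | zero => exact fun u v h1 h2 => base u v h1 (by simpa only [tsub_le_iff_right, CharP.cast_eq_zero, zero_add] using h2)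
    | succ n ih =>
      intro u v h1 h2
      rcases le_total (v - u) (2 * d) with e | e
      · exact base u v h1 e
      push_cast at h2
      rw [← integral_add_adjacent_intervals (b := u + d) (f := ψ) (hψ.intervalIntegrable _ _)
        (hψ.intervalIntegrable _ _), ← integral_add_adjacent_intervals (b := u + d)
        (by apply Continuous.intervalIntegrable; fun_prop)
        (by apply Continuous.intervalIntegrable; fun_prop), mul_add]
      exact add_le_add (base _ _ (by linarith only []) (by linarith only [hd])) (ih _ _ (by linarith only [e]) (by linarith only [h2]))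
  intro u v h1
  obtain ⟨n, hn⟩ := exists_nat_ge ((v - u) / d)
  rw [div_le_iff₀ hd] at hn
  exact main n u v h1 (by linarith only [hd, hn])

lemma Iv.use {f ψ ρ : ℝ → ℝ} {d p u v : ℝ} (h : Iv f ψ d p) (hf : Continuous f)
    (hρ : Continuous ρ) (h2 : ∀ y, 0 ≤ ρ y ∧ ρ y ≤ 2) (hp : 0 ≤ p) (huv : u ≤ v) (hd : d ≤ v - u) :
    p / 2 * ∫ y in u..v, ρ y * f y ≤ ∫ y in u..v, ψ y := by
  refine le_trans ?_ (h u v hd)
  have e : ∫ y in u..v, ρ y * f y ≤ ∫ y in u..v, 2 * max (f y) 0 :=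
    integral_mono_on huv (by apply Continuous.intervalIntegrable; fun_prop)
      (by apply Continuous.intervalIntegrable; fun_prop) fun y _ =>
      le_trans (mul_le_mul_of_nonneg_left (le_max_left _ 0) (h2 y).1)
        (mul_le_mul_of_nonneg_right (h2 y).2 (le_max_right _ _))
  rw [intervalIntegral.integral_const_mul] at e
  linarith only [mul_le_mul_of_nonneg_left e hp]

/-- Remaining energy, shifted by `B`. -/
noncomputable def Rr (a : ℕ → ℂ) (N : ℕ) (B : ℝ) (t : ℕ) : ℝ := B + (En a N - En a t)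

/-- Regression coefficient. -/
noncomputable def bt (a c : ℕ → ℂ) (N : ℕ) (B : ℝ) (t : ℕ) : ℂ :=
  -(Gp a c N - Gp a c t) / Rr a N B t

/-- Corrected coefficients. -/
noncomputable def ch (a c : ℕ → ℂ) (N : ℕ) (B : ℝ) (t : ℕ) (i : ℕ) : ℂ :=
  1 * c i + bt a c N B t * a i

/-- Remaining conditional variance. -/
noncomputable def Vv (a c : ℕ → ℂ) (N : ℕ) (B : ℝ) (t : ℕ) : ℝ :=
  En c N - En c t - ‖Gp a c N - Gp a c t‖ ^ 2 / Rr a N B t

/-- Corrected difference sum. -/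
noncomputable def Mm (l : ℕ → ℝ) (a c : ℕ → ℂ) (N : ℕ) (B : ℝ) (w : ℂ) (t : ℕ) (y : ℝ) : ℂ :=
  P l (ch a c N B t) t y - bt a c N B t * w

section reg

variable {K B : ℝ} {l : ℕ → ℝ} {a c : ℕ → ℂ} {N i j : ℕ} {w : ℂ}

@[fun_prop] lemma Mm_cont (l : ℕ → ℝ) (a c : ℕ → ℂ) (N : ℕ) (B : ℝ) (w : ℂ) (t : ℕ) :
    Continuous (Mm l a c N B w t) := by unfold Mm; fun_prop

lemma Rr_ge (hi : i ≤ N) : B ≤ Rr a N B i := by unfold Rr; linarith only [En_mono a hi]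

lemma Rr_sub : Rr a N B i = Rr a N B j + (En a j - En a i) := by unfold Rr; ring

lemma bt_mul (hB : 0 < B) (hi : i ≤ N) : Gp a c N - Gp a c i = -(bt a c N B i * Rr a N B i) := by
  have : (Rr a N B i : ℂ) ≠ 0 := by exact_mod_cast (lt_of_lt_of_le hB (Rr_ge hi)).ne'
  unfold bt; field_simp

lemma Gp_ch (hB : 0 < B) (hj : j ≤ N) : Gp a c N - Gp a c i =
    Gp a (ch a c N B j) j - Gp a (ch a c N B j) i - bt a c N B j * Rr a N B i := by
  have := bt_mul (a := a) (c := c) hB hj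
  unfold ch
  rw [Gp_lin, Gp_lin, Rr_sub (j := j)]
  push_cast
  linear_combination this

lemma bt_sub (hB : 0 < B) (hij : i ≤ j) (hj : j ≤ N) : bt a c N B j - bt a c N B i =
    (Gp a (ch a c N B j) j - Gp a (ch a c N B j) i) / Rr a N B i := by
  have : (Rr a N B i : ℂ) ≠ 0 := by exact_mod_cast (lt_of_lt_of_le hB (Rr_ge (hij.trans hj))).ne'
  rw [eq_div_iff this]
  linear_combination Gp_ch (i := i) (a := a) (c := c) hB hj - bt_mul (a := a) (c := c) hB (hij.trans hj)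

lemma V_sub (hB : 0 < B) (hij : i ≤ j) (hj : j ≤ N) : Vv a c N B i - Vv a c N B j =
    En (ch a c N B j) j - En (ch a c N B j) i -
      ‖Gp a (ch a c N B j) j - Gp a (ch a c N B j) i‖ ^ 2 / Rr a N B i := by
  have hi := lt_of_lt_of_le hB (Rr_ge (a := a) (hij.trans hj))
  have hj' := lt_of_lt_of_le hB (Rr_ge (a := a) hj)
  unfold Vv
  rw [Gp_ch (i := i) hB hj, bt_mul hB hj, sub_eq_add_neg (Gp a _ j - _), norm_add_sq']
  have e1 := Rr_sub (a := a) (N := N) (B := B) (i := i) (j := j)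
  have e2 : ((Gp a (ch a c N B j) j - Gp a (ch a c N B j) i) *
      (starRingEnd ℂ) (-(bt a c N B j * Rr a N B i))).re = -Rr a N B i *
        ((1 * (starRingEnd ℂ) (bt a c N B j) * Gp a c j).re -
          (1 * (starRingEnd ℂ) (bt a c N B j) * Gp a c i).re +
          ‖bt a c N B j‖ ^ 2 * (En a j - En a i)) := by
    unfold ch
    rw [Gp_lin, Gp_lin, Complex.sq_norm, Complex.normSq_apply]
    simp only [one_mul, map_neg, map_mul, Complex.conj_ofReal, mul_neg, Complex.neg_re, Complex.mul_re, Complex.sub_re, Complex.add_re, Complex.ofReal_re, Complex.ofReal_im, mul_zero, sub_zero, Complex.conj_re, Complex.conj_im, Complex.sub_im, Complex.add_im, Complex.mul_im, zero_add, neg_mul, sub_neg_eq_add, neg_add_rev]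
    ring
  rw [e2]
  unfold ch
  rw [En_lin, En_lin]
  simp only [norm_neg, norm_mul, Complex.norm_real, Real.norm_of_nonneg hi.le,
    Real.norm_of_nonneg hj'.le, norm_one]
  field_simp
  rw [e1]
  ring

lemma V_cmp (hB : 0 < B) (hij : i ≤ j) (hj : j ≤ N) : Vv a c N B j ≤ Vv a c N B i ∧
    Vv a c N B i - Vv a c N B j ≤ En (ch a c N B j) j - En (ch a c N B j) i ∧
    (2 * (En a j - En a i) ≤ Rr a N B i →
      En (ch a c N B j) j - En (ch a c N B j) i ≤ 2 * (Vv a c N B i - Vv a c N B j)) := by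
  have hi := lt_of_lt_of_le hB (Rr_ge (a := a) (hij.trans hj))
  have h1 := V_sub (a := a) (c := c) hB hij hj
  have h2 := Gp_cs a (ch a c N B j) hij
  have h3 := sub_nonneg.2 (En_mono (ch a c N B j) hij)
  have h4 : En a j - En a i ≤ Rr a N B i := by
    rw [Rr_sub (j := j)]; linarith only [hB, Rr_ge (a := a) (B := B) hj]
  set g := ‖Gp a (ch a c N B j) j - Gp a (ch a c N B j) i‖ ^ 2
  have h5 : 0 ≤ g / Rr a N B i := by positivity
  refine ⟨?_, by linarith only [h1, h5], fun h => ?_⟩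
  · have : g / Rr a N B i ≤ En (ch a c N B j) j - En (ch a c N B j) i := by
      rw [div_le_iff₀ hi]; exact le_trans h2 (by gcongr)
    linarith only [h1, this]
  · have : g / Rr a N B i ≤ (En (ch a c N B j) j - En (ch a c N B j) i) / 2 := by
      rw [div_le_iff₀ hi]; linarith only [h2, mul_le_mul_of_nonneg_left h h3]
    linarith only [h1, this]

lemma V_N : Vv a c N B N = 0 := by simp [Vv]

lemma V_nonneg (hB : 0 < B) (hi : i ≤ N) : 0 ≤ Vv a c N B i :=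
  le_trans V_N.ge (V_cmp hB hi le_rfl).1

lemma Mm_N (y : ℝ) : Mm l a c N B w N y = P l c N y := by
  unfold Mm ch; rw [P_lin]; simp [bt]

lemma Mm_at (hB : 0 < B) (hij : i ≤ j) (hj : j ≤ N) (y : ℝ) :
    P l (ch a c N B j) i y - bt a c N B j * w = Mm l a c N B w i y +
      (Gp a (ch a c N B j) j - Gp a (ch a c N B j) i) / Rr a N B i * (P l a i y - w) := by
  rw [← bt_sub hB hij hj]; unfold Mm ch; rw [P_lin, P_lin]; ring

lemma ch_le (hB : 0 < B) (hc : ∀ t, ‖c t‖ ≤ 2 * ‖a t‖) (ha1 : ∀ t, ‖a t‖ ≤ 1) (hi : i ≤ N) (t : ℕ) :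
    ‖ch a c N B i t‖ ≤ 4 := by
  have h0 := lt_of_lt_of_le hB (Rr_ge (a := a) hi)
  have h1 := Gp_cs a c hi
  have h2 := En_cmp (c := c) (c' := a) (θ := 4) hi fun t _ _ => by
    have : ‖c t‖ ^ 2 ≤ (2 * ‖a t‖) ^ 2 := by gcongr; exact hc t
    linarith only [this]
  have h3 := sub_nonneg.2 (En_mono a hi)
  have h4 : ‖bt a c N B i‖ ≤ 2 := by
    unfold bt
    rw [norm_div, norm_neg, Complex.norm_real, Real.norm_of_nonneg h0.le, div_le_iff₀ h0]
    refine le_trans (le_of_sq_le_sq (b := 2 * (En a N - En a i)) ?_ (by linarith only [h3])) ?_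
    · linarith only [h1, mul_le_mul_of_nonneg_right h2 h3]
    · unfold Rr; linarith only [hB]
  unfold ch
  refine le_trans (norm_add_le _ _) ?_
  rw [one_mul, norm_mul]
  linarith only [h4, hc t, ha1 t, mul_le_mul h4 (ha1 t) (norm_nonneg _) zero_le_two]

lemma Lm_ch (hl : Lac K l) (hB : 0 < B) (ha1 : ∀ t, ‖a t‖ ≤ 1) (hij : i ≤ j) (hj : j ≤ N) (t : ℕ) :
    Lm l (ch a c N B j) t ≤ Lm l (ch a c N B i) t +
      ‖Gp a (ch a c N B j) j - Gp a (ch a c N B j) i‖ / Rr a N B i * K := by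
  have h0 := lt_of_lt_of_le hB (Rr_ge (a := a) (hij.trans hj))
  refine Lm_le hl (by positivity) (fun s => ?_) t
  have e : ch a c N B j s = ch a c N B i s + (bt a c N B j - bt a c N B i) * a s := by
    unfold ch; ring
  rw [e, bt_sub hB hij hj]
  refine le_trans (norm_add_le _ _) ?_
  rw [norm_mul, norm_div, Complex.norm_real, Real.norm_of_nonneg h0.le]
  gcongr
  exact mul_le_of_le_one_right (by positivity) (ha1 s)

lemma one_step (hB : 2 ≤ B) (ha1 : ∀ t, ‖a t‖ ≤ 1) (hi : i < N) :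
    ‖Gp a (ch a c N B (i + 1)) (i + 1) - Gp a (ch a c N B (i + 1)) i‖ ≤ ‖ch a c N B (i + 1) i‖ ∧
      ‖ch a c N B (i + 1) i‖ ^ 2 ≤ 2 * (Vv a c N B i - Vv a c N B (i + 1)) := by
  have h1 := pow_le_one₀ (n := 2) (norm_nonneg _) (ha1 i)
  constructor
  · unfold Gp
    rw [Finset.sum_range_succ, add_sub_cancel_left, norm_mul, Complex.norm_conj]
    exact mul_le_of_le_one_right (norm_nonneg _) (ha1 i)
  · have := (V_cmp (a := a) (c := c) (B := B) (by linarith only [hB]) i.le_succ hi).2.2 (by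
      rw [En_succ]; linarith only [hB, h1, Rr_ge (a := a) (B := B) hi.le])
    rwa [En_succ, add_sub_cancel_left] at this

/-- A cut at which the corrected sum is almost constant at its own scale. -/
lemma good_cut (hl : Lac K l) (hB : 2 * K ≤ B) (hc : ∀ t, ‖c t‖ ≤ 2 * ‖a t‖) (ha1 : ∀ t, ‖a t‖ ≤ 1)
    {S : ℝ} (hS : 2 ≤ S) (hi : i ≤ N) (hV : Vv a c N B i ≤ 1) (hN : En a i + 3 * S < En a N) :
    ∃ j, i ≤ j ∧ j ≤ N ∧ En a i + S ≤ En a j ∧ En a j ≤ En a i + 3 * S ∧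
      Lm l (ch a c N B j) j ^ 2 * S ≤ 25 * K ^ 4 := by
  have hK := hl.hK
  obtain ⟨n, -, h1, h2⟩ := exists_cross ha1 (k := i) (N := N - i) (t := S) (by linarith only [hS])
    (by rw [Nat.add_sub_cancel' hi]; linarith only [hS, hN])
  have h3 := Nat.le_ceil S
  have h4 := Nat.ceil_lt_add_one (show 0 ≤ S by linarith only [hS])
  set m := ⌈S⌉₊
  have h5 := En_step ha1 (i + n) m
  have h6 : i + n + m ≤ N := by
    by_contra h
    linarith only [hS, hN, h2, h4, h5, En_mono a (not_le.1 h).le]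
  have h7 := geo hK (ν := fun t => Lm l (ch a c N B t) t) (b := fun t => 2 * ‖ch a c N B (t + 1) t‖)
    (fun t => Lm_nonneg hl _ _) hi fun t _ ht => by
      have e1 := Lm_ch (c := c) hl (B := B) (by linarith only [hB, hK]) ha1 t.le_succ ht t
      have e2 := (one_step (c := c) (B := B) (by linarith only [hB, hK]) ha1 ht).1
      have e3 := Rr_ge (a := a) (B := B) ht.le
      have e4 : ‖Gp a (ch a c N B (t + 1)) (t + 1) - Gp a (ch a c N B (t + 1)) t‖ / Rr a N B t * K ≤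
          ‖ch a c N B (t + 1) t‖ := by
        rw [div_mul_eq_mul_div, div_le_iff₀ (by linarith only [hB, hK, e3])]; gcongr; linarith only [hB, hK, e3]
      rw [Nat.succ_eq_add_one] at e1
      exact le_trans (Lm_succ hl _ t) (mul_le_mul_of_nonneg_left (by linarith only [e1, e4]) (by linarith only [hK]))
  have h8 : ∑ t ∈ Finset.Ico i N, (2 * ‖ch a c N B (t + 1) t‖) ^ 2 ≤ 8 := by
    calc _ ≤ ∑ t ∈ Finset.Ico i N, ((-8 * Vv a c N B (t + 1)) - -8 * Vv a c N B t) :=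
          Finset.sum_le_sum fun t ht => by
            linarith only [(one_step (c := c) (B := B) (by linarith only [hB, hK]) ha1 (Finset.mem_Ico.1 ht).2).2]
      _ ≤ _ := by rw [Finset.sum_Ico_sub (fun t => -8 * Vv a c N B t) hi, V_N]; linarith only [hV]
  have h9 : Lm l (ch a c N B i) i ^ 2 ≤ (4 * K) ^ 2 :=
    pow_le_pow_left₀ (Lm_nonneg hl _ _) (Lm_bd hl (ch_le (by linarith only [hB, hK]) hc ha1 hi) i) 2
  have h10 : ∑ t ∈ Finset.Ico (i + n) (i + n + m), Lm l (ch a c N B t) t ^ 2 ≤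
      ∑ t ∈ Finset.Ico (i + n) (i + n + m), 25 * K ^ 4 / S := by
    refine le_trans (Finset.sum_le_sum_of_subset_of_nonneg (Finset.Ico_subset_Ico (Nat.le_add_right i n) h6)
      fun _ _ _ => sq_nonneg _) ?_
    rw [Finset.sum_const, Nat.card_Ico, Nat.add_sub_cancel_left, nsmul_eq_mul]
    have e1 : K ^ 3 ≤ K ^ 4 := pow_le_pow_right₀ hK.le (by norm_num)
    have e2 : K ^ 2 ≤ K ^ 4 := pow_le_pow_right₀ hK.le (by norm_num)
    have e3 : S * (25 * K ^ 4 / S) ≤ m * (25 * K ^ 4 / S) := by gcongr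
    rw [mul_div_cancel₀ _ (by linarith only [hS])] at e3
    linarith only [h7, e1, e2, e3, mul_le_mul_of_nonneg_left h8 (sq_nonneg K), pow_pos (show 0 < K by linarith only [hK]) 4,
      mul_le_mul_of_nonneg_left h9 (show 0 ≤ K by linarith only [hK]),
      mul_nonneg (show 0 ≤ K by linarith only [hK]) (sq_nonneg (Lm l (ch a c N B N) N))]
  obtain ⟨j, hj, e⟩ := Finset.exists_le_of_sum_le (Finset.nonempty_Ico.2 (by
    have : 0 < m := Nat.ceil_pos.2 (by linarith only [hS])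
    omega)) h10
  rw [Finset.mem_Ico] at hj
  exact ⟨j, by omega, by omega, by linarith only [h1, En_mono a hj.1], by linarith only [hS, h2, h4, h5, En_mono a hj.2.le],
    (le_div_iff₀ (by linarith only [hS])).1 e⟩

lemma rho_rel {ϱ ϱ' E : ℝ} (h0 : 0 < ϱ') (h : ϱ ^ 14 = ϱ' ^ 14 + E) (hE0 : 0 ≤ E)
    (hE : 4 * E ≤ ϱ ^ 14) (h1 : 0 < ϱ) : ϱ' ≤ ϱ ∧ (1 - 3 / 2 * (E / ϱ ^ 14)) / ϱ' ^ 15 ≤ 1 / ϱ ^ 15 ∧
      1 / ϱ' ^ 15 ≤ 2 / ϱ ^ 15 ∧ (ϱ ^ 12 ≤ E → 1 / ϱ + 1 / (14 * ϱ ^ 3) ≤ 1 / ϱ') := by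
  have e0 : ϱ' ≤ ϱ := le_of_pow_le_pow_left₀ (n := 14) (by norm_num) h1.le (by linarith only [h, hE0])
  obtain ⟨r, rfl⟩ : ∃ r, ϱ' = r * ϱ := ⟨ϱ' / ϱ, by field_simp⟩
  have hr : 0 < r := (mul_pos_iff_of_pos_right h1).1 h0
  have hr1 : r ≤ 1 := (mul_le_iff_le_one_left h1).1 e0
  set x := E / ϱ ^ 14 with hx
  have e1 : r ^ 14 = 1 - x := by rw [hx]; field_simp; linarith only [h]
  have e2 : x ≤ 1 / 4 := by rw [hx, div_le_iff₀ (by positivity)]; linarith only [hE]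
  have e3 : 0 ≤ x := by positivity
  have e4 : 1 - 3 / 2 * x ≤ r ^ 15 := by
    refine le_of_sq_le_sq ?_ (by positivity)
    calc _ ≤ (r ^ 14) ^ 3 := by rw [e1]; linarith only [mul_le_mul_of_nonneg_left e2 (sq_nonneg x), sq_nonneg x]
      _ ≤ _ := by rw [← pow_mul, ← pow_mul]; exact pow_le_pow_of_le_one hr.le hr1 (by norm_num)
  refine ⟨e0, ?_, ?_, fun e5 => ?_⟩
  · rw [mul_pow, div_le_div_iff₀ (by positivity) (by positivity), one_mul]; gcongr
  · rw [mul_pow, div_le_div_iff₀ (by positivity) (by positivity), ← mul_assoc]; gcongr; linarith only [e2, e4]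
  · have e6 := one_add_mul_le_pow (a := r - 1) (by linarith only [hr]) 14
    have e7 : 1 / ϱ ^ 2 ≤ x := by
      rw [hx, div_le_div_iff₀ (by positivity) (by positivity)]
      linarith only [mul_le_mul_of_nonneg_right e5 (sq_nonneg ϱ)]
    rw [add_sub_cancel, e1] at e6
    push_cast at e6
    have e8 : 2 - r ≤ 1 / r := by rw [le_div_iff₀ hr]; linarith only [sq_nonneg (r - 1)]
    calc _ = (1 + 1 / ϱ ^ 2 / 14) / ϱ := by field_simp
      _ ≤ 1 / r / ϱ := by gcongr; linarith only [e6, e7, e8]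
      _ = _ := by field_simp

lemma num {K A ϱ κ κ' α V V' q E nM nZ nv nu nJ j ω : ℝ} (hK : 1 < K) (hA : 0 < A) (hA1 : A ≤ 1)
    (h1 : 300 * K ^ 2 ≤ A * ϱ) (hκ : κ = 10 ^ 6 * K ^ 2 / ϱ ^ 15) (hκ1 : κ ≤ κ') (hκ2 : κ' ≤ 2 * κ)
    (hκ3 : κ' * (1 - 3 / 2 * (E / ϱ ^ 14)) ≤ κ) (hE0 : 0 ≤ E) (hE : E ≤ 3 * ϱ ^ 12)
    (hM : nM ^ 2 ≤ 2 * A ^ 2) (hZ0 : 0 ≤ nZ) (hZ : κ * nZ ^ 2 ≤ 1) (hv0 : 0 ≤ nv) (hv : nv ≤ 15)
    (hu : nu = 2 / ϱ ^ 14 * nZ) (hq0 : 0 ≤ q) (hq1 : V - V' ≤ q) (hq2 : q ≤ 2 * (V - V'))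
    (hq3 : 2400 * (27648 * K ^ 4) * q ≤ A ^ 2) (hJ : nJ ^ 2 ≤ q * E / (ϱ ^ 14) ^ 2 * nZ ^ 2)
    (hω : ω = 14 * K ^ 2 / ϱ ^ 3) (hj : j = 2 * nJ ^ 2 + 2 * ω ^ 2) :
    (α - 100 * V / A ^ 2) * nM ^ 2 - κ * nZ ^ 2 + V / 16 - 10 ^ 8 * K ^ 5 / ϱ ^ 3 ≤
      (α - 100 * V' / A ^ 2) * nM ^ 2 - κ' * nZ ^ 2 + V' / 16 +
        κ' * ϱ ^ 14 * (nu ^ 2 * E) / 2 + 3 / 32 * q - j / 4 -
        30 * nM ^ 2 / A ^ 2 * (q + j) - 24 / A ^ 2 * (27648 * K ^ 4 * q ^ 2 + j ^ 2) -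
        (128 * nv ^ 2 + 16 * κ' * ϱ ^ 14) * (27648 * K ^ 4 * (nu ^ 2 * E) ^ 2) - 3 * κ' * E -
        nv * ω - κ' * (2 * nZ * (K * (2 * ϱ ^ 3)) + 2 * (K * (2 * ϱ ^ 3)) ^ 2) -
        K ^ 3 / ϱ ^ 3 * (10 * nv + 2 * (4 * nv + nu) ^ 2 +
          κ' * ϱ ^ 14 * (3 * nu + 4 * nu ^ 2) + 6 + 1920 * (nM ^ 2 / A ^ 2) + 12 * κ') := by
  have hK0 : 0 < K := by linarith only [hK]
  have hK2 : K ≤ K ^ 2 := le_self_pow₀ hK.le (by norm_num)
  have hϱ0 : 0 < ϱ := pos_of_mul_pos_left (by linarith only [hK, h1, hK2]) hA.le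
  have h2 : 300 * K ^ 2 ≤ ϱ := le_trans h1 (mul_le_of_le_one_left hϱ0.le hA1)
  have hϱ1 : 1 ≤ ϱ := by linarith only [hK, hK2, h2]
  have hκ0 : 0 < κ := by rw [hκ]; positivity
  have hA2 : A ^ 2 ≤ 1 := pow_le_one₀ hA.le hA1
  set H := 10 ^ 6 * K ^ 2 with hH
  have hH1 : 10 ^ 6 ≤ H := by linarith only [hK, hK2]
  set τ := 1 / ϱ ^ 3 with hτ
  have hτ0 : 0 < τ := by positivity
  have hZ' : nZ ^ 2 ≤ ϱ ^ 15 / H := by
    rw [hκ, div_mul_eq_mul_div, div_le_one (by positivity)] at hZ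
    rw [le_div_iff₀' (by positivity)]; exact hZ
  set y := nu ^ 2 * E with hy
  have hy0 : 0 ≤ y := by positivity
  have hy1 : y ≤ 12 / (H * ϱ) := by
    calc y = 4 / ϱ ^ 28 * nZ ^ 2 * E := by rw [hy, hu]; ring
      _ ≤ 4 / ϱ ^ 28 * (ϱ ^ 15 / H) * (3 * ϱ ^ 12) := by gcongr
      _ = _ := by field_simp; norm_num
  set g := κ' * ϱ ^ 14 with hg
  have hg1 : H / ϱ ≤ g := by
    calc _ = κ * ϱ ^ 14 := by rw [hκ]; field_simp
      _ ≤ _ := by rw [hg]; gcongr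
  have hg2 : g ≤ 2 * H := by
    calc _ ≤ 2 * κ * ϱ ^ 15 := by rw [hg]; gcongr; norm_num
      _ = _ := by rw [hκ]; field_simp
  have hg3 : κ' ≤ g := le_mul_of_one_le_right (by linarith only [hκ1, hκ0]) (one_le_pow₀ hϱ1)
  have a1 : (128 * nv ^ 2 + 16 * g) * (27648 * K ^ 4 * y ^ 2) ≤ g / 8 * y := by
    have e1 : 128 * nv ^ 2 * (27648 * K ^ 4 * y) ≤ g / 16 := by
      calc _ ≤ 128 * 15 ^ 2 * (27648 * K ^ 4 * (12 / (H * ϱ))) := by gcongr
        _ = 9555148800 / 10 ^ 12 * (H / ϱ) := by rw [hH]; field_simp; norm_num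
        _ ≤ 1 / 16 * g := mul_le_mul (by norm_num) hg1 (by positivity) (by norm_num)
        _ = _ := by ring
    have e2 : 27648 * K ^ 4 * y ≤ 1 / 256 := by
      calc _ ≤ 27648 * K ^ 4 * (12 / (H * (300 * K ^ 2))) := by
            gcongr; exact le_trans hy1 (by gcongr)
        _ = 331776 / 300000000 := by rw [hH]; field_simp; norm_num
        _ ≤ _ := by norm_num
    have e3 := mul_le_mul_of_nonneg_left e2 (show 0 ≤ g by linarith only [hκ1, hκ0, hg3])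
    linarith only [mul_le_mul_of_nonneg_right e1 hy0, mul_le_mul_of_nonneg_right e3 hy0]
  have a2 : g * y = 4 * (κ' * (E / ϱ ^ 14) * nZ ^ 2) := by rw [hg, hy, hu]; field_simp; ring
  have a3 := mul_le_mul_of_nonneg_right hκ3 (sq_nonneg nZ)
  set m := nM ^ 2 / A ^ 2 with hm
  have hm0 : 0 ≤ m := by positivity
  have hm2 : m ≤ 2 := by rw [hm, div_le_iff₀ (by positivity)]; exact hM
  have hq4 : q ≤ A ^ 2 := le_trans (le_mul_of_one_le_left hq0
    (by linarith only [one_le_pow₀ (n := 4) hK.le])) hq3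
  have b1 : nJ ^ 2 ≤ q / 10 ^ 5 := by
    calc _ ≤ q * (3 * ϱ ^ 12) / (ϱ ^ 14) ^ 2 * (ϱ ^ 15 / H) := le_trans hJ (by gcongr)
      _ = q / (H * ϱ / 3) := by field_simp
      _ ≤ _ := by gcongr; linarith only [mul_le_mul hH1 hϱ1 zero_le_one (by linarith only [hK, hK2])]
  have b2 : ω = 14 * K ^ 2 * τ := by rw [hω, hτ]; ring
  have hω0 : 0 ≤ ω := by rw [b2]; positivity
  have b3 : ω ≤ A := by
    rw [hω, div_le_iff₀ (by positivity)]
    linarith only [hK, h1, hK2, mul_le_mul_of_nonneg_left (le_self_pow₀ hϱ1 (show 3 ≠ 0 by norm_num)) hA.le]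
  have b4 : ω ^ 2 ≤ A ^ 2 := by gcongr
  have b5 : ω ^ 2 ≤ ω := by rw [sq]; exact mul_le_of_le_one_left hω0 (by linarith only [hA1, b3])
  have hj0 : 0 ≤ j := by rw [hj]; positivity
  have b6 : 24 / A ^ 2 * j ^ 2 ≤ 72 * j := by
    rw [div_mul_eq_mul_div, div_le_iff₀ (by positivity)]
    linarith only [mul_le_mul_of_nonneg_left (show j ≤ 3 * A ^ 2 by linarith only [hq0, hj, hq4, b1, b4]) hj0]
  have b7 : 24 / A ^ 2 * (27648 * K ^ 4 * q ^ 2) ≤ q / 100 := by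
    rw [div_mul_eq_mul_div, div_le_iff₀ (by positivity)]
    linarith only [mul_le_mul_of_nonneg_left hq3 hq0]
  have b8 := mul_le_mul_of_nonneg_right hm2 hj0
  have b9 := mul_le_mul_of_nonneg_left hq2 hm0
  have b10 := mul_nonneg hm0 hq0
  have c1 : κ' * E ≤ 6 * (H * τ) := by
    calc _ ≤ 2 * κ * (3 * ϱ ^ 12) := by gcongr
      _ = _ := by rw [hκ, hτ]; field_simp; norm_num
  have c2 := mul_le_mul_of_nonneg_right hv hω0
  have c3 : nZ ≤ ϱ ^ 8 := by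
    refine le_of_sq_le_sq (le_trans hZ' ?_) (by positivity)
    rw [← pow_mul]
    exact le_trans (div_le_self (by positivity) (by linarith only [hK, hK2])) (pow_le_pow_right₀ hϱ1 (by norm_num))
  have c4 : κ' * (2 * nZ * (K * (2 * ϱ ^ 3)) + 2 * (K * (2 * ϱ ^ 3)) ^ 2) ≤ 24 * (H * τ) := by
    have e1 : K ≤ ϱ := by linarith only [hK, hK2, h2]
    have e2 : ϱ ^ 8 ≤ ϱ ^ 12 := pow_le_pow_right₀ hϱ1 (by norm_num)
    calc _ ≤ 2 * κ * (2 * ϱ ^ 8 * (ϱ * (2 * ϱ ^ 3)) + 2 * (ϱ * (2 * ϱ ^ 3)) ^ 2) := by gcongr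
      _ ≤ 2 * κ * (12 * ϱ ^ 12) := by gcongr; linarith only [e2]
      _ = _ := by rw [hκ, hτ]; field_simp; norm_num
  have hu0 : 0 ≤ nu := by rw [hu]; positivity
  have c5 : nu ≤ 1 := by
    calc _ ≤ 2 / ϱ ^ 14 * ϱ ^ 8 := by rw [hu]; gcongr
      _ = 2 / ϱ ^ 6 := by field_simp
      _ ≤ _ := by
        rw [div_le_one (by positivity)]
        linarith only [hK, hK2, h2, le_self_pow₀ hϱ1 (show 6 ≠ 0 by norm_num)]
  have c6 : K ^ 3 * τ * (10 * nv + 2 * (4 * nv + nu) ^ 2 + g * (3 * nu + 4 * nu ^ 2) + 6 + 1920 * m +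
      12 * κ') ≤ K ^ 3 * τ * (39 * H) := by
    have e1 : (4 * nv + nu) ^ 2 ≤ (4 * 15 + 1) ^ 2 := by gcongr
    have e2 : g * (3 * nu + 4 * nu ^ 2) ≤ 2 * H * (3 * 1 + 4 * 1 ^ 2) := by gcongr
    gcongr; linarith only [hK, hv, hK2, hg2, hg3, hm2, e1, e2]
  have c7 : H * τ ≤ K ^ 3 * (H * τ) := le_mul_of_one_le_left (by positivity) (one_le_pow₀ hK.le)
  have c8 : 10 ^ 8 * K ^ 5 / ϱ ^ 3 = 100 * (K ^ 3 * (H * τ)) := by rw [hH, hτ]; ring
  have c9 : ω ≤ H * τ / 1000 := by rw [b2, hH]; linarith only [b2, hω0, mul_pos (pow_pos hK0 2) hτ0]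
  have d1 : ∀ t, (α - 100 * t / A ^ 2) * nM ^ 2 = α * nM ^ 2 - 100 * (m * t) := fun t => by
    rw [hm]; ring
  rw [d1, d1, c8, mul_div_assoc 30, ← hm, mul_assoc 16, ← hg, div_eq_mul_one_div (K ^ 3), ← hτ]
  linarith only [hq0, hq1, hj, a1, a2, a3, b1, b2, hω0, b5, b6, b7, b8, b9, b10, c1, c2, c4, c6, c7]

end reg


/-- The bridge potential at time `t`, lowered by `e`. -/
noncomputable def Phi (K : ℝ) (l : ℕ → ℝ) (a c : ℕ → ℂ) (N : ℕ) (B : ℝ) (w : ℂ) (A e : ℝ) (t : ℕ)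
    (ϱ y : ℝ) : ℝ :=
  Psi (1 - 100 * Vv a c N B t / A ^ 2) (10 ^ 6 * K ^ 2 / ϱ ^ 15) A (Mm l a c N B w t y)
    (P l a t y - w) + Vv a c N B t / 16 - e

section reach

variable {K B A : ℝ} {l : ℕ → ℝ} {a c : ℕ → ℂ} {N i j : ℕ} {w : ℂ} {ψ : ℝ → ℝ}

@[fun_prop] lemma Phi_cont (K : ℝ) (l : ℕ → ℝ) (a c : ℕ → ℂ) (N : ℕ) (B : ℝ) (w : ℂ) (A e : ℝ)
    (t : ℕ) (ϱ : ℝ) : Continuous (Phi K l a c N B w A e t ϱ) := by unfold Phi Psi; fun_prop

lemma stage (hl : Lac K l) (hB : 0 < B) (hc : ∀ t, ‖c t‖ ≤ 2 * ‖a t‖) (ha1 : ∀ t, ‖a t‖ ≤ 1)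
    (hA : 0 < A) (hA1 : A ≤ 1) (hij : i ≤ j) (hj : j ≤ N) {ϱ ϱ' e d p : ℝ} (h0 : 0 < ϱ')
    (hR : ϱ ^ 14 = Rr a N B i) (hR' : ϱ' ^ 14 = Rr a N B j) (h1 : 300 * K ^ 2 ≤ A * ϱ)
    (hE : En a j ≤ En a i + 3 * ϱ ^ 12) (hV : 4800 * (27648 * K ^ 4) * Vv a c N B i ≤ A ^ 2)
    (hL : Lm l (ch a c N B i) i ^ 2 * ϱ ^ 12 ≤ 25 * K ^ 4) (he : 0 ≤ e) (hψ : Continuous ψ)
    (hψ0 : ∀ y, 0 ≤ ψ y) (hp : 0 ≤ p) (hd : d ≤ ϱ ^ 3 / l i)
    (h : Iv (Phi K l a c N B w A e j ϱ') ψ d p) :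
    Iv (Phi K l a c N B w A (e + 10 ^ 8 * K ^ 5 / ϱ ^ 3) i ϱ) ψ (ϱ ^ 3 / l i) (p / 2) := by
  have hK := hl.hK
  have hi := hl.pos i
  have hK2 : K ≤ K ^ 2 := le_self_pow₀ hK.le (by norm_num)
  have hϱ0 : 0 < ϱ := pos_of_mul_pos_left (by linarith only [h1, hK, hK2]) hA.le
  have hϱ : 300 ≤ ϱ := by linarith only [h1, hK, hK2, mul_le_of_le_one_left hϱ0.le hA1]
  have hϱ1 : 1 ≤ ϱ := by linarith only [hϱ]
  have hE4 : 4 * (En a j - En a i) ≤ ϱ ^ 14 := by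
    have : 12 * ϱ ^ 12 ≤ ϱ ^ 2 * ϱ ^ 12 := by
      gcongr; linarith only [hϱ, le_self_pow₀ hϱ1 (show 2 ≠ 0 by norm_num)]
    linarith only [hE, this]
  have hE0 := sub_nonneg.2 (En_mono a hij)
  obtain ⟨r1, r2, r3, -⟩ := rho_rel h0 (by rw [hR, hR']; exact Rr_sub) hE0 hE4 hϱ0
  obtain ⟨v1, v2, v3⟩ := V_cmp (a := a) (c := c) hB hij hj
  replace v3 := v3 (by linarith only [hR, hE4, hE0])
  have v4 := V_nonneg (a := a) (c := c) hB hj
  have v5 := mul_le_mul_of_nonneg_right (one_le_pow₀ (n := 4) hK.le) (le_trans v4 v1)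
  have hA2 : A ^ 2 ≤ 1 := pow_le_one₀ hA.le hA1
  have cs := Gp_cs a (ch a c N B j) hij
  have hq0 := sub_nonneg.2 (En_mono (ch a c N B j) hij)
  have hα : ∀ t, 0 ≤ t → t ≤ Vv a c N B i → 1 / 2 ≤ 1 - 100 * t / A ^ 2 ∧ 1 - 100 * t / A ^ 2 ≤ 1 :=
    fun t e1 e2 => ⟨by
      have : 100 * t / A ^ 2 ≤ 1 / 2 := by rw [div_le_iff₀ (by positivity)]; linarith only [hV, v1, v4, v5, e2]
      linarith only [this], sub_le_self _ (by positivity)⟩
  refine subdiv (by fun_prop) hψ hψ0 (by positivity) (by positivity) fun x ℓ l1 l2 z hz hf => ?_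
  have hℓ : 0 < ℓ := lt_of_lt_of_le (by positivity) l1
  have near : ∀ y ∈ Icc x (x + ℓ), |y - z| ≤ 2 * ϱ ^ 3 / l i := fun y hy => by
    rw [mul_div_assoc, abs_le]; constructor <;> linarith only [l2, hy.1, hy.2, hz.1, hz.2]
  obtain ⟨n, rfl⟩ := Nat.exists_eq_add_of_le hij
  unfold Phi Psi at hf
  set M₀ := Mm l a c N B w i z with hM₀
  set Z₀ := P l a i z - w with hZ₀
  have f0 : 0 ≤ 10 ^ 8 * K ^ 5 / ϱ ^ 3 := by positivity
  have f1 : 0 ≤ 10 ^ 6 * K ^ 2 / ϱ ^ 15 * ‖Z₀‖ ^ 2 := by positivity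
  have f2 := mul_le_mul_of_nonneg_right (hα _ (le_trans v4 v1) le_rfl).2 (sq_nonneg ‖M₀‖)
  have f3 : ∀ t : ℝ, 2 * t * ‖M₀‖ ^ 2 - t ^ 2 * A ^ 2 ≤ ‖M₀‖ ^ 4 / A ^ 2 := fun t => by
    rw [le_div_iff₀ (by positivity)]; linarith only [sq_nonneg (‖M₀‖ ^ 2 - t * A ^ 2)]
  have f4 : ‖M₀‖ ^ 2 ≤ 2 * A ^ 2 := by linarith only [hV, he, v5, v1, v4, hf, f0, f1, f2, f3 1]
  obtain ⟨ρ, ρ1, ρ2, ρ3, ρ4⟩ := stage0 (hl.shift i) (a := fun s => a (i + s))
    (c := fun s => ch a c N B (i + n) (i + s)) (n := n) (fun s _ => ha1 _)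
    (fun s _ => ch_le hB hc ha1 hj _) (κ := 10 ^ 6 * K ^ 2 / ϱ' ^ 15) (R := ϱ ^ 14)
    (ω := 14 * K ^ 2 / ϱ ^ 3) (ζ := K * (2 * ϱ ^ 3)) (x := x) (ℓ := ℓ) (δ := K ^ 3 / ϱ ^ 3)
    (E := En a (i + n) - En a i) (q := En (ch a c N B (i + n)) (i + n) - En (ch a c N B (i + n)) i)
    (M₀ := M₀) (Z₀ := Z₀) (M := Mm l a c N B w (i + n)) (Z := fun y => P l a (i + n) y - w)
    (J := (Gp a (ch a c N B (i + n)) (i + n) - Gp a (ch a c N B (i + n)) i) / Rr a N B i * Z₀)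
    (by fun_prop) (by fun_prop) hA (hα _ v4 v1).1 (by positivity) (by positivity)
    (by rw [div_le_iff₀' hi] at l1; exact le_trans (one_le_pow₀ hϱ1) l1)
    (by calc _ = K ^ 3 / ϱ ^ 3 * (ϱ ^ 3 / l i) := by rw [add_zero]; field_simp
          _ ≤ _ := by gcongr)
    (by rw [En_add]; ring) (by rw [En_add]; ring) (by rw [Gp_add, hR]; ring) le_rfl
    (fun y hy => by
      have e1 := Mm_at (l := l) (a := a) (c := c) (w := w) hB hij hj z
      have e2 := Lm_ch (c := c) hl hB ha1 hij hj i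
      have e3 : ‖Gp a (ch a c N B (i + n)) (i + n) - Gp a (ch a c N B (i + n)) i‖ ≤ 2 * ϱ ^ 6 := by
        refine le_of_sq_le_sq (le_trans cs ?_) (by positivity)
        calc _ ≤ 1 * (3 * ϱ ^ 12) := by gcongr <;> linarith only [hV, v5, hA2, v3, v4, hE]
          _ ≤ _ := by linarith only [hE, hE0, pow_pos hϱ0 12]
      have e4 : Lm l (ch a c N B i) i ≤ 5 * K ^ 2 / ϱ ^ 6 := by
        rw [le_div_iff₀ (by positivity)]
        exact le_of_sq_le_sq (by linarith only [hL]) (by positivity)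
      have e5 : ϱ ^ 12 ≤ ϱ ^ 14 := pow_le_pow_right₀ hϱ1 (by norm_num)
      rw [← hR] at e2
      calc _ = ‖P l (ch a c N B (i + n)) i y - P l (ch a c N B (i + n)) i z‖ := by
            rw [add_right_comm, ← e1, Mm, P_add]; congr 1; ring
        _ ≤ _ := Lm_lip hl _ i (near y hy)
        _ ≤ (5 * K ^ 2 / ϱ ^ 6 + 2 * ϱ ^ 6 / ϱ ^ 12 * K ^ 2) * (2 * ϱ ^ 3) := by
            gcongr; exact le_trans e2 (by gcongr)
        _ = _ := by field_simp; norm_num)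
    (fun y hy => by
      have := hl.lip' ha1 i.le_succ (near y hy)
      rw [one_mul] at this
      exact le_trans (le_of_eq (by rw [P_add, hZ₀]; congr 1; ring)) this) rfl rfl
  refine le_trans ?_ (h.use (by fun_prop) ρ1 ρ2 hp (by linarith only [hℓ]) (by linarith only [hd, l1]))
  gcongr
  unfold Phi
  simp_rw [add_sub_assoc, mul_add]
  rw [intervalIntegral.integral_add (by apply Continuous.intervalIntegrable; unfold Psi; fun_prop)
    (by apply Continuous.intervalIntegrable; fun_prop), intervalIntegral.integral_mul_const, ρ3]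
  have key := num (α := 1) (nM := ‖M₀‖) (nZ := ‖Z₀‖) (κ' := 10 ^ 6 * K ^ 2 / ϱ' ^ 15)
    (nv := ‖((2 * (1 - 100 * Vv a c N B (i + n) / A ^ 2) - 4 * ‖M₀‖ ^ 2 / A ^ 2 : ℝ) : ℂ) *
      (starRingEnd ℂ) M₀‖) (nu := ‖((-2 / ϱ ^ 14 : ℝ) : ℂ) * (starRingEnd ℂ) Z₀‖)
    (nJ := ‖(Gp a (ch a c N B (i + n)) (i + n) - Gp a (ch a c N B (i + n)) i) / Rr a N B i * Z₀‖)
    hK hA hA1 h1 rfl (by gcongr)
    (by linarith only [mul_le_mul_of_nonneg_left r3 (show 0 ≤ 10 ^ 6 * K ^ 2 by positivity),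
      mul_one_div (10 ^ 6 * K ^ 2) (ϱ' ^ 15), mul_div_assoc (10 ^ 6 * K ^ 2) 2 (ϱ ^ 15),
      show 10 ^ 6 * K ^ 2 * 2 / ϱ ^ 15 = 2 * (10 ^ 6 * K ^ 2 / ϱ ^ 15) by ring])
    (by rw [div_mul_eq_mul_div, mul_div_assoc, ← mul_one_div _ (ϱ ^ 15)]; gcongr)
    hE0 (by linarith only [hE]) f4 (norm_nonneg _) (by linarith only [hV, he, v5, hA2, hf, f0, f2, f3 (1 / 2)]) (norm_nonneg _)
    (by
      have e1 : 4 * ‖M₀‖ ^ 2 / A ^ 2 ≤ 8 := by rw [div_le_iff₀ (by positivity)]; linarith only [f4]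
      have e2 : 0 ≤ 4 * ‖M₀‖ ^ 2 / A ^ 2 := by positivity
      have e3 : ‖M₀‖ ≤ 3 / 2 := le_of_sq_le_sq (by linarith only [hA2, f4]) (by norm_num)
      rw [norm_mul, Complex.norm_conj, Complex.norm_real, Real.norm_eq_abs]
      refine le_trans (mul_le_mul (b := 8) ?_ e3 (norm_nonneg _) (by norm_num)) (by norm_num)
      rw [abs_le]; constructor <;> linarith only [e1, e2, (hα _ v4 v1).1, (hα _ v4 v1).2])
    (by rw [norm_mul, Complex.norm_conj, Complex.norm_real, Real.norm_eq_abs, neg_div, abs_neg,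
      abs_of_pos (by positivity)]) hq0 v2 v3
    (by linarith only [hV, mul_le_mul_of_nonneg_left v3 (show 0 ≤ K ^ 4 by positivity),
      mul_nonneg (show 0 ≤ K ^ 4 by positivity) v4])
    (by rw [norm_mul, norm_div, mul_pow, div_pow, ← hR, Complex.norm_real,
      Real.norm_of_nonneg (by positivity)]; gcongr) rfl rfl
  refine le_trans ?_ (add_le_add ρ4 le_rfl)
  rw [← mul_add, ← mul_add, ← hM₀, ← hZ₀]
  refine mul_le_mul_of_nonneg_left ?_ hℓ.le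
  unfold Psi
  linarith only [key]

end reach


section reach

variable {K B A : ℝ} {l : ℕ → ℝ} {a c : ℕ → ℂ} {N i j : ℕ} {w : ℂ} {ψ : ℝ → ℝ}

lemma root_ge {ϱ₀ ϱ : ℝ} (hB : ϱ₀ ^ 14 = B) (h0 : 0 < ϱ) (hi : i ≤ N) (hR : ϱ ^ 14 = Rr a N B i) :
    ϱ₀ ≤ ϱ := le_of_pow_le_pow_left₀ (n := 14) (by norm_num) h0.le (by rw [hB, hR]; exact Rr_ge hi)

lemma root_ex (hB : 0 < B) (hi : i ≤ N) : ∃ ϱ, 0 < ϱ ∧ ϱ ^ 14 = Rr a N B i := by
  have := lt_of_lt_of_le hB (Rr_ge (a := a) hi)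
  exact ⟨_, Real.rpow_pos_of_pos this _, Real.rpow_inv_natCast_pow this.le (by norm_num)⟩

lemma reach (hl : Lac K l) (hc : ∀ t, ‖c t‖ ≤ 2 * ‖a t‖) (ha1 : ∀ t, ‖a t‖ ≤ 1) (hA : 0 < A)
    (hA1 : A ≤ 1) {ϱ₀ e₀ : ℝ} (hB : ϱ₀ ^ 14 = B) (h1 : 300 * K ^ 2 ≤ A * ϱ₀) (he : 0 ≤ e₀) (n : ℕ) :
    ∀ t ϱ, N ≤ t + n → t ≤ N → 0 < ϱ → ϱ ^ 14 = Rr a N B t →
      4800 * (27648 * K ^ 4) * Vv a c N B t ≤ A ^ 2 → ∃ j ϱ' e p, t ≤ j ∧ j ≤ N ∧ 0 < ϱ' ∧
        ϱ' ^ 14 = Rr a N B j ∧ En a j ≤ En a t + 3 * ϱ ^ 12 ∧ 0 ≤ e ∧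
        e + 10 ^ 8 * K ^ 5 / ϱ ^ 3 ≤ e₀ + 14 * (10 ^ 8 * K ^ 5) * (2 / ϱ₀ - 1 / ϱ) ∧
        2 * Real.exp (-(En a N - En a t) - 1) ≤ p ∧ Iv (Phi K l a c N B w A e j ϱ')
          (fun y => max (Phi K l a c N B w A e₀ N ϱ₀ y) 0) (K / ϱ₀ / l t) p := by
  have hK := hl.hK
  have hK2 : K ≤ K ^ 2 := le_self_pow₀ hK.le (by norm_num)
  have hϱ0 : 0 < ϱ₀ := pos_of_mul_pos_left (by linarith only [h1, hK, hK2]) hA.le
  have hϱ : 300 * K ≤ ϱ₀ := by linarith only [h1, hK2, mul_le_of_le_one_left hϱ0.le hA1]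
  have hϱ1 : 1 ≤ ϱ₀ := by linarith only [hK, hϱ]
  have hB1 : ϱ₀ ≤ B := hB ▸ le_self_pow₀ hϱ1 (by norm_num)
  have hB0 : 0 < B := by linarith only [hK, hϱ, hB1]
  set C := 10 ^ 8 * K ^ 5 with hC
  have hC0 : 0 < C := by positivity
  have fin : ∀ t ϱ, t ≤ N → 0 < ϱ → ϱ ^ 14 = Rr a N B t → En a N ≤ En a t + 3 * ϱ ^ 12 → _ :=
    fun t ϱ h2 h3 h4 h5 => show ∃ j ϱ' e p, t ≤ j ∧ j ≤ N ∧ 0 < ϱ' ∧
        ϱ' ^ 14 = Rr a N B j ∧ En a j ≤ En a t + 3 * ϱ ^ 12 ∧ 0 ≤ e ∧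
        e + C / ϱ ^ 3 ≤ e₀ + 14 * C * (2 / ϱ₀ - 1 / ϱ) ∧
        2 * Real.exp (-(En a N - En a t) - 1) ≤ p ∧ Iv (Phi K l a c N B w A e j ϱ')
          (fun y => max (Phi K l a c N B w A e₀ N ϱ₀ y) 0) (K / ϱ₀ / l t) p from by
      have e1 := root_ge hB h3 h2 h4
      refine ⟨N, ϱ₀, e₀, 1, h2, le_rfl, hϱ0, by simp [Rr, hB], h5, he, ?_, ?_,
        fun u v _ => (one_mul _).le⟩
      · have e2 : 1 / ϱ ≤ 1 / ϱ₀ := by gcongr
        have e3 : 1 / ϱ ^ 3 ≤ 1 / ϱ₀ := by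
          gcongr; exact le_trans e1 (le_self_pow₀ (by linarith only [hK, hϱ, e1]) (by norm_num))
        have e4 : 0 < 1 / ϱ₀ := by positivity
        rw [div_eq_mul_one_div C, div_eq_mul_one_div 2]
        linarith only [mul_le_mul_of_nonneg_left e2 hC0.le, mul_le_mul_of_nonneg_left e3 hC0.le,
          mul_pos hC0 e4]
      · have e2 := Real.exp_le_exp.2 (show -(En a N - En a t) - 1 ≤ -1 by linarith only [En_mono a h2])
        linarith only [e2, Real.exp_neg_one_lt_d9]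
  induction n with
  | zero => exact fun t ϱ e1 e2 e3 e4 _ => fin t ϱ e2 e3 e4 (by
      linarith only [En_mono a (show N ≤ t from e1), pow_pos e3 12])
  | succ n ih =>
    intro t ϱ e1 e2 e3 e4 e5
    rcases le_or_gt (En a N) (En a t + 3 * ϱ ^ 12) with h | h
    · exact fin t ϱ e2 e3 e4 h
    have e6 := root_ge hB e3 e2 e4
    have e7 : ϱ ≤ ϱ ^ 4 := le_self_pow₀ (by linarith only [hK, hϱ, e6]) (by norm_num)
    have e8 : ϱ ^ 4 ≤ ϱ ^ 12 := pow_le_pow_right₀ (by linarith only [hK, hϱ, e6]) (by norm_num)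
    have e9 := mul_le_mul_of_nonneg_right (one_le_pow₀ (n := 4) hK.le) (V_nonneg (a := a) (c := c) hB0 e2)
    obtain ⟨j, j1, j2, j3, j4, j5⟩ := good_cut hl (B := B) (by linarith only [hK, hϱ, hB1]) hc ha1 (S := ϱ ^ 12)
      (by linarith only [hK, hϱ, e6, e7, e8]) e2 (by linarith only [e5, e9, pow_le_one₀ (n := 2) hA.le hA1, V_nonneg (a := a) (c := c) hB0 e2]) h
    obtain ⟨σ, s1, s2⟩ := root_ex (a := a) hB0 j2
    have s3 := root_ge hB s1 j2 s2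
    obtain ⟨r1, -, -, r4⟩ := rho_rel (E := En a j - En a t) s1 (by rw [e4, s2]; exact Rr_sub)
      (by linarith only [hK, hϱ, e6, e7, e8, j3]) (by
        have : 12 * ϱ ^ 12 ≤ ϱ ^ 2 * ϱ ^ 12 := by
          gcongr; linarith only [hK, hϱ, e6, le_self_pow₀ (show 1 ≤ ϱ by linarith only [hK, hϱ, e6]) (show 2 ≠ 0 by norm_num)]
        linarith only [j4, this]) e3
    have v := mul_le_mul_of_nonneg_left (V_cmp (a := a) (c := c) hB0 j1 j2).1
      (show 0 ≤ 4800 * (27648 * K ^ 4) by positivity)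
    have hj := hl.pos j
    obtain ⟨j', σ', e, p, k1, k2, k3, k4, k5, k6, k7, k8, k9⟩ := ih j σ (by
      have : t ≠ j := fun e => by rw [e] at j3; linarith only [hK, hϱ, e6, e7, e8, j3]
      omega) j2 s1 s2 (by linarith only [e5, v])
    have hp : 0 ≤ p := le_trans (by positivity) k8
    refine ⟨j, σ, _, _, j1, j2, s1, s2, j4, by positivity, ?_, ?_, fun u v h => stage hl hB0 hc ha1
      hA hA1 k1 k2 k3 s2 k4 (le_trans h1 (by gcongr)) k5 (by linarith) (le_trans (by gcongr) j5) k6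
      (by fun_prop) (fun y => le_max_right _ _) hp ?_ k9 u v (le_trans ?_ h)⟩
    · have := mul_le_mul_of_nonneg_left (r4 (by linarith only [j3])) hC0.le
      rw [← hC, show C / ϱ ^ 3 = 14 * (C * (1 / (14 * ϱ ^ 3))) by field_simp]
      linarith only [k7, this]
    · have e10 := Real.exp_le_exp.2 (show -(En a N - En a t) - 1 ≤
        -(En a N - En a j) - 1 + -1 by linarith only [hK, hϱ, e6, e7, e8, j3])
      rw [Real.exp_add] at e10
      linarith only [k8, hp, e10, mul_le_mul_of_nonneg_left Real.exp_neg_one_lt_d9.le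
        (Real.exp_pos (-(En a N - En a j) - 1)).le, Real.exp_pos (-(En a N - En a j) - 1)]
    · gcongr
      exact le_trans ((div_le_one hϱ0).2 (by linarith only [hK, hϱ])) (one_le_pow₀ (by linarith only [hK, hϱ, s3]))
    · refine scale_le hl (by positivity) (by positivity) (le_trans ?_ (idx_ge ha1 j1 j3))
      calc _ = t + σ ^ 3 * ϱ₀ := by field_simp
        _ ≤ t + ϱ ^ 3 * ϱ := by gcongr
        _ ≤ _ := by linarith only [e8]

end reach


section reach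

variable {K B A : ℝ} {l : ℕ → ℝ} {a c : ℕ → ℂ} {N i j : ℕ} {w : ℂ} {ψ : ℝ → ℝ}

lemma med_low (hl : Lac K l) (hc : ∀ j, ‖c j‖ ≤ 4) (hij : i ≤ j) {u v : ℝ} (huv : u ≤ v)
    (hu : ‖P l c i u + w‖ ≤ 8) (hv : ‖P l c i v + w‖ ≤ 8) :
    (En c j - En c i) * (v - u) - 256 * K ^ 3 / l i ≤ ∫ z in u..v, ‖P l c j z + w‖ ^ 2 := by
  have hK := hl.hK
  have hi := hl.pos i
  obtain ⟨n, rfl⟩ := Nat.exists_eq_add_of_le hij
  set U := P (fun j => l (i + j)) (fun j => c (i + j)) n with hU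
  have hUc : Continuous U := P_cont _ _ _
  have m3 := (abs_le.1 (M3 (hl.shift i) (c := fun j => c (i + j)) (n := n)
    (fun j _ => hc (i + j)) u v)).1
  rw [← hU] at m3
  have h1 : ‖∫ z in u..v, (P l c i z + w) * (starRingEnd ℂ) (U z)‖ ≤
      4 * (16 + 8 * K ^ 2) * (K / l i) := by
    have e : ∀ z, (P l c i z + w) * (starRingEnd ℂ) (U z) = ∑ j ∈ Finset.range n,
        (starRingEnd ℂ) (c (i + j)) * ((P l c i z + w) * ex (-l (i + j) * z)) := fun z => by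
      rw [show U z = ∑ j ∈ Finset.range n, c (i + j) * ex (l (i + j) * z) from rfl, map_sum,
        Finset.mul_sum]
      refine Finset.sum_congr rfl fun j _ => ?_
      rw [map_mul, ex_conj, neg_mul, mul_left_comm]
    simp_rw [e]
    rw [intervalIntegral.integral_finsetSum
      (fun k _ => by apply Continuous.intervalIntegrable; fun_prop)]
    refine le_trans (norm_sum_le _ _) (le_trans ?_
      (mul_le_mul_of_nonneg_left ((hl.shift i).sum_inv n) (by positivity)))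
    rw [Finset.mul_sum]
    refine Finset.sum_le_sum fun j _ => ?_
    rw [intervalIntegral.integral_const_mul, norm_mul, Complex.norm_conj]
    have := hl.pos (i + j)
    calc _ ≤ 4 * ((8 + 8 + 2 * K ^ 2 * 4) / l (i + j)) := by
          gcongr
          · exact hc _
          · exact le_trans (M5 hl hc (by omega) w u v) (by gcongr)
      _ = _ := by ring
  have h2 := (abs_le.1 (le_trans (Complex.abs_re_le_norm _) h1)).1
  have h3 : ∫ z in u..v, (‖U z‖ ^ 2 + 2 * ((P l c i z + w) * (starRingEnd ℂ) (U z)).re) ≤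
      ∫ z in u..v, ‖P l c (i + n) z + w‖ ^ 2 :=
    integral_mono_on huv (by apply Continuous.intervalIntegrable; fun_prop)
      (by apply Continuous.intervalIntegrable; fun_prop) fun z _ => by
        rw [P_add, add_right_comm, norm_add_sq']; linarith only [sq_nonneg ‖P l c i z + w‖]
  rw [intervalIntegral.integral_add (by apply Continuous.intervalIntegrable; fun_prop)
    (by apply Continuous.intervalIntegrable; fun_prop), intervalIntegral.integral_const_mul,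
    int_re (by fun_prop)] at h3
  have h4 : K / l i ≤ K ^ 3 / l i := by gcongr; exact le_self_pow₀ hK.le (by norm_num)
  have e1 : 4 * K ^ 3 * 4 ^ 2 / l (i + 0) = 64 * (K ^ 3 / l i) := by rw [add_zero]; ring
  have e2 : 4 * (16 + 8 * K ^ 2) * (K / l i) = 64 * (K / l i) + 32 * (K ^ 3 / l i) := by ring
  rw [e1] at m3
  rw [e2] at h2
  rw [mul_div_assoc, En_add, add_sub_cancel_left]
  linarith only [m3, h2, h3, h4]

lemma init_pt {α s : ℝ} {b Y : ℂ} (hs : 0 < s) (hα : 1 / 2 ≤ α) (hb : ‖b‖ ≤ 4 * s) :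
    ‖b + Y‖ ^ 2 / 16 - ‖Y‖ ^ 4 / s ^ 2 ≤ α * ‖b + Y‖ ^ 2 - ‖b + Y‖ ^ 4 / (10 * s) ^ 2 ∧
      (5 / 4 * s ≤ ‖b‖ → s ^ 2 ≤ ‖b + Y‖ ^ 2 + 256 * (‖Y‖ ^ 4 / s ^ 2)) := by
  have h0 : 0 ≤ ‖Y‖ ^ 4 / s ^ 2 := by positivity
  have h1 := mul_le_mul_of_nonneg_right hα (sq_nonneg ‖b + Y‖)
  have h2 := sq_nonneg ‖b + Y‖
  constructor
  · rcases le_total ‖b + Y‖ (6 * s) with h | h
    · have : ‖b + Y‖ ^ 4 / (10 * s) ^ 2 ≤ 36 / 100 * ‖b + Y‖ ^ 2 := by
        rw [div_le_iff₀ (by positivity)]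
        calc _ = ‖b + Y‖ ^ 2 * ‖b + Y‖ ^ 2 := by ring
          _ ≤ ‖b + Y‖ ^ 2 * (6 * s) ^ 2 := by gcongr
          _ = _ := by ring
      linarith only [h0, h1, h2, this]
    · have : ‖b + Y‖ ^ 4 / (10 * s) ^ 2 ≤ (3 * ‖Y‖) ^ 4 / (10 * s) ^ 2 := by
        gcongr; linarith only [hb, h, norm_add_le b Y]
      rw [show (3 * ‖Y‖) ^ 4 / (10 * s) ^ 2 = 81 / 100 * (‖Y‖ ^ 4 / s ^ 2) by ring] at this
      linarith only [h0, h1, h2, this]
  · intro h3
    rcases le_total ‖Y‖ (s / 4) with h | h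
    · have e := norm_sub_le (b + Y) Y
      rw [add_sub_cancel_right] at e
      have : s ^ 2 ≤ ‖b + Y‖ ^ 2 := by gcongr; linarith only [h3, h, e]
      linarith only [h0, this]
    · have : (s / 4) ^ 4 / s ^ 2 ≤ ‖Y‖ ^ 4 / s ^ 2 := by gcongr
      rw [show (s / 4) ^ 4 / s ^ 2 = s ^ 2 / 256 by field_simp; norm_num] at this
      linarith only [h2, this]

lemma init (hl : Lac K l) (hc : ∀ t, ‖c t‖ ≤ 2 * ‖a t‖) (ha1 : ∀ t, ‖a t‖ ≤ 1)
    {s d σ C ρ R T ϱ₀ y : ℝ} (hs : 0 < s) (hs1 : 10 * s ≤ 1) (hd : 0 < d) (hσ : 0 < σ) (hρ : σ ≤ ρ)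
    (hC : C = 9216 * K ^ 4 * (1 + 1 / σ)) (hB : ϱ₀ ^ 14 = B) (c0 : 10 ^ 6 * C * d ^ 2 ≤ s ^ 2)
    (c1 : 300 * K ^ 2 ≤ 10 * s * ϱ₀) (c2 : 56 * (10 ^ 8 * K ^ 5) ≤ d ^ 2 * ϱ₀) (c3 : 8 * R ≤ s * ϱ₀)
    (c4 : 88 * (10 ^ 6 * K ^ 2) * C ≤ d ^ 2 * ϱ₀) (c5 : K ≤ σ * ϱ₀) (hi : i < N)
    (hV : Vv a c N B (i + 1) ≤ 200 * d ^ 2) (hT : En a N ≤ En a (i + 1) + T)
    (h2 : ∀ z ∈ closedBall y (ρ / l i), ‖P l a (i + 1) z - w‖ ≤ R)
    (h3 : ∀ z ∈ closedBall y (ρ / l i), ‖Mm l a c N B w (i + 1) z‖ ≤ 7 / 2 * s)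
    (h4 : (∀ z ∈ closedBall y (ρ / l i), 3 / 2 * s ≤ ‖Mm l a c N B w (i + 1) z‖) ∨
      (200 * d ^ 2 ≤ Vv a c N B i ∧ 256 * K ^ 3 ≤ 200 * d ^ 2 * ρ)) :
    TT {z | d ≤ ‖P l c N z‖ ∧ ‖P l c N z‖ ≤ 10 * s ∧ ‖P l a N z - w‖ ≤ ϱ₀ ^ 8} y (ρ / l i)
      (4 * d ^ 2 * Real.exp (-T - 1)) := by
  have hK := hl.hK
  have hli := hl.pos i
  have hK2 : K ≤ K ^ 2 := le_self_pow₀ hK.le (by norm_num)
  have hϱ0 : 0 < ϱ₀ := pos_of_mul_pos_left (by linarith only [hs, hs1, c1, hK, hK2]) (show 0 ≤ 10 * s by linarith only [hs])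
  have hϱ : 300 ≤ ϱ₀ := by linarith only [c1, hK, hK2, mul_le_of_le_one_left hϱ0.le hs1]
  have hB0 : 0 < B := hB ▸ pow_pos hϱ0 _
  have hC1 : 9216 * K ^ 4 ≤ C := hC ▸ le_mul_of_one_le_right (by positivity)
    (le_add_of_nonneg_right (by positivity))
  have hK4 := one_le_pow₀ (n := 4) hK.le
  have hd2 := pow_pos hd 2
  have hs2 : s ^ 2 ≤ 1 := pow_le_one₀ hs.le (by linarith only [hs, hs1])
  have hCd := mul_le_mul_of_nonneg_right (show 1 ≤ C by linarith only [hs, hs1, hC1, hK4]) hd2.le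
  obtain ⟨ϱ, r0, hR⟩ := root_ex (a := a) hB0 hi
  have r1 := root_ge hB r0 hi hR
  have hϱ1 : 1 ≤ ϱ := by linarith only [c0, hϱ, hd2, hs2, hCd, r1]
  obtain ⟨j, ϱ', e, p, k1, k2, k3, k4, k5, k6, k7, k8, k9⟩ := reach (w := w) hl hc ha1
    (by positivity) hs1 hB c1 hd2.le N (i + 1) ϱ (by omega) hi r0 hR (by
      linarith only [c0, hd2, hCd, mul_le_mul_of_nonneg_right hC1 hd2.le,
        mul_le_mul_of_nonneg_left hV (show 0 ≤ K ^ 4 by positivity)])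
  have hE4 : 4 * (En a j - En a (i + 1)) ≤ ϱ ^ 14 := by
    have : 12 * ϱ ^ 12 ≤ ϱ ^ 2 * ϱ ^ 12 := by
      gcongr; linarith only [c0, hϱ, hd2, hs2, hCd, r1, le_self_pow₀ hϱ1 (show 2 ≠ 0 by norm_num)]
    linarith only [k5, this]
  have hE0 := sub_nonneg.2 (En_mono a k1)
  obtain ⟨-, -, r3, -⟩ := rho_rel k3 (by rw [hR, k4]; exact Rr_sub) hE0 hE4 r0
  obtain ⟨v1, -, v3⟩ := V_cmp (a := a) (c := c) hB0 k1 k2
  replace v3 := v3 (by linarith only [hR, hE4, hE0])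
  have v4 := V_nonneg (a := a) (c := c) hB0 k2
  have hp : 0 ≤ p := le_trans (by positivity) k8
  set ℓ := ρ / l i with hℓ
  have hℓ0 : 0 < ℓ := div_pos (by linarith only [hσ, hρ]) hli
  have hx : y - ℓ ≤ y + ℓ := by linarith only [hℓ0]
  have hint : ∀ f : ℝ → ℝ, Continuous f → IntervalIntegrable f volume (y - ℓ) (y + ℓ) :=
    fun f hf => hf.intervalIntegrable _ _
  have four : ∀ (b : ℕ → ℂ) (E : ℝ), En b j ≤ En b (i + 1) + E →
      ∫ z in (y - ℓ)..(y + ℓ), ‖P l b j z - P l b (i + 1) z‖ ^ 4 ≤ C * E ^ 2 * (2 * ℓ) := by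
    intro b E hE
    refine le_trans (int4 hl b k1 hE hx) ?_
    have h1 : 2 / l (i + 1) ≤ 1 / σ * (2 * ℓ) := by
      calc _ ≤ 2 / l i := by gcongr; exact hl.mono i.le_succ
        _ = 1 / σ * (2 * (σ / l i)) := by field_simp
        _ ≤ _ := by rw [hℓ]; gcongr
    calc _ ≤ 9216 * K ^ 4 * E ^ 2 * ((1 + 1 / σ) * (2 * ℓ)) := by gcongr; linarith only [h1]
      _ = _ := by rw [hC]; ring
  rw [Real.closedBall_eq_Icc] at h2 h3 h4
  set b := ch a c N B j with hb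
  have hb4 : ∀ t, ‖b t‖ ≤ 4 := ch_le hB0 hc ha1 k2
  set β := bt a c N B j * w with hβ
  have hJ : ∀ z ∈ Icc (y - ℓ) (y + ℓ), |‖P l b (i + 1) z - β‖ - ‖Mm l a c N B w (i + 1) z‖| ≤ s / 4 := by
    intro z hz
    refine le_trans (abs_norm_sub_norm_le _ _) ?_
    have e3 : ‖Gp a b j - Gp a b (i + 1)‖ ≤ 2 * ϱ ^ 6 := by
      refine le_of_sq_le_sq (le_trans (Gp_cs a b k1) ?_) (by positivity)
      calc _ ≤ 1 * (3 * ϱ ^ 12) := by gcongr <;> linarith only [c0, hV, hd2, hs2, hCd, v4, v3, k5]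
        _ ≤ _ := by linarith only [k5, hE0, pow_pos r0 12]
    have e4 : ϱ ^ 6 * ϱ₀ ≤ ϱ ^ 14 := by
      calc _ ≤ ϱ ^ 13 * ϱ := by gcongr; norm_num
        _ = _ := by ring
    rw [Mm_at hB0 k1 k2, add_sub_cancel_left, norm_mul, norm_div, ← hR, Complex.norm_real,
      Real.norm_of_nonneg (by positivity)]
    calc _ ≤ 2 * ϱ ^ 6 / (ϱ ^ 6 * ϱ₀) * (s * ϱ₀ / 8) := by gcongr; linarith only [c3, h2 z hz]
      _ = _ := by field_simp; norm_num
  have hM : ∀ z, Mm l a c N B w j z = P l b (i + 1) z - β + (P l b j z - P l b (i + 1) z) :=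
    fun z => by unfold Mm; ring
  have hbd : ∀ z ∈ Icc (y - ℓ) (y + ℓ), ‖P l b (i + 1) z - β‖ ≤ 4 * s := fun z hz => by
    linarith only [hs, (abs_le.1 (hJ z hz)).2, h3 z hz]
  set κ := 10 ^ 6 * K ^ 2 / ϱ' ^ 15 with hκ
  have hκ0 : 0 ≤ κ := by positivity
  have hα : 1 / 2 ≤ 1 - 100 * Vv a c N B j / (10 * s) ^ 2 := by
    have : 100 * Vv a c N B j / (10 * s) ^ 2 ≤ 1 / 2 := by
      rw [div_le_iff₀ (by positivity)]; linarith only [c0, hV, hd2, hCd, v1]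
    linarith only [this]
  have a1 : ∫ z in (y - ℓ)..(y + ℓ), (1 / 16 * ‖Mm l a c N B w j z‖ ^ 2 +
      (-(1 / s ^ 2) * ‖P l b j z - P l b (i + 1) z‖ ^ 4 + (-(2 * κ / ϱ ^ 12) *
      ‖P l a j z - P l a (i + 1) z‖ ^ 4 + (Vv a c N B j / 16 - 4 * κ * ϱ ^ 12 - e)))) ≤
      ∫ z in (y - ℓ)..(y + ℓ), max (Phi K l a c N B w (10 * s) e j ϱ' z) 0 :=
    integral_mono_on hx (hint _ (by fun_prop)) (hint _ (by fun_prop)) fun z hz => by
      refine le_trans ?_ (le_max_left _ _)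
      have e1 := (init_pt (Y := P l b j z - P l b (i + 1) z) hs hα (hbd z hz)).1
      set X := ‖P l a j z - P l a (i + 1) z‖
      have e2 : ‖P l a j z - w‖ ≤ ϱ ^ 6 + X := by
        linarith only [c0, c1, c3, hK, hK2, hd2, hs2, hCd, r1, norm_sub_le_norm_sub_add_norm_sub (P l a j z) (P l a (i + 1) z) w, h2 z hz,
          mul_le_of_le_one_left hϱ0.le hs1, le_self_pow₀ hϱ1 (show 6 ≠ 0 by norm_num)]
      have e3 : ‖P l a j z - w‖ ^ 2 ≤ (ϱ ^ 6 + X) ^ 2 := by gcongr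
      have e4 : 2 * X ^ 2 - ϱ ^ 12 ≤ X ^ 4 / ϱ ^ 12 := by
        rw [le_div_iff₀ (by positivity)]; linarith only [sq_nonneg (X ^ 2 - ϱ ^ 12)]
      have e5 : 0 ≤ X ^ 4 / ϱ ^ 12 := by positivity
      have e6 := mul_le_mul_of_nonneg_left (show ‖P l a j z - w‖ ^ 2 ≤ 4 * ϱ ^ 12 + 2 * (X ^ 4 / ϱ ^ 12)
        by linarith only [e3, e4, e5, sq_nonneg (ϱ ^ 6 - X), pow_pos r0 12]) hκ0
      rw [← hM] at e1
      unfold Phi Psi
      rw [← hκ]
      linear_combination e1 + e6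
  iterate 3 rw [intervalIntegral.integral_add (hint _ (by fun_prop)) (hint _ (by fun_prop))] at a1
  simp only [intervalIntegral.integral_const_mul, intervalIntegral.integral_const, smul_eq_mul] at a1
  have a2 := mul_le_mul_of_nonneg_left (four b (400 * d ^ 2) (by linarith only [hV, v4, v3]))
    (show 0 ≤ 1 / s ^ 2 by positivity)
  have a3 := mul_le_mul_of_nonneg_left (four a (3 * ϱ ^ 12) k5) (show 0 ≤ 2 * κ / ϱ ^ 12 by positivity)
  set I := 1 / s ^ 2 * ∫ z in (y - ℓ)..(y + ℓ), ‖P l b j z - P l b (i + 1) z‖ ^ 4 with hI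
  have a4 : 200 * d ^ 2 * ℓ ≤ (∫ z in (y - ℓ)..(y + ℓ), ‖Mm l a c N B w j z‖ ^ 2) +
      Vv a c N B j * (2 * ℓ) + 256 * I := by
    have e0 := mul_nonneg v4 hℓ0.le
    rcases h4 with h4 | ⟨h4, h5⟩
    · have e1 := integral_mono_on (μ := volume) hx (f := fun _ => s ^ 2)
        (g := fun z => ‖Mm l a c N B w j z‖ ^ 2 + 256 * (1 / s ^ 2 * ‖P l b j z - P l b (i + 1) z‖ ^ 4))
        (by simp) (hint _ (by fun_prop)) fun z hz => by
          rw [hM, one_div_mul_eq_div]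
          exact (init_pt hs hα (hbd z hz)).2 (by linarith only [(abs_le.1 (hJ z hz)).1, h4 z hz])
      rw [intervalIntegral.integral_add (hint _ (by fun_prop)) (hint _ (by fun_prop))] at e1
      simp only [intervalIntegral.integral_const_mul, intervalIntegral.integral_const,
        smul_eq_mul] at e1
      linarith only [e0, e1, mul_le_mul_of_nonneg_right (show 100 * d ^ 2 ≤ s ^ 2 by linarith only [c0, hd2, hCd]) hℓ0.le]
    · have e1 : ∀ z ∈ Icc (y - ℓ) (y + ℓ), ‖P l b i z + -β‖ ≤ 8 := fun z hz => by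
        have e2 := norm_sub_le (P l b (i + 1) z - β) (b i * ex (l i * z))
        rw [norm_mul, ex_norm, P_succ, show ∀ u v x : ℂ, u + v - x - v = u + -x from
          fun _ _ _ => by ring, ← P_succ] at e2
        linarith only [hs1, e2, hb4 i, hbd z hz]
      have e2 := med_low hl hb4 (le_trans i.le_succ k1) hx (e1 _ (left_mem_Icc.2 hx))
        (e1 _ (right_mem_Icc.2 hx))
      have e3 := (V_cmp (a := a) (c := c) hB0 (le_trans i.le_succ k1) k2).2.1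
      have e4 : 256 * K ^ 3 / l i ≤ 200 * d ^ 2 * ℓ := by rw [hℓ, ← mul_div_assoc]; gcongr
      have e5 : 0 ≤ I := mul_nonneg (by positivity) (integral_nonneg hx fun _ _ => by positivity)
      simp_rw [← sub_eq_add_neg] at e2
      unfold Mm
      linarith only [e4, e5, e2, mul_le_mul_of_nonneg_right e3 hℓ0.le, mul_le_mul_of_nonneg_right h4 hℓ0.le]
  have a5 : 1 / s ^ 2 * (C * (400 * d ^ 2) ^ 2 * (2 * ℓ)) ≤ 8 / 25 * (d ^ 2 * ℓ) := by
    rw [one_div_mul_eq_div, div_le_iff₀ (by positivity)]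
    linarith only [mul_le_mul_of_nonneg_left c0 (mul_pos hd2 hℓ0).le]
  have a6 : κ * ϱ ^ 12 * C ≤ d ^ 2 / 44 := by
    calc _ = 10 ^ 6 * K ^ 2 * (1 / ϱ' ^ 15) * ϱ ^ 12 * C := by rw [hκ]; ring
      _ ≤ 10 ^ 6 * K ^ 2 * (2 / ϱ ^ 15) * ϱ ^ 12 * C := by gcongr; linarith only [c0, hC1, hK4, hd2, hs2, hCd]
      _ = 88 * (10 ^ 6 * K ^ 2) * C / (44 * ϱ ^ 3) := by field_simp; ring
      _ ≤ d ^ 2 * ϱ₀ / (44 * ϱ₀) := by
        gcongr; exact le_trans r1 (le_self_pow₀ hϱ1 (by norm_num))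
      _ = _ := by field_simp
  have a7 : e ≤ 3 / 2 * d ^ 2 := by
    have e1 : 28 * (10 ^ 8 * K ^ 5) / ϱ₀ ≤ d ^ 2 / 2 := by rw [div_le_iff₀ hϱ0]; linarith only [c2]
    have e2 : 0 ≤ 10 ^ 8 * K ^ 5 / ϱ ^ 3 + 14 * (10 ^ 8 * K ^ 5) * (1 / ϱ) := by positivity
    linear_combination k7 + e1 + e2
  have a8 := mul_le_mul_of_nonneg_left (show 1 ≤ C by linarith only [c0, hC1, hK4, hd2, hs2, hCd]) (show 0 ≤ κ * ϱ ^ 12 by positivity)
  rw [show 2 * κ / ϱ ^ 12 * (C * (3 * ϱ ^ 12) ^ 2 * (2 * ℓ)) = 36 * (κ * ϱ ^ 12 * C * ℓ) by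
    field_simp; ring] at a3
  have a9 : 2 * (d ^ 2 * ℓ) ≤ ∫ z in (y - ℓ)..(y + ℓ), max (Phi K l a c N B w (10 * s) e j ϱ' z) 0 := by
    linarith only [a1, a2, a3, a4, a5, hI, mul_le_mul_of_nonneg_right a6 hℓ0.le, mul_pos hd2 hℓ0,
      mul_le_mul_of_nonneg_right a7 hℓ0.le, mul_le_mul_of_nonneg_right a8 hℓ0.le]
  have b1 := k9 (y - ℓ) (y + ℓ) (by
    have e1 : K / ϱ₀ / l (i + 1) ≤ ℓ := by
      rw [hℓ]; gcongr
      · linarith only [hσ, hρ]
      · exact le_trans ((div_le_iff₀ hϱ0).2 c5) hρ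
      · exact hl.mono i.le_succ
    linarith only [hℓ0, e1])
  have pt : ∀ z, Phi K l a c N B w (10 * s) (d ^ 2) N ϱ₀ z ≤ (10 * s) ^ 2 / 4 -
      10 ^ 6 * K ^ 2 / ϱ₀ ^ 15 * ‖P l a N z - w‖ ^ 2 ∧ (‖P l c N z‖ ≤ d ∨ 10 * s ≤ ‖P l c N z‖ →
        Phi K l a c N B w (10 * s) (d ^ 2) N ϱ₀ z ≤ 0) := fun z => by
    unfold Phi Psi
    rw [V_N, Mm_N, mul_zero, zero_div, zero_div]
    set D := ‖P l c N z‖
    have e1 : D ^ 2 - (10 * s) ^ 2 / 4 ≤ D ^ 4 / (10 * s) ^ 2 := by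
      rw [le_div_iff₀ (by positivity)]; linarith only [sq_nonneg (D ^ 2 - (10 * s) ^ 2 / 2)]
    have e2 : 0 ≤ 10 ^ 6 * K ^ 2 / ϱ₀ ^ 15 * ‖P l a N z - w‖ ^ 2 := by positivity
    refine ⟨by linarith only [e1, hd2], fun h => ?_⟩
    rcases h with h | h
    · have e3 : D ^ 2 ≤ d ^ 2 := by gcongr
      have e4 : 0 ≤ D ^ 4 / (10 * s) ^ 2 := by positivity
      linarith only [e2, e3, e4]
    · have e3 : D ^ 2 ≤ D ^ 4 / (10 * s) ^ 2 := by
        rw [le_div_iff₀ (by positivity), show D ^ 4 = D ^ 2 * D ^ 2 by ring]; gcongr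
      linarith only [e2, e3, hd2]
  have hA2 : (10 * s) ^ 2 ≤ 1 := pow_le_one₀ (by positivity) hs1
  have b2 := pz (f := fun z => max (Phi K l a c N B w (10 * s) (d ^ 2) N ϱ₀ z) 0) (by fun_prop) hx
    one_pos (G := {z | d ≤ ‖P l c N z‖ ∧ ‖P l c N z‖ ≤ 10 * s ∧ ‖P l a N z - w‖ ≤ ϱ₀ ^ 8})
    (fun z _ => max_le (le_trans (pt z).1 (le_trans (sub_le_self _ (by positivity)) (by linarith only [hA2])))
      zero_le_one) fun z _ hz => max_le (by
        by_contra h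
        refine hz ⟨not_lt.1 fun e => h ((pt z).2 (Or.inl e.le)),
          not_lt.1 fun e => h ((pt z).2 (Or.inr e.le)), not_lt.1 fun e => h (le_trans (pt z).1 ?_)⟩
        have : 1 / ϱ₀ ^ 16 * (ϱ₀ ^ 8) ^ 2 ≤ 10 ^ 6 * K ^ 2 / ϱ₀ ^ 15 * ‖P l a N z - w‖ ^ 2 := by
          gcongr <;> linarith only [c0, hK, hK2, hd2, hCd, hA2, hϱ]
        rw [show 1 / ϱ₀ ^ 16 * (ϱ₀ ^ 8) ^ 2 = 1 by field_simp] at this
        linarith only [hA2, this]) le_rfl
  unfold TT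
  rw [Real.closedBall_eq_Icc]
  have b3 := Real.exp_le_exp.2 (show -T - 1 ≤ -(En a N - En a (i + 1)) - 1 by linarith only [hT])
  linarith only [b1, b2, mul_le_mul_of_nonneg_left a9 hp,
    mul_le_mul_of_nonneg_right (le_trans (mul_le_mul_of_nonneg_left b3 zero_le_two) k8)
      (mul_pos hd2 hℓ0).le]

end reach


/-- A difference sum that is small at one point but has much energy takes values of a prescribed
medium size, while the sum itself stays in a disc whose radius does not depend on the energy. -/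
lemma medium {K s : ℝ} (R : ℝ) (hK : 1 < K) (hs : 0 < s) (hs1 : 10 * s ≤ 1) :
    ∃ d L R' : ℝ, 0 < d ∧ 8 ≤ L ∧ ∀ T : ℝ, ∃ q, 0 < q ∧ ∀ (l : ℕ → ℝ) (a c : ℕ → ℂ), Lac K l →
      (∀ j, ‖a j‖ ≤ 1) → (∀ j, ‖c j‖ ≤ 2 * ‖a j‖) → ∀ (k N : ℕ) (y : ℝ) (w : ℂ), k ≤ N →
        En a N ≤ En a k + T → En a k + 1 ≤ En a N → En a N - En a k < En c N - En c k →
        ‖P l c N y‖ ≤ s → (∀ t, k ≤ t → t ≤ N → ‖P l a t y - w‖ ≤ R) → ∃ i, k ≤ i ∧ i ≤ N ∧
          TT {z | d ≤ ‖P l c N z‖ ∧ ‖P l c N z‖ ≤ 10 * s ∧ ‖P l a N z - w‖ ≤ R'} y (L / l i) q := by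
  set σ := s / (8 * K) with hσ
  have hσ0 : 0 < σ := by positivity
  have hσ1 : σ ≤ 1 := by rw [hσ, div_le_one (by positivity)]; linarith only [hK, hs, hs1]
  set C := 9216 * K ^ 4 * (1 + 1 / σ) with hC
  have hC1 : 1 ≤ C := by
    calc (1 : ℝ) ≤ 9216 * 1 ^ 4 * (1 + 0) := by norm_num
      _ ≤ C := by rw [hC]; gcongr; positivity
  obtain ⟨d, hd, hd1⟩ : ∃ d, 0 < d ∧ 10 ^ 6 * C * d ^ 2 ≤ s ^ 2 := by
    refine ⟨s / (1000 * C), by positivity, ?_⟩
    calc _ ≤ 10 ^ 6 * (C * C) * (s / (1000 * C)) ^ 2 := by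
          gcongr; exact le_mul_of_one_le_left (by linarith only [hs, hs1, hC1]) hC1
      _ = _ := by field_simp; norm_num
  have hd2 := pow_pos hd 2
  have hd3 : 10 ^ 6 * d ^ 2 ≤ s ^ 2 := by linarith only [hd1, mul_le_mul_of_nonneg_right hC1 hd2.le]
  have hs2 : s ^ 2 ≤ 1 := pow_le_one₀ hs.le (by linarith only [hs, hs1])
  set L := 2 * K ^ 3 / d ^ 2 with hL
  have hK3 := one_le_pow₀ (n := 3) hK.le
  have hL1 : 8 ≤ L := by rw [hL, le_div_iff₀ hd2]; linarith only [hd2, hd3, hs2, hK3]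
  obtain ⟨ϱ, g1, g2, g3, g4, g5, g6, g7⟩ : ∃ ϱ : ℝ, 300 * K ^ 2 ≤ 10 * s * ϱ ∧
      56 * (10 ^ 8 * K ^ 5) ≤ d ^ 2 * ϱ ∧ 8 * (R + 1 * K * (L + σ)) ≤ s * ϱ ∧
      88 * (10 ^ 6 * K ^ 2) * C ≤ d ^ 2 * ϱ ∧ K ≤ σ * ϱ ∧ R ≤ 1 * ϱ ∧ 2 ≤ 1 * ϱ := by
    have T := fun (b c : ℝ) (hb : 0 < b) =>
      ((tendsto_id (x := atTop)).const_mul_atTop hb).eventually_ge_atTop c
    exact ((T _ _ (by positivity)).and ((T _ _ hd2).and ((T _ _ hs).and ((T _ _ hd2).and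
      ((T _ _ hσ0).and ((T _ _ one_pos).and (T _ _ one_pos))))))).exists
  have hB : ϱ ≤ ϱ ^ 14 := le_self_pow₀ (by linarith only [hd2, hd3, hs2, g7]) (by norm_num)
  refine ⟨d, L + σ, ϱ ^ 8, hd, by linarith only [hσ0, hL1], fun T => ⟨4 * d ^ 2 * Real.exp (-T - 1) * σ / (L + σ),
    by positivity, fun l a c hl ha1 hc k N y w hk hT h1 h2 hy hw => ?_⟩⟩
  set B := ϱ ^ 14 with hBd
  have hB0 : 0 < B := by linarith only [hd2, hd3, hs2, g7, hB]
  classical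
  set Q : ℕ → Prop := fun i => 200 * d ^ 2 ≤ Vv a c N B i with hQ
  have hQ0 : Q k := by
    have e1 := Gp_cs a c hk
    have e2 : ‖Gp a c N - Gp a c k‖ ^ 2 / Rr a N B k ≤ En c N - En c k - 1 / 2 := by
      unfold Rr
      rw [div_le_iff₀ (by linarith only [hd2, hd3, hs2, g7, h1, hB])]
      linarith only [hd2, hd3, hs2, g7, h1, hB, e1, mul_le_mul_of_nonneg_right h2.le hB0.le, mul_nonneg (sub_nonneg.2 h1)
        (show 0 ≤ B - 1 by linarith only [hd2, hd3, hs2, g7, hB])]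
    rw [hQ]; unfold Vv; linarith only [hd2, hd3, hs2, e2]
  set m := Nat.findGreatest Q N with hm
  have hm1 : k ≤ m := Nat.le_findGreatest hk hQ0
  have hm2 : Q m := Nat.findGreatest_spec hk hQ0
  have hm3 : ∀ i, m < i → i ≤ N → Vv a c N B i ≤ 200 * d ^ 2 :=
    fun i h1 h2 => (not_le.1 (Nat.findGreatest_is_greatest (P := Q) h1 h2)).le
  have hm4 : m < N := lt_of_le_of_ne (Nat.findGreatest_le N) fun e => by
    rw [e, hQ] at hm2
    simp only [V_N] at hm2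
    linarith only [hd2, hm2]
  have core : ∀ i y' ρ, m ≤ i → i < N → σ ≤ ρ → |y' - y| + ρ / l i ≤ (L + σ) / l i →
      (∀ z ∈ closedBall y' (ρ / l i), ‖Mm l a c N B w (i + 1) z‖ ≤ 7 / 2 * s) →
      ((∀ z ∈ closedBall y' (ρ / l i), 3 / 2 * s ≤ ‖Mm l a c N B w (i + 1) z‖) ∨
        (200 * d ^ 2 ≤ Vv a c N B i ∧ 256 * K ^ 3 ≤ 200 * d ^ 2 * ρ)) → ∃ i, k ≤ i ∧ i ≤ N ∧
        TT {z | d ≤ ‖P l c N z‖ ∧ ‖P l c N z‖ ≤ 10 * s ∧ ‖P l a N z - w‖ ≤ ϱ ^ 8} y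
        ((L + σ) / l i) (4 * d ^ 2 * Real.exp (-T - 1) * σ / (L + σ)) := by
    intro i y' ρ h1 h2 h3 h4 h5 h6
    have hi := hl.pos i
    have hsub : closedBall y' (ρ / l i) ⊆ closedBall y ((L + σ) / l i) :=
      closedBall_subset_closedBall' (by rw [Real.dist_eq]; linarith only [h4])
    refine ⟨i, le_trans hm1 h1, h2.le, le_trans ?_ (le_trans
      (init (T := T) hl hc ha1 hs hs1 hd hσ0 h3 hC rfl hd1 g1 g2 g3 g4 g5 h2 (hm3 _ (by omega) h2)
        (by linarith only [hT, En_mono a (show k ≤ i + 1 by omega)]) (fun z hz => ?_) h5 h6)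
      (measureReal_mono (inter_subset_inter_right _ hsub) (fin_ball inter_subset_right)))⟩
    · calc _ = 4 * d ^ 2 * Real.exp (-T - 1) * (σ / l i) := by field_simp
        _ ≤ _ := by gcongr
    · linarith only [hl.lip' ha1 le_rfl (mem_closedBall.1 (hsub hz)), hw (i + 1) (by omega) h2,
        norm_sub_le_norm_sub_add_norm_sub (P l a (i + 1) z) (P l a (i + 1) y) w]
  have caseA : ∀ i y', m ≤ i → i < N → |y' - y| ≤ L / l i → 2 * s ≤ ‖Mm l a c N B w (i + 1) y'‖ →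
      ‖Mm l a c N B w (i + 1) y'‖ ≤ 3 * s → _ := fun i y' h1 h2 h3 h4 h5 => by
    have e : ∀ z ∈ closedBall y' (σ / l i),
        |‖Mm l a c N B w (i + 1) z‖ - ‖Mm l a c N B w (i + 1) y'‖| ≤ s / 2 := fun z hz => by
      refine le_trans (abs_norm_sub_norm_le _ _) ?_
      unfold Mm
      rw [sub_sub_sub_cancel_right]
      exact le_trans (hl.lip' (ch_le hB0 hc ha1 h2) le_rfl (mem_closedBall.1 hz))
        (le_of_eq (by rw [hσ]; field_simp; norm_num))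
    exact core i y' σ h1 h2 le_rfl (by rw [add_div]; linarith only [h3])
      (fun z hz => by linarith only [h5, (abs_le.1 (e z hz)).2])
      (Or.inl fun z hz => by linarith only [h4, (abs_le.1 (e z hz)).1])
  have hlm := hl.pos m
  by_cases hb : ∀ z ∈ closedBall y (L / l m), ‖Mm l a c N B w (m + 1) z‖ ≤ 2 * s
  · exact core m y L le_rfl hm4 (by linarith only [hσ1, hd2, hd3, hs2, hL1])
      (by rw [sub_self, abs_zero, zero_add]; gcongr; linarith only [hσ0]) (fun z hz => by linarith only [hs, hb z hz])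
      (Or.inr ⟨hm2, by rw [hL, mul_assoc, mul_div_cancel₀ _ hd2.ne']; linarith only [hd2, hd3, hs2, hK3]⟩)
  push Not at hb
  obtain ⟨z, hz, hz'⟩ := hb
  by_cases h1 : 2 * s ≤ ‖Mm l a c N B w (m + 1) y‖
  · obtain ⟨i, e1, e2, e3, e4⟩ := exists_step (Q := fun i => 2 * s ≤ ‖Mm l a c N B w i y‖)
      (show m + 1 ≤ N from hm4) h1 (by rw [Mm_N]; linarith only [hs, hy])
    obtain ⟨f1, f2⟩ := one_step (a := a) (c := c) (B := B) (by linarith only [g7, hB]) ha1 e2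
    have f3 : ‖ch a c N B (i + 1) i‖ ≤ s / 2 := le_of_sq_le_sq (by
      linarith only [hd2, hd3, f2, V_nonneg (a := a) (c := c) hB0 e2, hm3 i e1 e2.le]) (by linarith only [hs])
    have f4 := Rr_ge (a := a) (B := B) e2.le
    have f5 := Mm_at (l := l) (a := a) (c := c) (w := w) hB0 i.le_succ e2 y
    have f6 : ‖(Gp a (ch a c N B (i + 1)) (i + 1) - Gp a (ch a c N B (i + 1)) i) / Rr a N B i *
        (P l a i y - w)‖ ≤ s / 2 := by
      rw [norm_mul, norm_div, Complex.norm_real, Real.norm_of_nonneg (by linarith only [hd2, hd3, hs2, g7, hB, f4]),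
        div_mul_eq_mul_div, div_le_iff₀ (by linarith only [hd2, hd3, hs2, g7, hB, f4])]
      gcongr
      · linarith only [f1, f3]
      · linarith only [g6, hB, f4, hw i (by omega) e2.le]
    have f7 : Mm l a c N B w i y = Mm l a c N B w (i + 1) y - ch a c N B (i + 1) i * ex (l i * y) -
        (Gp a (ch a c N B (i + 1)) (i + 1) - Gp a (ch a c N B (i + 1)) i) / Rr a N B i *
          (P l a i y - w) := by
      rw [eq_sub_iff_add_eq, ← f5, Mm, P_succ]; ring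
    have f8 : ‖Mm l a c N B w i y‖ ≤ 3 * s := by
      rw [f7]
      refine le_trans (norm_sub_le _ _) (le_trans (add_le_add (norm_sub_le _ _) f6) ?_)
      rw [norm_mul, ex_norm]; linarith only [e4, f3]
    obtain ⟨i, rfl⟩ := Nat.exists_eq_succ_of_ne_zero (show i ≠ 0 by omega)
    exact caseA i y (by omega) (by omega)
      (by have := hl.pos i; rw [sub_self, abs_zero]; positivity) e3 f8
  · obtain ⟨y', e1, e2⟩ := intermediate_value_uIcc (f := fun z => ‖Mm l a c N B w (m + 1) z‖)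
      (a := y) (b := z) (by fun_prop) (mem_uIcc_of_le (not_le.1 h1).le hz'.le)
    exact caseA m y' le_rfl hm4 (le_trans (abs_sub_left_of_mem_uIcc e1) hz) e2.ge
      (by linarith only [hs, e2, e2.le])

end Pool.Agent.MP_5053af_an.H21

end

-- part MP_5053af_an.H21.Plane
section

/-! The two-point argument (after helper9's file), with time measured by energy. -/

set_option autoImplicit false

open MeasureTheory Set Filter Topology intervalIntegral Metric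

namespace Pool.Agent.MP_5053af_an.H21

section pair

variable {K : ℝ} {l : ℕ → ℝ} {a : ℕ → ℂ}

lemma real_shift (A : Set ℝ) (h : ℝ) : volume.real ((· + h) ⁻¹' A) = volume.real A := by
  unfold Measure.real; rw [measure_preimage_add_right]

lemma two_pt {F : Set ℂ} {r η x h δ p A : ℝ} {u : ℂ} {k : ℕ} {X : Set ℝ} (hX : X ⊆ closedBall x δ)
    (hv : volume.real X ≤ p / 2 * δ) (h1 : ∀ z ∈ closedBall x δ, z ∉ X → ∀ j, k ≤ j →
      En a j ≤ En a k + A → ‖P l a j (z + h) - P l a j z - u‖ ≤ η) (hη : 0 ≤ η)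
    (h2 : TT (Hit l a (F ∪ (· + u) '' F) r k A) (x + h) δ p ∨
      TT (Hit l a (F ∪ (· + -u) '' F) r k A) x δ p) :
    TT (Hit l a F (r + η) k A) x δ (p / 4) ∨ TT (Hit l a F (r + η) k A) (x + h) δ (p / 4) := by
  have hb : ∀ z, z + h ∈ closedBall (x + h) δ ↔ z ∈ closedBall x δ := fun z => by simp
  have f1 : volume (Hit l a F (r + η) k A ∩ closedBall x δ) ≠ ⊤ := fin_ball inter_subset_right
  have f2 : volume ((· + h) ⁻¹' (Hit l a F (r + η) k A ∩ closedBall (x + h) δ)) ≠ ⊤ :=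
    fin_ball fun z hz => (hb z).1 hz.2
  have key : ∀ S : Set ℝ, (∀ z ∈ S, z ∈ closedBall x δ ∧ (z ∉ X → z ∈ Hit l a F (r + η) k A ∨
      z + h ∈ Hit l a F (r + η) k A)) → p * δ ≤ volume.real S → _ := fun S hS hp => by
    have h3 := cover2 (A := S) (B := Hit l a F (r + η) k A ∩ closedBall x δ ∪
      (· + h) ⁻¹' (Hit l a F (r + η) k A ∩ closedBall (x + h) δ)) (C := X) (fun z hz => by
        by_cases e : z ∈ X
        · exact Or.inr e
        · exact Or.inl (((hS z hz).2 e).imp (fun e => ⟨e, (hS z hz).1⟩)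
            fun e => ⟨e, (hb z).2 (hS z hz).1⟩)) (measure_union_ne_top f1 f2) (fin_ball hX)
    have h4 := cover2 Subset.rfl f1 f2
    rw [real_shift] at h4
    show TT (Hit l a F (r + η) k A) x δ (p / 4) ∨ TT (Hit l a F (r + η) k A) (x + h) δ (p / 4)
    unfold TT
    by_contra hcon
    push Not at hcon
    linarith only [hv, hp, h3, h4, hcon.1, hcon.2]
  rcases h2 with h2 | h2
  · refine key ((· + h) ⁻¹' (_ ∩ _)) ?_ (le_trans h2 (real_shift _ h).ge)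
    rintro z ⟨⟨j, e1, e2, c, hc | ⟨c, hc, rfl⟩, e3⟩, hz⟩ <;> refine ⟨(hb z).1 hz, fun e => ?_⟩
    · exact Or.inr ⟨j, e1, e2, c, hc, by linarith only [hη, e3]⟩
    · have e5 := norm_sub_le (P l a j (z + h) - (c + u)) (P l a j (z + h) - P l a j z - u)
      rw [show P l a j (z + h) - (c + u) - (P l a j (z + h) - P l a j z - u) =
        P l a j z - c by ring] at e5
      exact Or.inl ⟨j, e1, e2, c, hc, by linarith only [e3, e5, h1 z ((hb z).1 hz) e j e1 e2]⟩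
  · refine key _ ?_ h2
    rintro z ⟨⟨j, e1, e2, c, hc | ⟨c, hc, rfl⟩, e3⟩, hz⟩ <;> refine ⟨hz, fun e => ?_⟩
    · exact Or.inl ⟨j, e1, e2, c, hc, by linarith only [hη, e3]⟩
    · have e5 := norm_add_le (P l a j z - (c + -u)) (P l a j (z + h) - P l a j z - u)
      rw [show P l a j z - (c + -u) + (P l a j (z + h) - P l a j z - u) =
        P l a j (z + h) - c by ring] at e5
      exact Or.inr ⟨j, e1, e2, c, hc, by linarith only [e3, e5, h1 z hz e j e1 e2]⟩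

lemma P_diff (n : ℕ) (h y : ℝ) :
    P l a n (y + h) - P l a n y = P l (fun j => a j * (ex (l j * h) - 1)) n y := by
  unfold P
  rw [← Finset.sum_sub_distrib]
  refine Finset.sum_congr rfl fun j _ => ?_
  rw [mul_add, ex_add]; ring

lemma P_Ico {i j : ℕ} (h : i ≤ j) (y : ℝ) :
    ‖P l a j y - P l a i y‖ ≤ ∑ t ∈ Finset.Ico i j, ‖a t‖ := by
  unfold P
  rw [← Finset.sum_Ico_eq_sub _ h]
  exact le_trans (norm_sum_le _ _) (le_of_eq (Finset.sum_congr rfl fun t _ => by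
    rw [norm_mul, ex_norm, mul_one]))

lemma halves {H G : Set ℝ} {y h ρ δ p q : ℝ} (hp : 0 < p) (hδ : 0 < δ)
    (hδρ : δ ≤ ρ) (hG : TT G y ρ q)
    (h1 : ∀ z ∈ G, |z - y| ≤ ρ → TT H z δ p ∨ TT H (z + h) δ p) :
    TT H y (2 * ρ) (p * q / 40) ∨ TT H (y + h) (2 * ρ) (p * q / 40) := by
  have h2 := cover2 (A := G ∩ closedBall y ρ) (B := {z ∈ closedBall y ρ | TT H z δ p})
    (C := (· + h) ⁻¹' {z ∈ closedBall (y + h) ρ | TT H z δ p})
    (fun z hz => (h1 z hz.1 hz.2).imp (fun e => ⟨hz.2, e⟩) fun e => ⟨by simpa only [mem_closedBall, dist_add_right] using hz.2, e⟩)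
    (fin_ball (sep_subset _ _))
    (by rw [measure_preimage_add_right]; exact fin_ball (sep_subset _ _))
  rw [real_shift] at h2
  have h3 : ∀ x, p / 10 * volume.real {z ∈ closedBall x ρ | TT H z δ p} ≤
      volume.real (H ∩ closedBall x (2 * ρ)) := fun x => by
    rw [two_mul]; exact Loc hp (sep_subset _ _) fun z hz => ⟨δ, hδ, hδρ, hz.2⟩
  have h4 := mul_le_mul_of_nonneg_left (le_trans hG h2) (show 0 ≤ p / 10 by positivity)
  unfold TT
  by_contra hcon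
  push Not at hcon
  linarith only [h4, hcon.1, hcon.2, h3 y, h3 (y + h)]

lemma diff_le (t : ℝ) (z : ℂ) : ‖z * (ex t - 1)‖ ≤ 2 * ‖z‖ := by
  rw [norm_mul, mul_comm]; gcongr
  exact le_trans (norm_sub_le _ _) (by rw [ex_norm]; norm_num)

lemma exc_small (hl : Lac K l) (ha1 : ∀ j, ‖a j‖ ≤ 1) {k k₀ N : ℕ} (hk : k ≤ k₀) (hN : k₀ ≤ N) :
    volume.real {h ∈ closedBall 0 (16 / l k) | En (fun j => a j * (ex (l j * h) - 1)) N -
      En (fun j => a j * (ex (l j * h) - 1)) k₀ ≤ En a N - En a k₀} ≤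
      Real.exp (-((En a N - En a k₀) / (16 * K))) * (34 / l k) := by
  have hK := hl.hK
  have hk0 := hl.pos k
  have h0 : 0 < 16 / l k := by positivity
  obtain ⟨n, rfl⟩ := Nat.exists_eq_add_of_le hN
  simp only [En_add, add_sub_cancel_left]
  set T := En (fun j => a (k₀ + j)) n with hT
  set γ : ℕ → ℂ := fun j => (‖a (k₀ + j)‖ ^ 2 / (4 * K) : ℝ) with hγ
  have hn : ∀ j, ‖γ j‖ = ‖a (k₀ + j)‖ ^ 2 / (4 * K) := fun j => by
    rw [hγ]; exact (Complex.norm_real _).trans (Real.norm_of_nonneg (by positivity))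
  have h2 : ∀ j, ‖a j‖ ^ 2 ≤ 1 := fun j => pow_le_one₀ (norm_nonneg _) (ha1 j)
  have h1 := ME (hl.shift k₀) (c := γ) (n := n) (fun j _ => by
    rw [hn]; gcongr
    · exact h2 _
    · norm_num) (show 0 - 16 / l k ≤ 0 + 16 / l k by linarith only [h0])
  refine le_trans (markov (f := fun h => Real.exp (-(T / (8 * K))) * Real.exp
    (P (fun j => l (k₀ + j)) γ n h).re) (by fun_prop)
    (show 0 - 16 / l k ≤ 0 + 16 / l k by linarith only [h0]) (fun _ _ => by positivity)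
    (by rw [← Real.closedBall_eq_Icc]; exact sep_subset _ _) fun h hh => ?_) ?_
  · rw [← Real.exp_add]
    refine Real.one_le_exp ?_
    have e : En (fun j => a (k₀ + j) * (ex (l (k₀ + j) * h) - 1)) n =
        2 * T - 8 * K * (P (fun j => l (k₀ + j)) γ n h).re := by
      rw [hT, P, Complex.re_sum, En, En, Finset.mul_sum, Finset.mul_sum, ← Finset.sum_sub_distrib]
      refine Finset.sum_congr rfl fun j _ => ?_
      rw [hγ, Complex.re_ofReal_mul, norm_mul, mul_pow, sub_eq_add_neg (ex _), norm_add_sq', ex_norm]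
      simp only [norm_neg, norm_one, map_neg, map_one, mul_neg, mul_one, Complex.neg_re]
      field_simp; ring
    have : T / (8 * K) ≤ (P (fun j => l (k₀ + j)) γ n h).re := by
      rw [div_le_iff₀ (by positivity)]; linarith only [e, hh.2]
    linarith only [this]
  · rw [intervalIntegral.integral_const_mul]
    have e1 : K * En γ n ≤ T / (16 * K) := by
      rw [hT, En, En, Finset.mul_sum, Finset.sum_div]
      refine Finset.sum_le_sum fun j _ => ?_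
      rw [hn]
      calc _ = ‖a (k₀ + j)‖ ^ 2 / (16 * K) * ‖a (k₀ + j)‖ ^ 2 := by field_simp; norm_num
        _ ≤ _ := mul_le_of_le_one_right (by positivity) (h2 _)
    have e2 : 2 / l (k₀ + 0) ≤ 2 / l k := by gcongr; exact hl.mono hk
    calc _ ≤ Real.exp (-(T / (8 * K))) * (Real.exp (T / (16 * K)) * (34 / l k)) := by
          gcongr
          have : 34 / l k = 2 * (16 / l k) + 2 / l k := by ring
          have := div_pos two_pos (hl.pos (k₀ + 0))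
          exact le_trans h1 (mul_le_mul (Real.exp_le_exp.2 e1) (by linarith) (by linarith only [h0, this])
            (Real.exp_pos _).le)
      _ = _ := by rw [← mul_assoc, ← Real.exp_add]; congr 2; ring

lemma pair (hl : Lac K l) (ha1 : ∀ j, ‖a j‖ ≤ 1) {d L q s η θ ε δ r p A A' R R' y h : ℝ}
    {k N b k₃ i : ℕ} {F : Set ℂ} {w : ℂ} (hi1 : k + K * L ≤ i) (hi2 : i ≤ N)
    (hT : TT {z | d ≤ ‖P l (fun j => a j * (ex (l j * h) - 1)) N z‖ ∧
      ‖P l (fun j => a j * (ex (l j * h) - 1)) N z‖ ≤ s ∧ ‖P l a N z - w‖ ≤ R'} y (L / l i) q)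
    (hW : ∀ v, d ≤ ‖v‖ → ‖v‖ ≤ s → W l a (F ∪ (· + v) '' F) r w R A p ∨
      W l a (F ∪ (· + -v) '' F) r w R A p)
    (hL : 8 ≤ L) (hp : 0 < p) (hη : 0 < η) (hb : 64 * K ^ 2 / η ≤ b) (hR : R' + b + s + η ≤ R)
    (h3 : N + b ≤ k₃) (h4 : En a (N + b) + A < En a k₃)
    (hθ : 0 < θ) (hsm : En (sm a θ) k₃ ≤ En (sm a θ) (N + b) + δ)
    (hδ : 1200000000 * K ^ 4 * (4 * δ) ^ 2 / (η / 4) ^ 4 ≤ p / 2)
    (hph : ∀ j, N ≤ j → j < k₃ → j < N + b ∨ θ < ‖a j‖ → ‖ex (l j * h) - 1‖ ≤ ε) (hε0 : 0 ≤ ε)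
    (hε1 : b * ε ≤ η / 4) (hε2 : ε / θ ^ 2 * A ≤ η / 4) (hk : k ≤ N)
    (hA : En a (N + b) + A ≤ En a k + A') :
    ∃ δ, 0 < δ ∧ δ ≤ 8 / l k ∧ (TT (Hit l a F (r + η) k A') y δ (p / 4 * q / 40) ∨
      TT (Hit l a F (r + η) k A') (y + h) δ (p / 4 * q / 40)) := by
  have hK := hl.hK
  set c : ℕ → ℂ := fun j => a j * (ex (l j * h) - 1) with hc
  have hc2 : ∀ j, ‖c j‖ ≤ 2 := fun j => le_trans (diff_le _ _) (by linarith only [ha1 j])
  have hi := hl.pos i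
  have hk2 := hl.pos (N + b)
  have hδ0 : 0 < 8 / l (N + b) := by positivity
  refine ⟨2 * (L / l i), by positivity, ?_, halves (by positivity) hδ0 ?_ hT fun z hz hzy => ?_⟩
  · rw [← mul_div_assoc]
    exact scale_le hl (by norm_num) (by linarith only [hL])
      (by linarith only [hi1, mul_pos (show 0 < K by linarith only [hK]) (show 0 < L by linarith only [hL])])
  · gcongr; exact hl.mono (by omega)
  obtain ⟨z1, z2, z3⟩ := hz
  have cl0 : ∀ x ∈ closedBall z (8 / l (N + b)), ‖P l c (N + b) x - P l c N z‖ ≤ η / 2 := by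
    intro x hx
    have e1 : ‖P l c (N + b) x - P l c N x‖ ≤ b * ε := by
      refine le_trans (P_Ico (Nat.le_add_right N b) x) (le_trans (Finset.sum_le_card_nsmul _ _ ε
        fun t ht => ?_) (by simp only [Nat.card_Ico, add_tsub_cancel_left, nsmul_eq_mul, Std.le_refl]))
      rw [Finset.mem_Ico] at ht
      rw [hc]; dsimp only; rw [norm_mul]
      exact le_trans (mul_le_of_le_one_left (norm_nonneg _) (ha1 t))
        (hph t ht.1 (by omega) (Or.inl ht.2))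
    have e2 := hl.lip' hc2 N.le_succ (le_trans (mem_closedBall.1 hx) (scale_le hl (k := N)
      (ρ' := η / (8 * K)) (by positivity) (by norm_num) (by
        push_cast; refine le_trans (le_of_eq ?_) (add_le_add_right hb _); field_simp; norm_num only [])))
    rw [show 2 * K * (η / (8 * K)) = η / 4 by field_simp; norm_num] at e2
    linarith only [hε1, e1, e2, norm_sub_le_norm_sub_add_norm_sub (P l c (N + b) x) (P l c N x) (P l c N z)]
  set cs : ℕ → ℂ := fun j => sm a θ j * (ex (l j * h) - 1) with hcs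
  have hX := maxb hl cs h3 (E := 4 * δ) (t := η / 4) (x := z) (ρ := 8 / l (N + b)) (by positivity)
    (by
      have := En_cmp (c := cs) (c' := sm a θ) (θ := 4) h3 fun t _ _ => by
        have : ‖cs t‖ ^ 2 ≤ (2 * ‖sm a θ t‖) ^ 2 := by gcongr; exact diff_le _ _
        linarith only [this]
      linarith only [hsm, this]) (by gcongr; norm_num)
  have pos1 : ‖P l a (N + b) z - w‖ ≤ R' + b := by
    have e1 := le_trans (P_Ico (l := l) (Nat.le_add_right N b) z)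
      (Finset.sum_le_card_nsmul _ _ 1 fun t _ => ha1 t)
    rw [Nat.card_Ico, Nat.add_sub_cancel_left, nsmul_one] at e1
    linarith only [z3, e1, norm_sub_le_norm_sub_add_norm_sub (P l a (N + b) z) (P l a N z) w]
  have pos2 : ‖P l a (N + b) (z + h) - w‖ ≤ R := by
    have e1 := cl0 z (mem_closedBall_self hδ0.le)
    have e2 := norm_sub_norm_le (P l c (N + b) z) (P l c N z)
    have e3 := norm_sub_le_norm_sub_add_norm_sub (P l a (N + b) (z + h)) (P l a (N + b) z) w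
    rw [P_diff] at e3
    linarith only [hη, hR, z2, pos1, e1, e2, e3]
  have hsub : Hit l a F (r + η) (N + b) A ⊆ Hit l a F (r + η) k A' := Hit.mono (by omega) hA
  refine Or.imp (fun e => TT.mono e hsub le_rfl hδ0.le) (fun e => TT.mono e hsub le_rfl hδ0.le)
    (two_pt (sep_subset _ _) (le_trans hX (by gcongr)) (fun x hx hx' j e1 e2 => ?_) hη.le
      ((hW _ z1 z2).imp (fun e => e _ _ pos2) fun e => e _ _
        (by linarith only [hη, hR, z2, pos1, norm_nonneg (P l c N z)])))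
  have e3 : j ≤ k₃ := by
    by_contra e
    linarith only [h4, e2, En_mono a (not_le.1 e).le]
  have e4 : ‖P l cs j x - P l cs (N + b) x‖ ≤ η / 4 := not_lt.1 fun e => hx' ⟨hx, j, e1, e3, e⟩
  have e5 := P_Ico (l := l) (a := fun t => 1 * c t + -1 * cs t) e1 x
  have e6 : ∑ t ∈ Finset.Ico (N + b) j, ‖1 * c t + -1 * cs t‖ ≤
      ε / θ ^ 2 * (En a j - En a (N + b)) := by
    rw [← En_Ico a e1, Finset.mul_sum]
    refine Finset.sum_le_sum fun t ht => ?_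
    rw [Finset.mem_Ico] at ht
    rw [hc, hcs]; dsimp only [sm]
    split_ifs with e
    · simp only [one_mul, neg_mul, add_neg_cancel, norm_zero]; positivity
    · rw [zero_mul, mul_zero, add_zero, one_mul, norm_mul]
      calc _ ≤ 1 * ε := by
            gcongr
            · exact ha1 t
            · exact hph t (by omega) (by omega) (Or.inr (not_le.1 e))
        _ = ε / θ ^ 2 * θ ^ 2 := by field_simp
        _ ≤ _ := by gcongr; exact (not_le.1 e).le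
  have e7 : ε / θ ^ 2 * (En a j - En a (N + b)) ≤ ε / θ ^ 2 * A := by gcongr; linarith only [e2]
  rw [P_lin, P_lin] at e5
  rw [P_diff, ← hc, show P l c j x - P l c N z = P l c (N + b) x - P l c N z +
    ((1 * P l c j x + -1 * P l cs j x - (1 * P l c (N + b) x + -1 * P l cs (N + b) x)) +
      (P l cs j x - P l cs (N + b) x)) by ring]
  refine le_trans (norm_add_le _ _) (le_trans (add_le_add (cl0 x hx) (norm_add_le _ _)) ?_)
  linarith only [hε2, e4, e5, e6, e7]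

end pair


section step

variable {K : ℝ} {l : ℕ → ℝ} {a : ℕ → ℂ}

/-- If `F` together with a medium translate of it is hit, then `F` is hit. -/
lemma step (hl : Lac K l) (hdv : Dv a) (ha1 : ∀ j, ‖a j‖ ≤ 1) {B R₁ p₀ s : ℝ} (hB : 1 ≤ B)
    (hR₁ : 0 ≤ R₁) (hp₀ : 0 < p₀) (hex : Real.exp (-(B / (16 * K))) ≤ p₀ / 160)
    (hs : St l a B R₁ p₀) (hs0 : 0 < s) (hs1 : 10 * s ≤ 1) :
    ∃ d, 0 < d ∧ ∀ (U V : Set ℂ → ℂ → Prop), (∀ F w v, U F w → d ≤ ‖v‖ → ‖v‖ ≤ 10 * s →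
      V (F ∪ (· + v) '' F) w ∨ V (F ∪ (· + -v) '' F) w) → ∀ r η A p,
      (∀ F w, U F w → ∃ c ∈ F, ‖w - c‖ ≤ r) → 0 < η → η ≤ 1 → 0 ≤ A → 0 < p →
      (∀ F w, V F w → W l a F r w R₁ A p) →
      ∃ A' p', 0 ≤ A' ∧ 0 < p' ∧ ∀ F w, U F w → W l a F (r + η) w R₁ A' p' := by
  have hK := hl.hK
  set R₂ := 2 * R₁ + 9 * K with hR₂
  have hR₂0 : 0 < R₂ := by positivity
  obtain ⟨d, L, R', hd, hL, hmed⟩ := medium R₂ hK hs0 hs1
  refine ⟨d, hd, fun U V hUV r η A p hU0 hη hη1 hA hp hV => ?_⟩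
  have T := fun c : ℝ => (tendsto_natCast_atTop_atTop (R := ℝ)).eventually_ge_atTop c
  obtain ⟨b₁, hb₁⟩ := exists_nat_ge (64 * K ^ 2 / η)
  obtain ⟨m₁, hm₁⟩ := exists_nat_ge (R' + b₁ + 2)
  obtain ⟨A₁, hA₁⟩ : ∃ A₁, A₁ = A + m₁ * (B + 1) := ⟨_, rfl⟩
  obtain ⟨p₁, hp₁⟩ : ∃ p₁, p₁ = p * (p₀ / 80) ^ m₁ := ⟨_, rfl⟩
  have hA0 : 0 ≤ A₁ := by rw [hA₁]; positivity
  have hp0 : 0 < p₁ := by rw [hp₁]; positivity
  obtain ⟨δ, hδ, hδ1⟩ : ∃ δ, 0 < δ ∧ 1200000000 * K ^ 4 * (4 * δ) ^ 2 / (η / 4) ^ 4 ≤ p₁ / 2 := by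
    refine ⟨√(p₁ / 2 * (η / 4) ^ 4 / (1200000000 * K ^ 4)) / 4, by positivity, le_of_eq ?_⟩
    rw [mul_div_cancel₀ _ four_ne_zero, Real.sq_sqrt (by positivity)]; field_simp
  obtain ⟨E₀, ρ, hE₀, hρ, hdir⟩ := direct hK hη
  obtain ⟨M, hM⟩ := exists_nat_ge ((A₁ + 2) / E₀)
  obtain ⟨η₀, pD, hη₀, hpD, hdir⟩ := hdir R₂ (δ / (2 * (M + 1))) hR₂0.le (by positivity)
  obtain ⟨θ, hθ, θ1, θ2⟩ : ∃ θ, 0 < θ ∧ θ ≤ η₀ ∧ θ ^ 2 ≤ δ / (2 * (M + 1)) :=
    ⟨min η₀ √(δ / (2 * (M + 1))), by positivity, min_le_left _ _,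
      (Real.le_sqrt (by positivity) (by positivity)).1 (min_le_right _ _)⟩
  obtain ⟨n₁, hn₁⟩ := exists_nat_ge ((A₁ + 2) / θ ^ 2)
  obtain ⟨C, c1, c2, c3, c4⟩ := ((T (8 * b₁ / η)).and ((T (8 * A₁ / θ ^ 2 / η)).and
    ((T (2 * R₂ / s)).and (eventually_gt_atTop 0)))).exists
  have hC0 : (0 : ℝ) < C := by exact_mod_cast c4
  obtain ⟨b₂, g1, g2⟩ := ((T (K * L)).and (T (K * (ρ / 8)))).exists
  obtain ⟨m₃, hm₃⟩ := exists_nat_ge (b₂ + b₁ + A₁ + 3)
  obtain ⟨m, hm⟩ := exists_pow_lt_of_lt_one (show 0 < 4 * (p₀ / 80) ^ (m₃ + 1) /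
    (((3 * C) ^ (2 * (b₁ + n₁ + 1)) : ℕ) * 34) by positivity) (show (1 / 2 : ℝ) < 1 by norm_num)
  obtain ⟨q, hq, hmed⟩ := hmed ((m + 1 : ℕ) * B + 1)
  set p₂ := min (p₁ / 4 * q / 40) pD with hp₂
  have hp2 : 0 < p₂ := by positivity
  set p₃ := (p₀ / 80) ^ (m + 1 + m₃ + 1) with hp₃
  refine ⟨(m + 1 + m₃ : ℕ) * B + (B + 1), p₂ * p₃ / 40 * (p₀ / 80), by positivity, by positivity,
    fun F w hU => up1 hs (R' := R₁) (by positivity) (fun k x hx => ?_) (by linarith only [hs0, hs1]) le_rfl⟩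
  have hk := hl.pos k
  refine ⟨_, by positivity, le_rfl, ?_⟩
  set H := Hit l a F (r + η) k ((m + 1 + m₃ : ℕ) * B)
  set E := {y | ∃ δ, 0 < δ ∧ δ ≤ 8 / l k ∧ TT H y δ p₂} with hE
  suffices h : TT E x (8 / l k) (p₃ - p₃ / 2) by
    unfold TT
    rw [show 16 / l k = 8 / l k + 8 / l k by ring]
    exact le_trans (le_of_eq (by ring)) (glue2 hp2 h fun y hy _ => hy)
  obtain ⟨n, e1, e2⟩ := hdv.cross ha1 (k + b₂) (t := (m + 1 : ℕ) * B) (by positivity)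
  set N := k + b₂ + n with hN
  obtain ⟨n₃, e3, e4⟩ := hdv.cross ha1 (N + b₁) (t := A₁ + 1) (by positivity)
  set k₃ := N + b₁ + n₃ with hk₃
  have e5 : En a k₃ ≤ En a k + (m + 1 + m₃ : ℕ) * B ∧
      En a (N + b₁) + A₁ ≤ En a k + (m + 1 + m₃ : ℕ) * B := by
    have := mul_le_mul_of_nonneg_left hB (Nat.cast_nonneg m₃)
    rw [Nat.cast_add (m + 1), add_mul]
    constructor <;> linarith only [hm₃, e2, e4, this, hs0, hs1, En_step ha1 k b₂, En_step ha1 N b₁]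
  have hconf := confine hl ha1 hp₀ hB hs w k₃ _ k x hx e5.1
  rcases le_total (En (sm a θ) (N + b₁) + δ) (En (sm a θ) k₃) with h | h
  · obtain ⟨t, t', t1, t2, t3, t4, t5⟩ := piece a hθ.le hE₀.le
      (show 0 < δ / (2 * (M + 1)) by positivity) k₃ M (N + b₁) (by omega)
      (by rw [div_le_iff₀ hE₀] at hM; linarith only [hE₀, hM, e4]) (le_trans (by
        have : (M + 1) * (δ / (2 * (M + 1))) = δ / 2 := by field_simp
        linarith only [this, mul_le_mul_of_nonneg_left θ2 (show (0 : ℝ) ≤ M + 1 by positivity)]) h)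
    have ht := hl.pos t
    obtain ⟨c, hc, hc'⟩ := hU0 F w hU
    refine hconf.mono (fun y hy => ⟨ρ / l t, by positivity, scale_le hl (by norm_num) hρ.le ?_,
      (hdir l a hl ha1 θ t t' w y hθ.le θ1 t2 t4 t5 (hy t (by omega) (by omega))).mono ?_
        (min_le_right _ _) (by positivity)⟩) (sub_le_self _ (by positivity)) (by positivity)
    · have : ((k + b₂ : ℕ) : ℝ) ≤ t := by exact_mod_cast (by omega)
      push_cast at this; linarith only [g2, this]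
    · exact fun z ⟨j, j1, j2, j3⟩ => ⟨j, by omega, by linarith only [En_mono a (j2.trans t3), e5.1], c, hc,
        by linarith only [hc', j3, norm_sub_le_norm_sub_add_norm_sub (P l a j z) w c]⟩
  set S := insert k₃ (Finset.Ico N (N + b₁) ∪ (Finset.Ico (N + b₁) k₃).filter fun t => θ < ‖a t‖)
    with hS
  have hcard : S.card ≤ b₁ + n₁ + 1 := by
    have f1 := le_trans (Finset.card_nsmul_le_sum ((Finset.Ico (N + b₁) k₃).filter fun t =>
      θ < ‖a t‖) (fun t => ‖a t‖ ^ 2) (θ ^ 2) fun t ht => by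
        gcongr; exact (Finset.mem_filter.1 ht).2.le) (Finset.sum_le_sum_of_subset_of_nonneg
          (Finset.filter_subset _ _) fun _ _ _ => sq_nonneg _)
    rw [En_Ico a (by omega), nsmul_eq_mul, ← le_div_iff₀ (by positivity)] at f1
    have f2 : ((Finset.Ico (N + b₁) k₃).filter fun t => θ < ‖a t‖).card ≤ n₁ := by
      exact_mod_cast le_trans f1 (le_trans (by gcongr; linarith only [e4]) hn₁)
    refine le_trans (Finset.card_insert_le _ _) (Nat.succ_le_succ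
      (le_trans (Finset.card_union_le _ _) ?_))
    rw [Nat.card_Ico]; omega
  set Bd := ({y | ∀ t, k ≤ t → t ≤ k₃ → ‖P l a t y - w‖ ≤ R₂} ∩ closedBall x (8 / l k)) \ E with hBd
  refine hconf.diff (N := Bd) (fun y hy => hy.1.2) ?_ fun y hy hy' e => by
    by_contra e'; exact e ⟨⟨hy, hy'⟩, e'⟩
  have hn : ‖(R₂ : ℂ)‖ = R₂ := (Complex.norm_real _).trans (Real.norm_of_nonneg hR₂0.le)
  have hB1 := colF (ψ := fun i y => if i < k₃ then ex (l i * y) else (P l a N y - w) / R₂) c4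
    {h ∈ closedBall 0 (16 / l k) | En (fun j => a j * (ex (l j * h) - 1)) N -
      En (fun j => a j * (ex (l j * h) - 1)) (k + b₂) ≤ En a N - En a (k + b₂)} S Bd
    (fun i _ y hy => by
      split_ifs
      · exact (ex_norm _).le
      · rw [norm_div, hn, div_le_one hR₂0]; exact hy.1.1 N (by omega) (by omega))
    (fun y hy y' hy' hc => by
      refine ⟨?_, ?_⟩
      · have f1 : |y - x| ≤ 8 / l k := hy.1.2
        have f2 : |y' - x| ≤ 8 / l k := hy'.1.2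
        have f3 := abs_sub_le y' x y
        rw [abs_sub_comm x] at f3
        rw [mem_closedBall, Real.dist_eq, sub_zero, show 16 / l k = 8 / l k + 8 / l k by ring]
        linarith only [f1, f2, f3]
      by_contra hcon
      obtain ⟨i, i1, i2, hT⟩ := hmed l a _ hl ha1 (fun j => diff_le _ _) (k + b₂) N y w (by omega)
        (by linarith only [e2]) (by
          have := mul_le_mul (show (1 : ℝ) ≤ (m + 1 : ℕ) by exact_mod_cast Nat.le_add_left 1 m) hB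
            zero_le_one (by positivity)
          linarith only [e1, this]) (not_le.1 hcon) (by
          have f1 := hc k₃ (Finset.mem_insert_self _ _)
          simp only [lt_irrefl, if_false] at f1
          rw [← sub_div, sub_sub_sub_cancel_right, norm_div, hn, div_le_iff₀ hR₂0] at f1
          rw [← P_diff, add_sub_cancel]
          rw [div_le_iff₀ hs0] at c3
          refine le_trans f1 ?_
          rw [div_mul_eq_mul_div, div_le_iff₀ hC0]; linarith only [c3])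
        fun t t1 t2 => hy.1.1 t (by omega) (by omega)
      obtain ⟨δ', f1, f2, f3⟩ := pair (ε := 2 / C) (F := F) (r := r) (R := R₁ + m₁) (A := A₁)
        (p := p₁) (k₃ := k₃) hl ha1 (le_trans (by push_cast; linarith only [g1]) (Nat.cast_le.2 i1)) i2 hT
        (fun v f1 f2 => by
          rw [hA₁, hp₁]
          exact (hUV F w v hU f1 f2).imp (fun e => upgrade hl hp₀ hs hp (hV _ _ e) _)
            fun e => upgrade hl hp₀ hs hp (hV _ _ e) _)
        hL hp0 hη hb₁ (by linarith only [hR₁, hs1, hη1, hm₁]) (by omega) (by linarith only [hs0, hs1, e3]) hθ h hδ1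
        (fun j j1 j2 j3 => by
          have f1 := hc j (Finset.mem_insert_of_mem (by
            simp only [Finset.mem_union, Finset.mem_filter, Finset.mem_Ico]
            by_cases e : j < N + b₁
            · exact Or.inl ⟨j1, e⟩
            · exact Or.inr ⟨⟨by omega, j2⟩, j3.resolve_left e⟩))
          simp only [j2, if_true] at f1
          have f2 : ∀ t, ex (t * y') - ex (t * y) = (ex (t * (y' - y)) - 1) * ex (t * y) :=
            fun t => by rw [sub_mul, ← ex_add, one_mul]; congr 2; ring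
          rwa [f2, norm_mul, ex_norm, mul_one] at f1) (by positivity)
        (by rw [div_le_iff₀ hη] at c1; rw [← mul_div_assoc, div_le_iff₀ hC0]; linarith only [c1])
        (by
          rw [div_le_iff₀ hη] at c2
          rw [show 2 / C / θ ^ 2 * A₁ = 8 * A₁ / θ ^ 2 / 4 / C by ring, div_le_iff₀ hC0]; linarith only [c2])
        (by omega) e5.2
      rw [add_sub_cancel] at f3
      exact f3.elim (fun e => hy.2 ⟨δ', f1, f2, e.mono Subset.rfl (min_le_left _ _) f1.le⟩)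
        fun e => hy'.2 ⟨δ', f1, f2, e.mono Subset.rfl (min_le_left _ _) f1.le⟩)
  have hB2 := ENNReal.toReal_mono (ENNReal.mul_ne_top (ENNReal.natCast_ne_top _)
    (fin_ball (sep_subset _ _))) hB1
  rw [ENNReal.toReal_mul, ENNReal.toReal_natCast] at hB2
  have f1 : Real.exp (-((En a N - En a (k + b₂)) / (16 * K))) ≤ (p₀ / 80 * (1 / 2)) ^ (m + 1) := by
    calc _ ≤ Real.exp ((m + 1 : ℕ) * -(B / (16 * K))) := by
          rw [mul_neg, ← mul_div_assoc]; gcongr; linarith only [e1]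
      _ ≤ _ := by rw [Real.exp_nat_mul]; gcongr; linarith only [hex]
  have f2 : (((3 * C) ^ (2 * S.card) : ℕ) : ℝ) ≤ ((3 * C) ^ (2 * (b₁ + n₁ + 1)) : ℕ) :=
    Nat.cast_le.2 (Nat.pow_le_pow_right (by omega) (by omega))
  rw [lt_div_iff₀ (by positivity)] at hm
  calc _ ≤ _ := hB2
    _ ≤ ((3 * C) ^ (2 * (b₁ + n₁ + 1)) : ℕ) * ((p₀ / 80 * (1 / 2)) ^ (m + 1) * (34 / l k)) := by
        gcongr; exact le_trans (exc_small hl ha1 (by omega) (by omega)) (by gcongr)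
    _ = (1 / 2) ^ m * (((3 * C) ^ (2 * (b₁ + n₁ + 1)) : ℕ) * 34) *
        ((p₀ / 80) ^ (m + 1) / 2 / l k) := by rw [mul_pow (p₀ / 80)]; ring
    _ ≤ 4 * (p₀ / 80) ^ (m₃ + 1) * ((p₀ / 80) ^ (m + 1) / l k) := by
        gcongr; exact half_le_self (by positivity)
    _ = _ := by rw [hp₃]; ring

/-- From a bounded distance every disc is hit with positive probability. -/
lemma hit_ball (hl : Lac K l) (hdv : Dv a) (ha1 : ∀ j, ‖a j‖ ≤ 1) {r : ℝ}
    (hr : 0 < r) (R : ℝ) : ∃ n p, 0 < p ∧ ∀ w, W l a {w} r w R n p := by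
  obtain ⟨B, R₁, p₀, hp₀, hp₁, hB, hR₁, hex, hs⟩ := steer hl hdv ha1
  obtain ⟨L, n₀, hn₀, hL⟩ := cross hl ha1 hB hp₀ hp₁ hR₁ hs
  obtain ⟨s, hs0, hs1, hs2⟩ : ∃ s : ℝ, 0 < s ∧ 10 * s ≤ 1 ∧ 2 * (10 * s) < r :=
    ⟨min (1 / 10) (r / 40), by positivity, by linarith only [min_le_left (1 / 10) (r / 40)],
      by linarith only [hr, min_le_right (1 / 10) (r / 40)]⟩
  obtain ⟨d, hd, hstep⟩ := step hl hdv ha1 hB hR₁ hp₀ hex hs hs0 hs1
  have Q : ∀ m : ℕ, ∀ r, 2 * (10 * s) < r → ∃ n p, 0 ≤ n ∧ 0 < p ∧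
      ∀ F w, Fam (10 * s) (d / 2) (4 * L) m F w → W l a F r w R₁ n p := by
    intro m
    induction m with
    | zero =>
      intro r hr
      obtain ⟨p, hp, h⟩ := hL (10 * s) (by positivity) hs1
      refine ⟨n₀, p, hn₀, hp, fun F w ⟨x, y, ⟨f, β, e1, e2, e3, e4, e5⟩,
        ⟨f', β', e6, e7, e8, e9, e10⟩, h3⟩ => ?_⟩
      simp only [Nat.cast_zero, zero_mul, add_zero] at h3
      rcases le_total x y with e | e
      · exact h Complex.I F w r (by simp) hr.le ⟨f', β', e6, e7, e8, by linarith only [e9, h3, e], e10⟩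
      · exact h 1 F w r (by simp) hr.le ⟨f, β, e1, e2, e3, by linarith only [e4, h3, e], e5⟩
    | succ m ih =>
      intro r hr
      set η := min 1 ((r - 2 * (10 * s)) / 2) with hη
      have h1 : η ≤ (r - 2 * (10 * s)) / 2 := min_le_right _ _
      obtain ⟨n, p, hn, hp, h⟩ := ih (r - η) (by linarith only [hr, h1])
      have := hstep _ _ (fun F w v hF e1 e2 => Fam.step (m := m) (L := 4 * L) (d := d / 2) hF
        (by positivity) (by linarith only [e1]) e2) (r - η) η n p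
        (fun F w ⟨_, _, ⟨f, β, _, e2, e3, _, e5, _⟩, _⟩ => by
          obtain ⟨c, hc, e⟩ := e5 0 ⟨le_rfl, e3⟩
          simp only [e2, Complex.ofReal_zero, zero_mul, add_zero, mul_zero] at e
          exact ⟨c, hc, by linarith only [hs0, hr, h1, e]⟩) (lt_min one_pos (by linarith only [hr])) (min_le_left _ _) hn hp h
      rwa [sub_add_cancel] at this
  obtain ⟨m, hm⟩ := exists_nat_ge (4 * L / (d / 2))
  obtain ⟨n, p, -, hp, h⟩ := Q m r hs2
  obtain ⟨m', hm'⟩ := exists_nat_ge (R - R₁)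
  have wall : ∀ u w, Wall (10 * s) u {w} w 0 := fun u w =>
    ⟨fun _ => 0, 0, by simp, rfl, le_rfl, le_rfl, fun t ht => ⟨w, rfl, by
      rw [le_antisymm ht.2 ht.1]; simp [hs0.le]⟩, by simp⟩
  refine ⟨_, _, ?_, fun w => (upgrade hl hp₀ hs hp (h {w} w ⟨0, 0, wall _ _, wall _ _, ?_⟩)
    m').move (by rw [sub_self, norm_zero]; linarith only [hm'])⟩
  · positivity
  · rw [div_le_iff₀ (by positivity)] at hm; linarith only [hm]

theorem dense_norm (hl : Lac K l) (hd : Dv a) (ha1 : ∀ j, ‖a j‖ ≤ 1) :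
    ∀ᵐ x : ℝ, ∀ ξ : ℂ, ∀ ε : ℝ, 0 < ε → ∃ᶠ m in atTop, ‖P l a m x - ξ‖ < ε := by
  have hK := hl.hK
  obtain ⟨R₀, hR₀⟩ := recur hl hd ha1
  have one : ∀ (ξ : ℂ) (ε : ℝ), 0 < ε → ∀ M, ∀ᵐ x : ℝ, ∃ m ≥ M, ‖P l a m x - ξ‖ < ε := by
    intro ξ ε hε M
    obtain ⟨n, p, hp, h⟩ := hit_ball hl hd ha1 hε (R₀ + ‖ξ‖)
    set H := ⋃ m ≥ M, {x | ‖P l a m x - ξ‖ < ε} with hH
    have hHo : IsOpen H := isOpen_biUnion fun m _ => isOpen_lt (by fun_prop) continuous_const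
    have h1 := porous (B := Hᶜ \ ⋃ k, {y | ∀ j ≥ k, R₀ < ‖P l a j y‖}) hp hHo.measurableSet
      (disjoint_compl_right.mono_right sdiff_subset) fun x hx η hη => by
        obtain ⟨k, hk⟩ := exists_nat_ge (8 * K / (η * l 0))
        have h2 := hx.2
        simp only [mem_iUnion, mem_ofPred_eq, not_exists, not_forall, not_lt] at h2
        obtain ⟨j, hj, hj'⟩ := h2 (max k M)
        have h0 := hl.pos 0
        have hlj := hl.pos j
        refine ⟨8 / l j, by positivity, ?_, (h ξ j x (le_trans (norm_sub_le _ _)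
          (by linarith only [hj']))).mono ?_ le_rfl (by positivity)⟩
        · have e1 := hl.grow 0 j
          have e2 : (k : ℝ) ≤ j := by exact_mod_cast le_trans (le_max_left _ _) hj
          have e3 : 8 ≤ j / K * l 0 * η := by
            rw [div_le_iff₀ (by positivity)] at hk
            calc (8 : ℝ) = 8 * K / K := by field_simp
              _ ≤ j * (η * l 0) / K :=
                  div_le_div_of_nonneg_right (le_trans hk (by gcongr)) (by linarith only [hK])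
              _ = _ := by ring
          rw [zero_add] at e1
          rw [div_lt_iff₀ hlj]
          linarith only [e3, mul_le_mul_of_nonneg_right e1 hη.le, mul_pos h0 hη]
        · rintro y ⟨i, e1, _, c, rfl, e3⟩
          exact mem_biUnion (show i ≥ M by omega) e3
    have h2 := measure_union_null h1 (measure_iUnion_null hR₀)
    rw [ae_iff]
    refine measure_mono_null (fun x hx => ?_) h2
    rw [sdiff_union_self]
    exact Or.inl fun e => by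
      simp only [hH, mem_iUnion] at e
      obtain ⟨m, e1, e2⟩ := e
      exact hx ⟨m, e1, e2⟩
  obtain ⟨D, hDc, hD⟩ := TopologicalSpace.exists_countable_dense ℂ
  have all : ∀ᵐ x : ℝ, ∀ ξ ∈ D, ∀ i M : ℕ, ∃ m ≥ M, ‖P l a m x - ξ‖ < 1 / ((i : ℝ) + 1) := by
    rw [ae_ball_iff hDc]
    exact fun ξ _ => ae_all_iff.2 fun i => ae_all_iff.2 fun M => one ξ _ (by positivity) M
  filter_upwards [all] with x hx ξ ε hε
  rw [frequently_atTop]
  intro M
  obtain ⟨i, hi⟩ := exists_nat_one_div_lt (half_pos hε)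
  obtain ⟨ξ', h1, h2⟩ := hD.exists_dist_lt ξ (half_pos hε)
  obtain ⟨m, e1, e2⟩ := hx ξ' h1 i M
  rw [dist_comm, dist_eq_norm] at h2
  exact ⟨m, e1, by linarith only [hi, h2, e2, norm_sub_le_norm_sub_add_norm_sub (P l a m x) ξ' ξ]⟩

end step

/-- Planar recurrence for every Hadamard gap sequence and all bounded coefficients that are not
square summable. -/
theorem planar {q β : ℝ} {l : ℕ → ℝ} {a : ℕ → ℂ} (hq : 1 < q) (h0 : 0 < l 0)
    (hl : ∀ k, q * l k ≤ l (k + 1)) (hb : ∀ k, ‖a k‖ ≤ β) (hs : ¬Summable fun k => ‖a k‖ ^ 2) :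
    ∀ᵐ x : ℝ, ∀ ξ : ℂ, ∀ ε : ℝ, 0 < ε → ∃ᶠ m in atTop, ‖P l a m x - ξ‖ < ε := by
  have hβ : 0 < β := lt_of_le_of_ne (le_trans (norm_nonneg _) (hb 0)) fun e => hs (by
    have : ∀ k, ‖a k‖ = 0 := fun k => le_antisymm (e ▸ hb k) (norm_nonneg _)
    simp [this])
  have hq1 : 0 < q - 1 := by linarith only [hq]
  have hpos : ∀ k, 0 < l k := fun k => by
    induction k with
    | zero => exact h0
    | succ k ih => exact lt_of_lt_of_le (by positivity) (hl k)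
  have hL : Lac (q / (q - 1)) l := ⟨by rw [lt_div_iff₀ hq1]; linarith only [], hpos, fun k => by
    calc _ = q * l k / (q - 1) := by ring
      _ ≤ l (k + 1) / (q - 1) := by gcongr; exact hl k
      _ = _ := by field_simp; ring⟩
  have hn : ∀ z : ℂ, ‖(β⁻¹ : ℝ) * z‖ = ‖z‖ / β := fun z => by
    rw [norm_mul, Complex.norm_real, Real.norm_of_nonneg (by positivity), div_eq_inv_mul]
  filter_upwards [dense_norm hL (a := fun j => (β⁻¹ : ℝ) * a j) (fun t => by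
      by_contra h
      push Not at h
      refine hs (summable_of_sum_range_le (c := t * β ^ 2) (fun _ => sq_nonneg _) fun n => ?_)
      have := (h n).le
      simp only [En, hn, div_pow, ← Finset.sum_div] at this
      exact (div_le_iff₀ (by positivity)).1 this)
    (fun j => by rw [hn, div_le_one hβ]; exact hb j)] with x hx ξ ε hε
  refine (hx ((β⁻¹ : ℝ) * ξ) (ε / β) (by positivity)).mono fun m hm => ?_
  rwa [P_smul, ← mul_sub, hn, div_lt_div_iff_of_pos_right hβ] at hm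

end Pool.Agent.MP_5053af_an.H21

end
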