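import Mathlib

attribute [-instance] IdemSemiring.toCanonicallyOrderedAdd IdemSemiring.toMulLeftMono
  AddQuantale.instAddLeftMono Quantale.instMulLeftMono IsOrderedCancelMonoid.toIsOrderedMonoid
  NumberField.to_charZero LinearOrderedCommMonoidWithZero.toPosMulStrictMono
  AddQuantale.instAddRightMono CanonicallyOrderedAdd.toMulLeftMono
  LinearOrderedCommMonoidWithZero.toIsOrderedMonoid RKHS.instFunLike Quantale.instMulRightMono
  IdemSemiring.toMulRightMono NonarchimedeanRing.toIsTopologicalRing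
  Group.IsPerfect.subsingleton_of_isMulCommutative CanonicallyOrderedMul.toMulLeftMono
  instCoeHTCTOfCoeTailOfCoeHTC ProperSMul.toContinuousSMul continuousSub_of_discreteTopology
  instCoeOTCOfCoeOut instCoeHTCOfCoeHeadOfCoeOTC IsTopologicalTorsor.toContinuousSMul
  Valued.isTopologicalDivisionRing LieAdmissibleAlgebra.toModule Valued.toUniformSpace
  MonTypeEquivalenceMon.monMonoid instCoeTOfCoeDep instCoeTCOfCoe IsOrderedAddMonoid.toAddRightMono
  IsOrderedMonoid.toMulRightMono RightPreLieAlgebra.toModule Unique.instSubsingleton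
  LeftPreLieAlgebra.toModule LieAdmissibleRing.toNonUnitalNonAssocRing
  LinearOrderedCommMonoidWithZero.toIsBotZeroClass littleWedderburn CommRing.toRing
  TotallySeparatedSpace.t2Space CanonicallyOrderedAdd.toMulRightMono
  NonarchimedeanAddGroup.toIsTopologicalAddGroup DivisionRing.toRing
  continuousSub_of_indiscreteTopology

-- part MP_5053af_an.H21.Mom
section

/-! Moments, covering lemmas and coarse recurrence for lacunary exponential sums
(after helper9's file for coefficients bounded below; here time is measured by energy). -/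

set_option autoImplicit false

open MeasureTheory Set Filter Topology intervalIntegral Metric

namespace Pool.Agent.MP_5053af_an.H21

/-- The unimodular number `exp (i t)`. -/
noncomputable def ex (t : ℝ) : ℂ := Complex.exp (t * Complex.I)

/-- Exponential sums with frequencies `l` and coefficients `c`. -/
noncomputable def P (l : ℕ → ℝ) (c : ℕ → ℂ) (n : ℕ) (y : ℝ) : ℂ :=
  ∑ j ∈ Finset.range n, c j * ex (l j * y)

/-- Energy of the first `n` coefficients. -/
noncomputable def En (c : ℕ → ℂ) (n : ℕ) : ℝ := ∑ j ∈ Finset.range n, ‖c j‖ ^ 2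

/-- Hadamard gap condition with ratio `K / (K - 1)`. -/
structure Lac (K : ℝ) (l : ℕ → ℝ) : Prop where
  hK : 1 < K
  pos : ∀ k, 0 < l k
  gap : ∀ k, K * l k ≤ (K - 1) * l (k + 1)

lemma ex_norm (t : ℝ) : ‖ex t‖ = 1 := Complex.norm_exp_ofReal_mul_I t

lemma ex_add (s t : ℝ) : ex (s + t) = ex s * ex t := by
  unfold ex; rw [← Complex.exp_add]; congr 1; push_cast; ring

lemma ex_zero : ex 0 = 1 := by simp [ex]

lemma ex_conj (t : ℝ) : (starRingEnd ℂ) (ex t) = ex (-t) := by
  unfold ex; rw [← Complex.exp_conj]; congr 1; simp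

@[fun_prop] lemma ex_cont : Continuous ex := by unfold ex; fun_prop

lemma ex_sub_one (t : ℝ) : ‖ex t - 1‖ ≤ |t| := by
  have := Real.norm_exp_I_mul_ofReal_sub_one_le (x := t)
  unfold ex; rwa [mul_comm]

lemma ex_lip (s t : ℝ) : ‖ex s - ex t‖ ≤ |s - t| := by
  have : ex s - ex t = (ex (s - t) - 1) * ex t := by
    rw [sub_mul, ← ex_add]; simp
  rw [this, norm_mul, ex_norm, mul_one]; exact ex_sub_one _

lemma ex_deriv (w y : ℝ) :
    HasDerivAt (fun y : ℝ => ex (w * y)) (w * Complex.I * ex (w * y)) y := by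
  have h1 : HasDerivAt (fun y : ℝ => ((w * y : ℝ) : ℂ) * Complex.I) (w * Complex.I) y := by
    have := ((hasDerivAt_id y).const_mul w).ofReal_comp.mul_const Complex.I
    simpa using this
  have := h1.cexp
  unfold ex
  rwa [mul_comm] at this

lemma int_ex {w : ℝ} (hw : w ≠ 0) (u v : ℝ) : ‖∫ y in u..v, ex (w * y)‖ ≤ 2 / |w| := by
  have hw' : (w : ℂ) * Complex.I ≠ 0 := mul_ne_zero (by exact_mod_cast hw) Complex.I_ne_zero
  have h : ∀ y ∈ uIcc u v, HasDerivAt (fun y : ℝ => ex (w * y) / (w * Complex.I)) (ex (w * y)) y := by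
    intro y _
    have := (ex_deriv w y).div_const (w * Complex.I)
    rwa [mul_div_cancel_left₀ _ hw'] at this
  rw [integral_eq_sub_of_hasDerivAt h (by apply Continuous.intervalIntegrable; fun_prop),
    ← sub_div, norm_div]
  have h2 : ‖(w : ℂ) * Complex.I‖ = |w| := by simp
  rw [h2]
  gcongr
  refine le_trans (norm_sub_le _ _) ?_
  rw [ex_norm, ex_norm]; norm_num

@[fun_prop] lemma P_cont (l : ℕ → ℝ) (c : ℕ → ℂ) (n : ℕ) : Continuous (P l c n) := by
  unfold P; fun_prop

lemma P_succ (l : ℕ → ℝ) (c : ℕ → ℂ) (n : ℕ) (y : ℝ) :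
    P l c (n + 1) y = P l c n y + c n * ex (l n * y) := by
  simp [P, Finset.sum_range_succ]

lemma P_add (l : ℕ → ℝ) (c : ℕ → ℂ) (k n : ℕ) (y : ℝ) :
    P l c (k + n) y = P l c k y + P (fun j => l (k + j)) (fun j => c (k + j)) n y := by
  unfold P; rw [Finset.sum_range_add]

lemma P_smul (l : ℕ → ℝ) (c : ℕ → ℂ) (u : ℂ) (n : ℕ) (y : ℝ) :
    P l (fun j => u * c j) n y = u * P l c n y := by
  unfold P; rw [Finset.mul_sum]; simp only [mul_assoc]

lemma P_deriv (l : ℕ → ℝ) (c : ℕ → ℂ) (n : ℕ) (y : ℝ) :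
    HasDerivAt (P l c n) (P l (fun j => c j * (l j * Complex.I)) n y) y := by
  unfold P
  apply HasDerivAt.fun_sum
  intro j _
  have := (ex_deriv (l j) y).const_mul (c j)
  rwa [← mul_assoc] at this

lemma P_norm_le (l : ℕ → ℝ) (c : ℕ → ℂ) (n : ℕ) (y : ℝ) :
    ‖P l c n y‖ ≤ ∑ j ∈ Finset.range n, ‖c j‖ := by
  unfold P
  refine le_trans (norm_sum_le _ _) (le_of_eq (Finset.sum_congr rfl fun j _ => ?_))
  rw [norm_mul, ex_norm, mul_one]

lemma P_norm_le' (l : ℕ → ℝ) {c : ℕ → ℂ} {β : ℝ} {n : ℕ} (hc : ∀ j < n, ‖c j‖ ≤ β) (y : ℝ) :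
    ‖P l c n y‖ ≤ n * β := by
  refine le_trans (P_norm_le l c n y) ?_
  calc ∑ j ∈ Finset.range n, ‖c j‖ ≤ ∑ _j ∈ Finset.range n, β :=
        Finset.sum_le_sum fun j hj => hc j (Finset.mem_range.1 hj)
    _ = n * β := by simp

lemma En_succ (c : ℕ → ℂ) (n : ℕ) : En c (n + 1) = En c n + ‖c n‖ ^ 2 := by
  simp [En, Finset.sum_range_succ]

lemma En_nonneg (c : ℕ → ℂ) (n : ℕ) : 0 ≤ En c n := by unfold En; positivity

lemma En_le {c : ℕ → ℂ} {β : ℝ} {n : ℕ} (hc : ∀ j < n, ‖c j‖ ≤ β) : En c n ≤ n * β ^ 2 := by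
  calc En c n ≤ ∑ _j ∈ Finset.range n, β ^ 2 :=
        Finset.sum_le_sum fun j hj => by have := hc j (Finset.mem_range.1 hj); gcongr
    _ = n * β ^ 2 := by simp

lemma sq_le_En (c : ℕ → ℂ) {j n : ℕ} (hj : j < n) : ‖c j‖ ^ 2 ≤ En c n :=
  Finset.single_le_sum (f := fun j => ‖c j‖ ^ 2) (fun _ _ => by positivity) (Finset.mem_range.2 hj)

lemma En_add (c : ℕ → ℂ) (k n : ℕ) : En c (k + n) = En c k + En (fun j => c (k + j)) n := by
  unfold En; rw [Finset.sum_range_add]

lemma En_mono (c : ℕ → ℂ) {i j : ℕ} (h : i ≤ j) : En c i ≤ En c j := by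
  obtain ⟨n, rfl⟩ := Nat.exists_eq_add_of_le h
  rw [En_add]; linarith only [En_nonneg (fun j => c (i + j)) n]

lemma En_step {c : ℕ → ℂ} (hc : ∀ j, ‖c j‖ ≤ 1) (k n : ℕ) : En c (k + n) ≤ En c k + n := by
  have := En_le (c := fun j => c (k + j)) (n := n) fun j _ => hc _
  rw [En_add]; linarith only [this]

/-- The energy diverges. -/
def Dv (a : ℕ → ℂ) : Prop := ∀ t : ℝ, ∃ n, t ≤ En a n

lemma exists_cross {a : ℕ → ℂ} (ha1 : ∀ j, ‖a j‖ ≤ 1) {k N : ℕ} {t : ℝ} (ht : 0 ≤ t)
    (hN : En a k + t ≤ En a (k + N)) :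
    ∃ n ≤ N, En a k + t ≤ En a (k + n) ∧ En a (k + n) ≤ En a k + t + 1 := by
  induction N with
  | zero => exact ⟨0, le_rfl, hN, by rw [add_zero]; linarith only [ht]⟩
  | succ N ih =>
    rcases le_total (En a k + t) (En a (k + N)) with h | h
    · obtain ⟨n, h1, h2⟩ := ih h
      exact ⟨n, by omega, h2⟩
    · have := En_step ha1 (k + N) 1
      rw [add_assoc] at this
      exact ⟨N + 1, le_rfl, hN, by push_cast at this; linarith only [h, this]⟩

lemma Dv.cross {a : ℕ → ℂ} (hd : Dv a) (ha1 : ∀ j, ‖a j‖ ≤ 1) (k : ℕ) {t : ℝ} (ht : 0 ≤ t) :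
    ∃ n, En a k + t ≤ En a (k + n) ∧ En a (k + n) ≤ En a k + t + 1 := by
  obtain ⟨N, hN⟩ := hd (En a k + t)
  obtain ⟨n, _, h⟩ := exists_cross ha1 ht (le_trans hN (En_mono a (Nat.le_add_left N k)))
  exact ⟨n, h⟩

namespace Lac

variable {K : ℝ} {l : ℕ → ℝ}

lemma shift (h : Lac K l) (k : ℕ) : Lac K (fun j => l (k + j)) :=
  ⟨h.hK, fun _ => h.pos _, fun j => h.gap (k + j)⟩

lemma grow (h : Lac K l) (k b : ℕ) : (1 + b / K) * l k ≤ l (k + b) := by
  have hK := h.hK
  have hk := h.pos k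
  induction b with
  | zero => simp
  | succ b ih =>
    have h1 := h.gap (k + b)
    have h2 := h.pos (k + b + 1)
    have h3 : (0 : ℝ) ≤ b / K * l k := by positivity
    have h4 : l k ≤ l (k + b + 1) := by nlinarith only [hK, ih, h1, h2, h3]
    have e : (1 + ((b + 1 : ℕ) : ℝ) / K) * l k = (1 + b / K) * l k + l k / K := by
      push_cast; ring
    have h5 : l k / K ≤ l (k + b + 1) - l (k + b) := by
      rw [div_le_iff₀ (by linarith only [hK])]; linarith only [h1, h4]
    rw [e, ← add_assoc]; linarith only [ih, h5]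

lemma mono (h : Lac K l) {i j : ℕ} (hij : i ≤ j) : l i ≤ l j := by
  obtain ⟨b, rfl⟩ := Nat.exists_eq_add_of_le hij
  have := h.grow i b
  have hK := h.hK
  have hk := h.pos i
  have h3 : (0 : ℝ) ≤ b / K * l i := by positivity
  linarith only [this, h3]

lemma lt (h : Lac K l) {i j : ℕ} (hij : i < j) : K * l i ≤ (K - 1) * l j := by
  have h1 := h.gap i
  have h2 := h.mono (show i + 1 ≤ j from hij)
  have hK := h.hK
  nlinarith only [h1, h2, hK]

lemma sum_le (h : Lac K l) (k : ℕ) : ∑ j ∈ Finset.range (k + 1), l j ≤ K * l k := by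
  have hK := h.hK
  induction k with
  | zero => have := h.pos 0; simp only [zero_add, Finset.range_one, Finset.sum_singleton, ge_iff_le]; nlinarith only [hK, this]
  | succ k ih => rw [Finset.sum_range_succ]; have := h.gap k; linarith only [ih, this]

lemma sum_le' (h : Lac K l) {n k : ℕ} (hn : n ≤ k + 1) :
    ∑ j ∈ Finset.range n, l j ≤ K * l k :=
  le_trans (Finset.sum_le_sum_of_subset_of_nonneg (Finset.range_mono hn)
    fun j _ _ => (h.pos j).le) (h.sum_le k)

lemma inv_gap (h : Lac K l) (n : ℕ) : K / l (n + 1) ≤ (K - 1) / l n := by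
  rw [div_le_div_iff₀ (h.pos _) (h.pos _)]; exact h.gap n

lemma sum_inv (h : Lac K l) (n : ℕ) : ∑ j ∈ Finset.range n, 1 / l j ≤ K / l 0 := by
  have hK := h.hK
  have : ∑ j ∈ Finset.range n, 1 / l j + K / l n ≤ K / l 0 := by
    induction n with
    | zero => simp
    | succ n ih =>
      rw [Finset.sum_range_succ]
      have h1 := h.inv_gap n
      rw [sub_div] at h1
      linarith only [ih, h1]
  have h2 : 0 ≤ K / l n := by have := h.pos n; positivity
  linarith only [this, h2]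

lemma sum_inv2 (h : Lac K l) (n : ℕ) :
    ∑ j ∈ Finset.range n, ((j : ℝ) + 1) / l j ≤ K ^ 2 / l 0 := by
  have hK := h.hK
  have : ∑ j ∈ Finset.range n, ((j : ℝ) + 1) / l j + (n + K) * (K / l n) ≤ K ^ 2 / l 0 := by
    induction n with
    | zero => simp; apply le_of_eq; ring
    | succ n ih =>
      rw [Finset.sum_range_succ]
      have h1 := h.inv_gap n
      have h2 : (((n + 1 : ℕ) : ℝ) + K) * (K / l (n + 1)) ≤
          (((n + 1 : ℕ) : ℝ) + K) * ((K - 1) / l n) := by gcongr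
      have h3 : ((n : ℝ) + 1) / l n + (((n + 1 : ℕ) : ℝ) + K) * ((K - 1) / l n) =
          (n + K) * (K / l n) := by push_cast; ring
      linarith only [ih, h2, h3]
  have h2 : 0 ≤ (n + K) * (K / l n) := by have := h.pos n; positivity
  linarith only [this, h2]

lemma lip (h : Lac K l) {c : ℕ → ℂ} {β : ℝ} (hc : ∀ j, ‖c j‖ ≤ β) {n k : ℕ} (hn : n ≤ k + 1)
    (x y : ℝ) : ‖P l c n x - P l c n y‖ ≤ β * K * (l k * |x - y|) := by
  have hβ : 0 ≤ β := le_trans (norm_nonneg _) (hc 0)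
  unfold P
  rw [← Finset.sum_sub_distrib]
  refine le_trans (norm_sum_le _ _) ?_
  calc ∑ j ∈ Finset.range n, ‖c j * ex (l j * x) - c j * ex (l j * y)‖
      ≤ ∑ j ∈ Finset.range n, β * |x - y| * l j := by
        refine Finset.sum_le_sum fun j _ => ?_
        rw [← mul_sub, norm_mul]
        have h1 := ex_lip (l j * x) (l j * y)
        rw [← mul_sub, abs_mul, abs_of_pos (h.pos j)] at h1
        calc _ ≤ β * (l j * |x - y|) := by gcongr; exact hc j
          _ = _ := by ring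
    _ = β * |x - y| * ∑ j ∈ Finset.range n, l j := by rw [Finset.mul_sum]
    _ ≤ β * |x - y| * (K * l k) := by gcongr; exact h.sum_le' hn
    _ = _ := by ring

/-- Lipschitz bound at the scale `1 / l k`. -/
lemma lip' (h : Lac K l) {c : ℕ → ℂ} {β : ℝ} (hc : ∀ j, ‖c j‖ ≤ β) {n k : ℕ} (hn : n ≤ k + 1)
    {x y ρ : ℝ} (hxy : |x - y| ≤ ρ / l k) : ‖P l c n x - P l c n y‖ ≤ β * K * ρ := by
  have hβ : 0 ≤ β := le_trans (norm_nonneg _) (hc 0)
  have hK := h.hK
  refine le_trans (h.lip hc hn x y) ?_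
  rw [le_div_iff₀ (h.pos k)] at hxy
  gcongr
  linarith only [hxy]

end Lac

lemma int_P_ex {l : ℕ → ℝ} (c : ℕ → ℂ) {n : ℕ} {ν d : ℝ} (hd : 0 < d)
    (h : ∀ j < n, d ≤ |l j + ν|) (u v : ℝ) :
    ‖∫ y in u..v, P l c n y * ex (ν * y)‖ ≤ (∑ j ∈ Finset.range n, ‖c j‖) * (2 / d) := by
  have e : ∀ y, P l c n y * ex (ν * y) = ∑ j ∈ Finset.range n, c j * ex ((l j + ν) * y) := by
    intro y
    unfold P
    rw [Finset.sum_mul]
    refine Finset.sum_congr rfl fun j _ => ?_
    rw [add_mul, ex_add, mul_assoc]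
  simp_rw [e]
  rw [intervalIntegral.integral_finsetSum
    (fun k _ => by apply Continuous.intervalIntegrable; fun_prop), Finset.sum_mul]
  refine le_trans (norm_sum_le _ _) (Finset.sum_le_sum fun j hj => ?_)
  have h1 := h j (Finset.mem_range.1 hj)
  rw [intervalIntegral.integral_const_mul, norm_mul]
  gcongr
  refine le_trans (int_ex (abs_pos.1 (by linarith only [hd, h1])) u v) ?_
  gcongr

section moments

variable {K : ℝ} {l : ℕ → ℝ} {c : ℕ → ℂ} {β : ℝ}

lemma M1 (h : Lac K l) (hβ : 0 ≤ β) {n : ℕ} (hc : ∀ j < n, ‖c j‖ ≤ β) (u v : ℝ) :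
    ‖∫ y in u..v, P l c n y‖ ≤ 2 * β * (K / l 0) := by
  unfold P
  rw [intervalIntegral.integral_finsetSum
    (fun k _ => by apply Continuous.intervalIntegrable; fun_prop)]
  refine le_trans (norm_sum_le _ _) (le_trans ?_
    (mul_le_mul_of_nonneg_left (h.sum_inv n) (by positivity)))
  rw [Finset.mul_sum]
  refine Finset.sum_le_sum fun j hj => ?_
  rw [intervalIntegral.integral_const_mul, norm_mul]
  have h1 := int_ex (h.pos j).ne' u v
  rw [abs_of_pos (h.pos j)] at h1
  calc _ ≤ β * (2 / l j) := by gcongr; exact hc j (Finset.mem_range.1 hj)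
    _ = _ := by ring

lemma cross_pm (h : Lac K l) (_hβ : 0 ≤ β) {n : ℕ} (hc : ∀ j < n, ‖c j‖ ≤ β) {ν : ℝ}
    (hν : ν = l n ∨ ν = -l n) (u v : ℝ) :
    ‖∫ y in u..v, P l c n y * ex (ν * y)‖ ≤ 2 * K * β * (n / l n) := by
  have hK := h.hK
  have hn := h.pos n
  refine le_trans (int_P_ex c (d := l n / K) (by positivity) (fun j hj => ?_) u v) ?_
  · have h1 := h.lt hj
    have h2 := h.pos j
    rw [div_le_iff₀ (by linarith only [hK])]
    rcases hν with rfl | rfl
    · rw [abs_of_pos (by linarith only [hn, h2])]; nlinarith only [hK, hn, h2]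
    · rw [abs_of_nonpos (by nlinarith only [hK, hn, h1])]; nlinarith only [h1]
  · have h1 : ∑ j ∈ Finset.range n, ‖c j‖ ≤ n * β := by
      calc _ ≤ ∑ _j ∈ Finset.range n, β :=
            Finset.sum_le_sum fun j hj => hc j (Finset.mem_range.1 hj)
        _ = _ := by simp
    calc _ ≤ (n * β) * (2 / (l n / K)) := by gcongr
      _ = _ := by field_simp

lemma M2 (h : Lac K l) (hβ : 0 ≤ β) {n : ℕ} (hc : ∀ j < n, ‖c j‖ ≤ β) (u v : ℝ) :
    ‖∫ y in u..v, P l c n y ^ 2‖ ≤ 4 * K ^ 3 * β ^ 2 / l 0 := by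
  have hK := h.hK
  have key : ‖∫ y in u..v, P l c n y ^ 2‖ ≤
      4 * K * β ^ 2 * ∑ j ∈ Finset.range n, ((j : ℝ) + 1) / l j := by
    induction n with
    | zero => simp [P]
    | succ n ih =>
      have hn := h.pos n
      have hc' : ∀ j < n, ‖c j‖ ≤ β := fun j hj => hc j (by omega)
      have hcn := hc n (by omega)
      have e : ∀ y, P l c (n + 1) y ^ 2 = P l c n y ^ 2 + 2 * c n * (P l c n y * ex (l n * y)) +
          c n ^ 2 * ex ((2 * l n) * y) := by
        intro y
        rw [P_succ, two_mul (l n), add_mul, ex_add]; ring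
      simp_rw [e]
      rw [intervalIntegral.integral_add (by apply Continuous.intervalIntegrable; fun_prop)
        (by apply Continuous.intervalIntegrable; fun_prop),
        intervalIntegral.integral_add (by apply Continuous.intervalIntegrable; fun_prop)
        (by apply Continuous.intervalIntegrable; fun_prop), intervalIntegral.integral_const_mul,
        intervalIntegral.integral_const_mul, Finset.sum_range_succ, mul_add]
      have h1 := cross_pm h hβ hc' (Or.inl rfl) u v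
      have h2 := int_ex (w := 2 * l n) (by positivity) u v
      rw [abs_of_pos (by positivity)] at h2
      refine le_trans norm_add₃_le ?_
      rw [norm_mul, norm_mul, norm_mul, norm_pow, Complex.norm_two, add_assoc]
      refine add_le_add (ih hc') ?_
      calc _ ≤ 2 * β * (2 * K * β * (n / l n)) + β ^ 2 * (2 / (2 * l n)) := by gcongr
        _ = 4 * K * β ^ 2 * (n / l n) + 1 * β ^ 2 * (1 / l n) := by field_simp; ring
        _ ≤ 4 * K * β ^ 2 * (n / l n) + 4 * K * β ^ 2 * (1 / l n) := by gcongr; linarith only [hK]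
        _ = _ := by ring
  refine le_trans key ?_
  calc _ ≤ 4 * K * β ^ 2 * (K ^ 2 / l 0) := by gcongr; exact h.sum_inv2 n
    _ = _ := by ring

lemma norm_add_sq' (z w : ℂ) :
    ‖z + w‖ ^ 2 = ‖z‖ ^ 2 + ‖w‖ ^ 2 + 2 * (z * (starRingEnd ℂ) w).re := by
  rw [Complex.sq_norm, Complex.sq_norm, Complex.sq_norm, Complex.normSq_add]

lemma int_re {f : ℝ → ℂ} (hf : Continuous f) (u v : ℝ) :
    ∫ y in u..v, (f y).re = (∫ y in u..v, f y).re :=
  Complex.reCLM.intervalIntegral_comp_comm (hf.intervalIntegrable u v)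

lemma M3 (h : Lac K l) {n : ℕ} (hc : ∀ j < n, ‖c j‖ ≤ β) (u v : ℝ) :
    |(∫ y in u..v, ‖P l c n y‖ ^ 2) - En c n * (v - u)| ≤ 4 * K ^ 3 * β ^ 2 / l 0 := by
  have hK := h.hK
  have key : |(∫ y in u..v, ‖P l c n y‖ ^ 2) - En c n * (v - u)| ≤
      4 * K * β ^ 2 * ∑ j ∈ Finset.range n, ((j : ℝ) + 1) / l j := by
    induction n with
    | zero => simp [P, En]
    | succ n ih =>
      have hn := h.pos n
      have hc' : ∀ j < n, ‖c j‖ ≤ β := fun j hj => hc j (by omega)
      have hcn := hc n (by omega)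
      have hβ : 0 ≤ β := le_trans (norm_nonneg _) hcn
      have e : ∀ y, ‖P l c (n + 1) y‖ ^ 2 = ‖P l c n y‖ ^ 2 + ‖c n‖ ^ 2 +
          2 * ((starRingEnd ℂ) (c n) * (P l c n y * ex (-l n * y))).re := by
        intro y
        rw [P_succ, norm_add_sq', norm_mul, ex_norm, mul_one, map_mul, ex_conj, neg_mul,
          mul_left_comm]
      simp_rw [e]
      rw [intervalIntegral.integral_add (by apply Continuous.intervalIntegrable; fun_prop)
        (by apply Continuous.intervalIntegrable; fun_prop),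
        intervalIntegral.integral_add (by apply Continuous.intervalIntegrable; fun_prop)
        (by apply Continuous.intervalIntegrable; fun_prop), intervalIntegral.integral_const_mul,
        intervalIntegral.integral_const, int_re (by fun_prop),
        intervalIntegral.integral_const_mul, Finset.sum_range_succ, mul_add, En_succ]
      have h1 := cross_pm h hβ hc' (Or.inr rfl) u v
      have h2 := Complex.abs_re_le_norm
        ((starRingEnd ℂ) (c n) * ∫ y in u..v, P l c n y * ex (-l n * y))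
      rw [norm_mul, Complex.norm_conj] at h2
      have h3 : ‖c n‖ * ‖∫ y in u..v, P l c n y * ex (-l n * y)‖ ≤
          β * (2 * K * β * (n / l n)) := by gcongr
      have h4 : 2 * (β * (2 * K * β * (n / l n))) ≤ 4 * K * β ^ 2 * ((n + 1) / l n) := by
        calc _ = 4 * K * β ^ 2 * (n / l n) := by ring
          _ ≤ _ := by gcongr; linarith only []
      have ih' := ih hc'
      rw [abs_le] at ih' h2 ⊢
      simp only [smul_eq_mul]
      constructor <;> linarith only [h3, h4, ih'.1, ih'.2, h2.1, h2.2]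
  refine le_trans key ?_
  calc _ ≤ 4 * K * β ^ 2 * (K ^ 2 / l 0) := by gcongr; exact h.sum_inv2 n
    _ = _ := by ring

/-- Low frequencies against one higher frequency, by integration by parts. -/
lemma M5 (h : Lac K l) (hc : ∀ j, ‖c j‖ ≤ β) {n m : ℕ} (hnm : n ≤ m) (z : ℂ) (u v : ℝ) :
    ‖∫ y in u..v, (P l c n y + z) * ex (-l m * y)‖ ≤
      (‖P l c n u + z‖ + ‖P l c n v + z‖ + 2 * K ^ 2 * β) / l m := by
  have hK := h.hK
  have hm := h.pos m
  have hβ : 0 ≤ β := le_trans (norm_nonneg _) (hc 0)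
  have hd : ∀ y ∈ uIcc u v, HasDerivAt (fun y => (P l c n y + z) * ex (-l m * y))
      (P l (fun j => c j * (l j * Complex.I)) n y * ex (-l m * y) +
        ((-l m : ℝ) * Complex.I) * ((P l c n y + z) * ex (-l m * y))) y := by
    intro y _
    have := ((P_deriv l c n y).add_const z).fun_mul (ex_deriv (-l m) y)
    rwa [mul_left_comm] at this
  have h1 := integral_eq_sub_of_hasDerivAt hd (by apply Continuous.intervalIntegrable; fun_prop)
  rw [intervalIntegral.integral_add (by apply Continuous.intervalIntegrable; fun_prop)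
    (by apply Continuous.intervalIntegrable; fun_prop), intervalIntegral.integral_const_mul] at h1
  have h2 := int_P_ex (l := l) (fun j => c j * (l j * Complex.I)) (n := n) (ν := -l m)
    (d := l m / K) (by positivity) (fun j hj => by
      have h1 := h.lt (lt_of_lt_of_le hj hnm)
      have h2 := h.pos j
      rw [div_le_iff₀ (by linarith only [hK]), abs_of_nonpos (by nlinarith only [hK, hm, h1])]; nlinarith only [h1]) u v
  have h3 : ∑ j ∈ Finset.range n, ‖c j * (l j * Complex.I)‖ ≤ β * (K * l m) := by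
    calc _ ≤ ∑ j ∈ Finset.range n, β * l j := by
          refine Finset.sum_le_sum fun j _ => ?_
          have := h.pos j
          simp only [norm_mul, Complex.norm_I, mul_one, Complex.norm_real, Real.norm_eq_abs,
            abs_of_pos this]
          gcongr; exact hc j
      _ = β * ∑ j ∈ Finset.range n, l j := by rw [Finset.mul_sum]
      _ ≤ _ := by gcongr; exact h.sum_le' (by omega)
  have h4 : ‖∫ y in u..v, P l (fun j => c j * (l j * Complex.I)) n y * ex (-l m * y)‖ ≤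
      2 * K ^ 2 * β := by
    calc _ ≤ β * (K * l m) * (2 / (l m / K)) := le_trans h2 (by gcongr)
      _ = _ := by field_simp
  have h5 : ‖((-l m : ℝ) * Complex.I) * ∫ y in u..v, (P l c n y + z) * ex (-l m * y)‖ =
      ‖∫ y in u..v, (P l c n y + z) * ex (-l m * y)‖ * l m := by
    rw [norm_mul, norm_mul, Complex.norm_I, Complex.norm_real, Real.norm_eq_abs, abs_neg,
      abs_of_pos hm]; ring
  rw [le_div_iff₀ hm, ← h5, eq_sub_of_add_eq' h1]
  refine le_trans (norm_sub_le _ _) (add_le_add (le_trans (norm_sub_le _ _) ?_) h4)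
  rw [norm_mul, norm_mul, ex_norm, ex_norm]; linarith only []

/-- Exponential moment. -/
lemma ME (h : Lac K l) {n : ℕ} (hc : ∀ j < n, ‖c j‖ ≤ 1 / (2 * K)) {u v : ℝ} (huv : u ≤ v) :
    ∫ y in u..v, Real.exp (P l c n y).re ≤ Real.exp (K * En c n) * (v - u + 2 / l 0) := by
  have hK := h.hK
  have h0 := h.pos 0
  set γ : ℝ := 1 / (2 * K) with hγ
  have hγ0 : 0 < γ := by positivity
  have hγ1 : γ ≤ 1 / 2 := by rw [hγ]; apply one_div_le_one_div_of_le <;> linarith only [hK]
  have hexp : Real.exp γ * (1 - γ) ≤ 1 := by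
    have := Real.one_sub_le_exp_neg γ
    calc _ ≤ Real.exp γ * Real.exp (-γ) := by gcongr
      _ = 1 := by rw [← Real.exp_add]; simp
  set V : ℕ → ℝ := fun n => (∑ j ∈ Finset.range n, ‖c j‖ ^ 2 * l j) / l n with hV
  have hV0 : ∀ n, 0 ≤ V n := fun n => div_nonneg
    (Finset.sum_nonneg fun j _ => by have := h.pos j; positivity) (h.pos n).le
  have hVE : ∀ n, V n ≤ En c n := by
    intro n
    rw [hV, div_le_iff₀ (h.pos n), En, Finset.sum_mul]
    refine Finset.sum_le_sum fun j hj => ?_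
    have := h.mono (Finset.mem_range.1 hj).le
    gcongr
  have key : ∫ y in u..v, Real.exp (P l c n y).re ≤ Real.exp (K * En c n - K / 2 * V n) *
      (v - u + 2 / l 0 - 2 * (Real.exp (n * γ) / l n)) ∧ Real.exp (n * γ) / l n ≤ 1 / l 0 := by
    induction n with
    | zero => simp only [P, Finset.range_zero, Finset.sum_empty, Complex.zero_re, Real.exp_zero, intervalIntegral.integral_const, smul_eq_mul, mul_one, En, mul_zero, hV, zero_div, sub_self, CharP.cast_eq_zero, zero_mul, one_div, one_mul, tsub_le_iff_right, Std.le_refl, and_true]; apply le_of_eq; ring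
    | succ n ih =>
      obtain ⟨ih, ih2⟩ := ih fun j hj => hc j (by omega)
      have hn := h.pos n
      have hn1 := h.pos (n + 1)
      have hcn := hc n (by omega)
      set t := Real.exp (n * γ) / l n with ht
      have ht0 : 0 ≤ t := by positivity
      have hstep : Real.exp (((n + 1 : ℕ) : ℝ) * γ) / l (n + 1) ≤ (1 - γ) * t := by
        have e1 : Real.exp (((n + 1 : ℕ) : ℝ) * γ) = Real.exp (n * γ) * Real.exp γ := by
          rw [← Real.exp_add]; congr 1; push_cast; ring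
        have e2 : Real.exp γ * l n ≤ (1 - γ) * l (n + 1) := by
          have g := h.gap n
          have e3 : K - 1 = K * (1 - 2 * γ) := by rw [hγ]; field_simp
          rw [e3, mul_assoc] at g
          have g2 := le_of_mul_le_mul_left g (by linarith only [hK])
          have g3 : Real.exp γ * (1 - 2 * γ) ≤ 1 - γ := by
            have := mul_le_mul_of_nonneg_right (Real.one_le_exp hγ0.le) hγ0.le
            linarith only [hexp, this]
          calc _ ≤ Real.exp γ * ((1 - 2 * γ) * l (n + 1)) := by gcongr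
            _ = Real.exp γ * (1 - 2 * γ) * l (n + 1) := by ring
            _ ≤ _ := by gcongr
        rw [e1, ht, div_le_iff₀ hn1]
        calc _ = Real.exp (n * γ) / l n * (Real.exp γ * l n) := by field_simp
          _ ≤ Real.exp (n * γ) / l n * ((1 - γ) * l (n + 1)) := by gcongr
          _ = _ := by ring
      refine ⟨?_, by have := mul_nonneg hγ0.le ht0; linarith only [ih2, hstep, this]⟩
      set F : ℝ → ℝ := fun y => Real.exp (P l c n y).re with hF
      set g : ℝ → ℝ := fun y => (c n * ex (l n * y)).re with hg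
      set G : ℝ → ℝ := fun y => (c n * ex (l n * y)).im / l n with hG
      set d : ℝ → ℝ := fun y => (P l (fun j => c j * (l j * Complex.I)) n y).re with hd
      have hFc : Continuous F := by rw [hF]; fun_prop
      have hgc : Continuous g := by rw [hg]; fun_prop
      have hGc : Continuous G := by rw [hG]; fun_prop
      have hdc : Continuous d := by rw [hd]; fun_prop
      have hF0 : ∀ y, 0 < F y := fun y => Real.exp_pos _
      have hnorm : ∀ y, ‖c n * ex (l n * y)‖ = ‖c n‖ := fun y => by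
        rw [norm_mul, ex_norm, mul_one]
      have hGb : ∀ y, |G y| ≤ ‖c n‖ / l n := fun y => by
        rw [hG]; dsimp only
        rw [abs_div, abs_of_pos hn, ← hnorm y]
        gcongr; exact Complex.abs_im_le_norm _
      have hFb : ∀ y, F y ≤ Real.exp (n * γ) := fun y => Real.exp_le_exp.2
        (le_trans (Complex.re_le_norm _) (P_norm_le' l (fun j hj => hc j (by omega)) y))
      have hFG : ∀ y, |F y * G y| ≤ γ * t := fun y => by
        rw [abs_mul, abs_of_pos (hF0 y)]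
        calc _ ≤ Real.exp (n * γ) * (γ / l n) := by
              gcongr
              · exact hFb y
              · exact le_trans (hGb y) (by gcongr)
          _ = _ := by rw [ht]; ring
      set w := ‖c n‖ ^ 2 * ((K - 1) / 2) + V n / 2 with hw
      have hdG : ∀ y, |d y * G y| ≤ w := fun y => by
        have h1 : |d y| ≤ ∑ j ∈ Finset.range n, ‖c j‖ * l j := by
          refine le_trans (Complex.abs_re_le_norm _) (le_trans (P_norm_le _ _ _ _) (le_of_eq ?_))
          refine Finset.sum_congr rfl fun j _ => ?_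
          simp [abs_of_pos (h.pos j)]
        have h2 : ∑ j ∈ Finset.range n, l j ≤ (K - 1) * l n := by
          have := h.sum_le n
          rw [Finset.sum_range_succ] at this; linarith only [this]
        have h3 : (∑ j ∈ Finset.range n, ‖c j‖ * l j) * ‖c n‖ ≤
            ‖c n‖ ^ 2 / 2 * (∑ j ∈ Finset.range n, l j) +
              (∑ j ∈ Finset.range n, ‖c j‖ ^ 2 * l j) / 2 := by
          rw [Finset.sum_mul, Finset.mul_sum, Finset.sum_div, ← Finset.sum_add_distrib]
          refine Finset.sum_le_sum fun j _ => ?_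
          linarith only [mul_nonneg (h.pos j).le (sq_nonneg (‖c j‖ - ‖c n‖))]
        rw [abs_mul]
        calc _ ≤ (∑ j ∈ Finset.range n, ‖c j‖ * l j) * (‖c n‖ / l n) :=
              mul_le_mul h1 (hGb y) (abs_nonneg _) (le_trans (abs_nonneg _) h1)
          _ = ((∑ j ∈ Finset.range n, ‖c j‖ * l j) * ‖c n‖) / l n := by ring
          _ ≤ (‖c n‖ ^ 2 / 2 * ((K - 1) * l n) +
              (∑ j ∈ Finset.range n, ‖c j‖ ^ 2 * l j) / 2) / l n := by
              gcongr; exact le_trans h3 (by gcongr)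
          _ = w := by rw [hw, hV]; field_simp
      have hder : ∀ y ∈ uIcc u v,
          HasDerivAt (fun y => F y * G y) (F y * (d y * G y) + F y * g y) y := by
        intro y _
        have h1 : HasDerivAt F (F y * d y) y :=
          (Complex.reCLM.hasFDerivAt.comp_hasDerivAt y (P_deriv l c n y)).exp
        have h2 : HasDerivAt G (g y) y := by
          have := (Complex.imCLM.hasFDerivAt.comp_hasDerivAt y
            ((ex_deriv (l n) y).const_mul (c n))).div_const (l n)
          have e : g y = Complex.imCLM (c n * (l n * Complex.I * ex (l n * y))) / l n := by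
            rw [hg]; simp; field_simp; ring
          rw [e]; exact this
        have := h1.fun_mul h2
        rwa [mul_assoc] at this
      have hint := integral_eq_sub_of_hasDerivAt hder
        (by apply Continuous.intervalIntegrable; fun_prop)
      have hpt : ∀ y ∈ Icc u v, Real.exp (P l c (n + 1) y).re ≤
          (1 + ‖c n‖ ^ 2 + w) * F y + (F y * (d y * G y) + F y * g y) := by
        intro y _
        have h1 : |g y| ≤ ‖c n‖ := by rw [← hnorm y]; exact Complex.abs_re_le_norm _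
        have h2 := (abs_le.1 (Real.abs_exp_sub_one_sub_id_le (x := g y) (by linarith only [hγ0, hγ1, hcn, h1]))).2
        have h3 : g y ^ 2 ≤ ‖c n‖ ^ 2 := by rw [← sq_abs]; gcongr
        have h4 := (abs_le.1 (hdG y)).1
        rw [P_succ, Complex.add_re, Real.exp_add]
        change F y * Real.exp (g y) ≤ _
        have := mul_le_mul_of_nonneg_left (show Real.exp (g y) ≤
          1 + ‖c n‖ ^ 2 + w + (d y * G y + g y) by linarith only [h2, h3, h4]) (hF0 y).le
        linarith only [this]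
      have h1 := integral_mono_on huv (by apply Continuous.intervalIntegrable; fun_prop)
        (by apply Continuous.intervalIntegrable; fun_prop) hpt (μ := volume)
      rw [intervalIntegral.integral_add (by apply Continuous.intervalIntegrable; fun_prop)
        (by apply Continuous.intervalIntegrable; fun_prop), hint,
        intervalIntegral.integral_const_mul] at h1
      have h2 := (abs_le.1 (hFG u)).1
      have h3 := (abs_le.1 (hFG v)).2
      have hw0 : 0 ≤ ‖c n‖ ^ 2 * ((K - 1) / 2) := mul_nonneg (sq_nonneg _) (by linarith only [hK])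
      have hV1 : K * V (n + 1) ≤ (K - 1) * (V n + ‖c n‖ ^ 2) := by
        have e : V (n + 1) = (V n + ‖c n‖ ^ 2) * (l n / l (n + 1)) := by
          simp only [hV, Finset.sum_range_succ]; field_simp
        have e2 : K * (l n / l (n + 1)) ≤ K - 1 := by
          rw [← mul_div_assoc, div_le_iff₀ hn1]; exact h.gap n
        have := hV0 n
        rw [e, mul_left_comm, mul_comm (K - 1)]
        gcongr
      set A := K * En c n - K / 2 * V n with hA
      set A' := K * En c (n + 1) - K / 2 * V (n + 1) with hA'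
      have hAA : ‖c n‖ ^ 2 + w + A ≤ A' := by rw [hA, hA', hw, En_succ]; linarith only [hV1]
      have hA0 : 0 ≤ A' := by
        have := mul_le_mul_of_nonneg_left (hVE (n + 1)) (show 0 ≤ K by linarith only [hK])
        have := mul_nonneg (show 0 ≤ K by linarith only [hK]) (hV0 (n + 1))
        rw [hA']; linarith
      have hL : 0 ≤ v - u + 2 / l 0 - 2 * t := by
        have : 2 / l 0 = 2 * (1 / l 0) := by ring
        linarith only [huv, ih2, this]
      have h5 : (1 + ‖c n‖ ^ 2 + w) * (∫ y in u..v, F y) ≤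
          Real.exp A' * (v - u + 2 / l 0 - 2 * t) := by
        have := hV0 n
        calc _ ≤ Real.exp (‖c n‖ ^ 2 + w) * (Real.exp A * (v - u + 2 / l 0 - 2 * t)) := by
              gcongr
              · exact integral_nonneg huv fun y _ => (hF0 y).le
              · linarith only [Real.add_one_le_exp (‖c n‖ ^ 2 + w)]
          _ = Real.exp (‖c n‖ ^ 2 + w + A) * (v - u + 2 / l 0 - 2 * t) := by
              rw [Real.exp_add _ A, mul_assoc]
          _ ≤ _ := by gcongr
      have h6 : 1 ≤ Real.exp A' := Real.one_le_exp hA0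
      have h7 : 0 ≤ γ * t := by positivity
      have h8 := mul_le_mul_of_nonneg_left hstep (Real.exp_pos A').le
      have h9 := mul_le_mul_of_nonneg_right h6 h7
      linarith only [h1, h2, h3, h5, h8, h9]
  refine le_trans key.1 ?_
  have h1 : 0 ≤ Real.exp (n * γ) / l n := by have := h.pos n; positivity
  have h2 := hV0 n
  have h3 := key.2
  have h4 : 2 / l 0 = 2 * (1 / l 0) := by ring
  have h5 := mul_nonneg (show 0 ≤ K by linarith only [hK]) h2
  gcongr <;> linarith only [huv, key, h4, h5, h1]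

/-- Fourth moment in terms of the energy. -/
lemma M4 (h : Lac K l) {n : ℕ} {E : ℝ} (hE : En c n ≤ E) {u v : ℝ} (huv : u ≤ v) :
    ∫ y in u..v, ‖P l c n y‖ ^ 4 ≤ 9216 * K ^ 4 * E ^ 2 * (v - u + 2 / l 0) := by
  have hK := h.hK
  have h0 := h.pos 0
  have hL : 0 ≤ v - u + 2 / l 0 := by have : 0 < 2 / l 0 := by positivity
                                      linarith only [huv, this]
  rcases (le_trans (En_nonneg c n) hE).eq_or_lt with rfl | hE0
  · have : ∀ y, P l c n y = 0 := fun y => Finset.sum_eq_zero fun j hj => by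
      have h1 := le_trans (sq_le_En c (Finset.mem_range.1 hj)) hE
      have h2 : ‖c j‖ = 0 := by nlinarith only [h1]
      rw [norm_eq_zero.1 h2, zero_mul]
    simp [this]
  obtain ⟨σ, hσ0, hσ⟩ : ∃ σ : ℝ, 0 < σ ∧ σ ^ 2 * E = (1 / (2 * K)) ^ 2 := by
    refine ⟨1 / (2 * K) / √E, by positivity, ?_⟩
    rw [div_pow, Real.sq_sqrt hE0.le]; field_simp
  have hdir : ∀ w : ℂ, ‖w‖ = 1 →
      ∫ y in u..v, Real.exp (w * σ * P l c n y).re ≤ 3 * (v - u + 2 / l 0) := by
    intro w hw
    have hn : ∀ j, ‖w * σ * c j‖ ^ 2 = σ ^ 2 * ‖c j‖ ^ 2 := fun j => by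
      rw [norm_mul, norm_mul, hw, Complex.norm_real, Real.norm_eq_abs, abs_of_pos hσ0]; ring
    have h1 := ME h (c := fun j => w * σ * c j) (n := n) (fun j hj => by
      apply le_of_sq_le_sq _ (by positivity)
      rw [hn, ← hσ]; gcongr; exact le_trans (sq_le_En c hj) hE) huv
    simp_rw [P_smul] at h1
    refine le_trans h1 ?_
    gcongr
    have h2 : En (fun j => w * σ * c j) n = σ ^ 2 * En c n := by
      unfold En; simp_rw [hn]; rw [Finset.mul_sum]
    have h3 : K * (σ ^ 2 * En c n) ≤ 1 := by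
      calc _ ≤ K * (σ ^ 2 * E) := by gcongr
        _ = 1 / (4 * K) := by rw [hσ]; field_simp; ring
        _ ≤ 1 := by rw [div_le_one (by positivity)]; linarith only [hK]
    rw [h2]
    exact le_trans (Real.exp_le_exp.2 h3) (le_trans Real.exp_one_lt_d9.le (by norm_num))
  have h4 : ∀ x : ℝ, x ^ 4 ≤ 24 * (Real.exp x + Real.exp (-x)) := fun x => by
    have h1 := Real.pow_div_factorial_le_exp |x| (abs_nonneg x) 4
    rw [Even.pow_abs (by decide)] at h1
    have h2 : Real.exp |x| ≤ Real.exp x + Real.exp (-x) := by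
      rcases abs_choice x with e | e <;> rw [e] <;> linarith only [Real.exp_pos x, Real.exp_pos (-x)]
    norm_num [Nat.factorial] at h1
    linarith only [h2, h1]
  have hpt : ∀ y ∈ Icc u v, σ ^ 4 * ‖P l c n y‖ ^ 4 ≤
      48 * ((Real.exp (1 * σ * P l c n y).re + Real.exp ((-1) * σ * P l c n y).re) +
        (Real.exp (Complex.I * σ * P l c n y).re + Real.exp ((-Complex.I) * σ * P l c n y).re)) := by
    intro y _
    set z := P l c n y
    have e1 : (1 * σ * z).re = σ * z.re := by simp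
    have e2 : ((-1) * σ * z).re = -(σ * z.re) := by simp
    have e3 : (Complex.I * σ * z).re = -(σ * z.im) := by simp
    have e4 : ((-Complex.I) * σ * z).re = σ * z.im := by simp
    have e5 : ‖z‖ ^ 4 = (z.re ^ 2 + z.im ^ 2) ^ 2 := by
      rw [show 4 = 2 * 2 from rfl, pow_mul, Complex.sq_norm, Complex.normSq_apply]; ring
    rw [e1, e2, e3, e4, e5]
    have h5 := h4 (σ * z.re)
    have h6 := h4 (σ * z.im)
    have h7 := sq_nonneg (σ ^ 2 * (z.re ^ 2 - z.im ^ 2))
    linarith only [h5, h6, h7]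
  have h5 := integral_mono_on huv (by apply Continuous.intervalIntegrable; fun_prop)
    (by apply Continuous.intervalIntegrable; fun_prop) hpt (μ := volume)
  rw [intervalIntegral.integral_const_mul, intervalIntegral.integral_const_mul,
    intervalIntegral.integral_add (by apply Continuous.intervalIntegrable; fun_prop)
      (by apply Continuous.intervalIntegrable; fun_prop),
    intervalIntegral.integral_add (by apply Continuous.intervalIntegrable; fun_prop)
      (by apply Continuous.intervalIntegrable; fun_prop),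
    intervalIntegral.integral_add (by apply Continuous.intervalIntegrable; fun_prop)
      (by apply Continuous.intervalIntegrable; fun_prop)] at h5
  have d1 := hdir 1 (by simp)
  have d2 := hdir (-1) (by simp)
  have d3 := hdir Complex.I (by simp)
  have d4 := hdir (-Complex.I) (by simp)
  have h6 : σ ^ 4 * (16 * K ^ 4 * E ^ 2) = 1 := by
    calc _ = (σ ^ 2 * E) ^ 2 * (16 * K ^ 4) := by ring
      _ = 1 := by rw [hσ]; field_simp; ring
  calc _ = (16 * K ^ 4 * E ^ 2) * (σ ^ 4 * ∫ y in u..v, ‖P l c n y‖ ^ 4) := by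
        rw [← mul_assoc, mul_comm _ (σ ^ 4), h6, one_mul]
    _ ≤ (16 * K ^ 4 * E ^ 2) * (576 * (v - u + 2 / l 0)) :=
        mul_le_mul_of_nonneg_left (by linarith only [h5, d1, d2, d3, d4]) (by positivity)
    _ = _ := by ring

end moments

/-- `H` fills a fixed proportion of the ball of radius `δ` around `x`. -/
def TT (H : Set ℝ) (x δ p : ℝ) : Prop := p * δ ≤ volume.real (H ∩ closedBall x δ)

lemma fin_ball {A : Set ℝ} {x δ : ℝ} (h : A ⊆ closedBall x δ) : volume A ≠ ⊤ :=
  ne_top_of_le_ne_top measure_closedBall_lt_top.ne (measure_mono h)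

lemma fin_Icc {A : Set ℝ} {u v : ℝ} (h : A ⊆ Icc u v) : volume A ≠ ⊤ :=
  ne_top_of_le_ne_top measure_Icc_lt_top.ne (measure_mono h)

lemma TT.mono {H H' : Set ℝ} {x δ p p' : ℝ} (h : TT H x δ p) (hH : H ⊆ H') (hp : p' ≤ p)
    (hδ : 0 ≤ δ) : TT H' x δ p' :=
  le_trans (le_trans (by gcongr) h)
    (measureReal_mono (inter_subset_inter_left _ hH) (fin_ball inter_subset_right))

lemma cover2 {A B C : Set ℝ} (h : A ⊆ B ∪ C) (hB : volume B ≠ ⊤) (hC : volume C ≠ ⊤) :
    volume.real A ≤ volume.real B + volume.real C :=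
  le_trans (measureReal_mono h (measure_union_lt_top hB.lt_top hC.lt_top).ne)
    (measureReal_union_le _ _)

/-- Local density at every point of `E` gives density on the whole ball (Vitali covering). -/
lemma Loc {H E : Set ℝ} {x ρ δ₀ p : ℝ} (hp : 0 < p) (hE : E ⊆ closedBall x ρ)
    (h : ∀ y ∈ E, ∃ δ, 0 < δ ∧ δ ≤ δ₀ ∧ TT H y δ p) :
    p / 10 * volume.real E ≤ volume.real (H ∩ closedBall x (ρ + δ₀)) := by
  choose! r hr0 hr1 hT using h
  obtain ⟨u, huE, hdisj, hcov⟩ := Vitali.exists_disjoint_subfamily_covering_enlargement_closedBall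
    E id r δ₀ hr1 5 (by norm_num)
  have hc : u.Countable := hdisj.countable_of_nonempty_interior fun b hb => by
    rw [interior_closedBall _ (hr0 b (huE hb)).ne']
    exact ⟨_, mem_ball_self (hr0 b (huE hb))⟩
  have h1 : volume E ≤ ENNReal.ofReal (10 / p) * volume (H ∩ closedBall x (ρ + δ₀)) := by
    calc volume E ≤ volume (⋃ b ∈ u, closedBall b (5 * r b)) := by
          refine measure_mono fun y hy => ?_
          obtain ⟨b, hb, hb'⟩ := hcov y hy
          exact mem_biUnion hb (hb' (mem_closedBall_self (hr0 y hy).le))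
      _ ≤ ∑' b : u, volume (closedBall (b : ℝ) (5 * r b)) := measure_biUnion_le _ hc _
      _ ≤ ∑' b : u, ENNReal.ofReal (10 / p) * (volume.restrict H) (closedBall (b : ℝ) (r b)) := by
          refine ENNReal.tsum_le_tsum fun b => ?_
          rw [Measure.restrict_apply measurableSet_closedBall, inter_comm,
            ← ENNReal.ofReal_toReal (fin_ball (A := H ∩ _) inter_subset_right),
            ← ENNReal.ofReal_mul (by positivity), Real.volume_closedBall]
          refine ENNReal.ofReal_le_ofReal ?_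
          have := hT b (huE b.2)
          calc 2 * (5 * r b) = 10 / p * (p * r b) := by field_simp; ring
            _ ≤ _ := mul_le_mul_of_nonneg_left this (by positivity)
      _ = ENNReal.ofReal (10 / p) * (volume.restrict H) (⋃ b ∈ u, closedBall b (r b)) := by
          rw [ENNReal.tsum_mul_left, measure_biUnion (f := fun b => closedBall b (r b)) hc hdisj
            (fun _ _ => measurableSet_closedBall)]
      _ ≤ ENNReal.ofReal (10 / p) * (volume.restrict H) (closedBall x (ρ + δ₀)) := by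
          gcongr
          refine iUnion₂_subset fun b hb => closedBall_subset_closedBall' ?_
          have := hr1 b (huE hb)
          have := mem_closedBall.1 (hE (huE hb))
          linarith
      _ = _ := by rw [Measure.restrict_apply measurableSet_closedBall, inter_comm]
  have h2 := ENNReal.toReal_mono (ENNReal.mul_ne_top ENNReal.ofReal_ne_top
    (fin_ball inter_subset_right)) h1
  rw [ENNReal.toReal_mul, ENNReal.toReal_ofReal (by positivity)] at h2
  calc _ ≤ p / 10 * (10 / p * volume.real (H ∩ closedBall x (ρ + δ₀))) :=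
        mul_le_mul_of_nonneg_left h2 (by positivity)
    _ = _ := by field_simp

/-- A set that misses a fixed proportion of small balls around its points is null. -/
lemma porous {B H : Set ℝ} {p : ℝ} (hp : 0 < p) (hH : MeasurableSet H) (hd : Disjoint H B)
    (h : ∀ x ∈ B, ∀ η > 0, ∃ δ, 0 < δ ∧ δ < η ∧ TT H x δ p) : volume B = 0 := by
  have hb := Besicovitch.ae_tendsto_measure_inter_div (volume : Measure ℝ) B
  rw [ae_iff] at hb
  rw [← Measure.restrict_apply_self]
  refine measure_mono_null ?_ hb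
  intro x hx ht
  have hev := ht.eventually (lt_mem_nhds (show ENNReal.ofReal (1 - p / 2) < 1 by
    rw [ENNReal.ofReal_lt_one]; linarith only [hp]))
  rw [eventually_nhdsWithin_iff, Metric.eventually_nhds_iff] at hev
  obtain ⟨η, hη, hev⟩ := hev
  obtain ⟨r, hr0, hrη, hT⟩ := h x hx η hη
  have h1 := hev (y := r) (by rw [Real.dist_eq, sub_zero, abs_of_pos hr0]; exact hrη) hr0
  have h2 : volume.real (B ∩ closedBall x r) ≤ (1 - p / 2) * (2 * r) := by
    have h3 := measureReal_inter_add_sdiff (μ := volume) (s := closedBall x r) hH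
      (fin_ball Subset.rfl)
    rw [Real.volume_real_closedBall hr0.le, inter_comm] at h3
    have h4 : volume.real (B ∩ closedBall x r) ≤ volume.real (closedBall x r \ H) :=
      measureReal_mono (fun y hy => ⟨hy.2, fun hG => (Set.disjoint_left.1 hd) hG hy.1⟩)
        (fin_ball sdiff_subset)
    unfold TT at hT
    linarith only [hT, h3, h4]
  refine absurd h1 (not_lt.2 ?_)
  rw [Real.volume_closedBall]
  apply ENNReal.div_le_of_le_mul
  rw [← ENNReal.ofReal_mul' (by positivity),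
    ← ENNReal.ofReal_toReal (fin_ball (A := B ∩ _) inter_subset_right)]
  exact ENNReal.ofReal_le_ofReal h2

lemma markov {f : ℝ → ℝ} (hf : Continuous f) {u v : ℝ} (huv : u ≤ v)
    (h0 : ∀ y ∈ Icc u v, 0 ≤ f y) {A : Set ℝ} (hA : A ⊆ Icc u v) (h1 : ∀ y ∈ A, 1 ≤ f y) :
    volume.real A ≤ ∫ y in u..v, f y := by
  have h := mul_meas_ge_le_integral_of_nonneg (μ := volume.restrict (Icc u v)) (f := f)
    (ae_restrict_of_forall_mem measurableSet_Icc h0) hf.integrableOn_Icc 1
  rw [one_mul, measureReal_restrict_apply (isClosed_le continuous_const hf).measurableSet] at h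
  rw [integral_of_le huv, ← integral_Icc_eq_integral_Ioc]
  exact le_trans (measureReal_mono (fun y hy => mem_inter (h1 y hy) (hA hy))
    (fin_Icc inter_subset_right)) h

lemma pz {f : ℝ → ℝ} (hf : Continuous f) {u v c : ℝ} (huv : u ≤ v) (hc : 0 < c) {G : Set ℝ}
    (h1 : ∀ y ∈ Icc u v, f y ≤ c) (h2 : ∀ y ∈ Icc u v, y ∉ G → f y ≤ 0) :
    ∫ y in u..v, f y ≤ c * volume.real (G ∩ Icc u v) := by
  have h := markov (f := fun y => 1 - f y / c) (by fun_prop) huv
    (fun y hy => by have := (div_le_one hc).2 (h1 y hy); linarith only [this]) (A := Icc u v \ G)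
    sdiff_subset (fun y hy => by
      have := div_nonpos_of_nonpos_of_nonneg (h2 y hy.1 hy.2) hc.le; linarith only [this])
  rw [intervalIntegral.integral_sub (by simp) (by apply Continuous.intervalIntegrable; fun_prop),
    intervalIntegral.integral_div, intervalIntegral.integral_const, smul_eq_mul, mul_one] at h
  have h3 := cover2 (A := Icc u v) (B := G ∩ Icc u v) (C := Icc u v \ G)
    (fun y hy => by by_cases hG : y ∈ G <;> simp [hG, hy]) (fin_Icc inter_subset_right)
    (fin_Icc sdiff_subset)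
  rw [Real.volume_real_Icc_of_le huv] at h3
  rw [← div_le_iff₀' hc]
  linarith only [h, h3]

lemma split {H : Set ℝ} {g : ℝ → ℝ} (hg : Continuous g) (a d : ℝ) (n : ℕ)
    (h : ∀ i < n, volume.real (H ∩ Icc (a + i * d) (a + i * d + d)) ≤
      ∫ y in (a + i * d)..(a + i * d + d), g y) :
    volume.real (H ∩ Icc a (a + n * d)) ≤ ∫ y in a..(a + n * d), g y := by
  induction n with
  | zero =>
    have : volume.real (H ∩ Icc a a) ≤ volume.real (Icc a a) :=
      measureReal_mono inter_subset_right (fin_Icc Subset.rfl)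
    rw [Real.volume_real_Icc_of_le le_rfl] at this
    simpa only [CharP.cast_eq_zero, zero_mul, add_zero, Icc_self, integral_same, ge_iff_le, sub_self] using this
  | succ n ih =>
    have e : a + ((n + 1 : ℕ) : ℝ) * d = a + n * d + d := by push_cast; ring
    rw [e, ← integral_add_adjacent_intervals (b := a + n * d) (hg.intervalIntegrable _ _)
      (hg.intervalIntegrable _ _)]
    refine le_trans (cover2 ?_ (fin_Icc inter_subset_right) (fin_Icc inter_subset_right))
      (add_le_add (ih fun i hi => h i (by omega)) (h n (by omega)))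
    rw [← inter_union_distrib_left]
    exact inter_subset_inter_right _ Icc_subset_Icc_union_Icc

lemma col1 {B : Set ℝ} {φ : ℝ → ℝ} {M : ℕ} (hM : 0 < M) {V : ENNReal} (hφ : ∀ y ∈ B, |φ y| ≤ 1)
    (h : ∀ B' ⊆ B, (∀ y ∈ B', ∀ y' ∈ B', |φ y - φ y'| ≤ 1 / M) → volume B' ≤ V) :
    volume B ≤ (3 * M : ℕ) * V := by
  have hM' : (0 : ℝ) < M := by exact_mod_cast hM
  calc volume B ≤ volume (⋃ m ∈ Finset.Icc (-(M : ℤ)) M, {y ∈ B | ⌊M * φ y⌋ = m}) := by
        refine measure_mono fun y hy => ?_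
        have h1 := abs_le.1 (hφ y hy)
        refine mem_biUnion (x := ⌊M * φ y⌋) ?_ ⟨hy, rfl⟩
        simp only [Finset.coe_Icc, mem_Icc]
        constructor
        · rw [Int.le_floor]; push_cast; nlinarith only [h1.1]
        · rw [Int.floor_le_iff]; push_cast; nlinarith only [h1.2]
    _ ≤ ∑ m ∈ Finset.Icc (-(M : ℤ)) M, volume {y ∈ B | ⌊M * φ y⌋ = m} :=
        measure_biUnion_finset_le _ _
    _ ≤ ∑ _m ∈ Finset.Icc (-(M : ℤ)) M, V := by
        refine Finset.sum_le_sum fun m _ => h _ (sep_subset _ _) fun y hy y' hy' => ?_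
        have h1 := Int.abs_sub_lt_one_of_floor_eq_floor (hy.2.trans hy'.2.symm)
        rw [← mul_sub, abs_mul, abs_of_pos hM'] at h1
        rw [le_div_iff₀ hM']; linarith only [h1]
    _ ≤ _ := by
        rw [Finset.sum_const, nsmul_eq_mul, Int.card_Icc]
        gcongr
        omega

/-- Pigeonhole covering by colour classes. -/
lemma colF {ι : Type} {ψ : ι → ℝ → ℂ} {M : ℕ} (hM : 0 < M) (X : Set ℝ) (S : Finset ι) :
    ∀ B : Set ℝ, (∀ i ∈ S, ∀ y ∈ B, ‖ψ i y‖ ≤ 1) →
      (∀ y ∈ B, ∀ y' ∈ B, (∀ i ∈ S, ‖ψ i y' - ψ i y‖ ≤ 2 / M) → y' - y ∈ X) →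
      volume B ≤ ((3 * M) ^ (2 * S.card) : ℕ) * volume X := by
  classical
  induction S using Finset.induction_on with
  | empty =>
    intro B _ h
    rcases B.eq_empty_or_nonempty with rfl | ⟨y, hy⟩
    · simp
    · rw [← measure_preimage_add_right volume (-y) X]
      simp only [Finset.card_empty, mul_zero, pow_zero, Nat.cast_one, one_mul]
      exact measure_mono fun y' hy' => h y hy y' hy' (by simp)
  | insert A S hA ih =>
    intro B h1 h2
    have e : (((3 * M) ^ (2 * (S.card + 1)) : ℕ) : ENNReal) * volume X =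
        (3 * M : ℕ) * ((3 * M : ℕ) * (((3 * M) ^ (2 * S.card) : ℕ) * volume X)) := by
      push_cast; ring
    have hm := Finset.mem_insert_self A S
    rw [Finset.card_insert_of_notMem hA, e]
    refine col1 (φ := fun y => (ψ A y).re) hM
      (fun y hy => le_trans (Complex.abs_re_le_norm _) (h1 A hm y hy)) fun B' hB' h3 => ?_
    refine col1 (φ := fun y => (ψ A y).im) hM
      (fun y hy => le_trans (Complex.abs_im_le_norm _) (h1 A hm y (hB' hy)))
      fun B'' hB'' h4 => ?_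
    refine ih B'' (fun i hi y hy => h1 i (Finset.mem_insert_of_mem hi) y (hB' (hB'' hy)))
      fun y hy y' hy' h5 => ?_
    refine h2 y (hB' (hB'' hy)) y' (hB' (hB'' hy')) fun i hi => ?_
    rcases Finset.mem_insert.1 hi with rfl | hi
    · refine le_trans (Complex.norm_le_abs_re_add_abs_im _) ?_
      have := h3 y' (hB'' hy') y (hB'' hy)
      have := h4 y' hy' y hy
      simp only [Complex.sub_re, Complex.sub_im]
      have e2 : (2 : ℝ) / M = 1 / M + 1 / M := by ring
      linarith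
    · exact h5 i hi

/-- The Lyapunov function `log log ρ ^ 2`, cut off near the origin. -/
noncomputable def ff (ρ : ℝ) : ℝ := Real.log (Real.log (max (ρ ^ 2) 16))

lemma log16 : Real.exp 1 ≤ Real.log 16 := by
  have : Real.log 16 = 4 * Real.log 2 := by
    rw [show (16 : ℝ) = 2 ^ 4 by norm_num, Real.log_pow]; norm_num
  linarith only [this, Real.exp_one_lt_d9, Real.log_two_gt_d9]

lemma log_max_ge (ρ : ℝ) : Real.exp 1 ≤ Real.log (max (ρ ^ 2) 16) :=
  le_trans log16 (Real.log_le_log (by norm_num) (le_max_right _ _))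

lemma one_le_ff (ρ : ℝ) : 1 ≤ ff ρ :=
  (Real.le_log_iff_exp_le (lt_of_lt_of_le (Real.exp_pos 1) (log_max_ge ρ))).2 (log_max_ge ρ)

lemma ff_le {ρ b : ℝ} (h : Real.log (max (ρ ^ 2) 16) ≤ b) : ff ρ ≤ Real.log b :=
  Real.log_le_log (lt_of_lt_of_le (Real.exp_pos 1) (log_max_ge ρ)) h

lemma ff_mono {ρ R : ℝ} (h0 : 0 ≤ ρ) (h : ρ ≤ R) : ff ρ ≤ ff R :=
  ff_le (Real.log_le_log (by positivity) (by gcongr))

lemma ff_top : Tendsto ff atTop atTop :=
  Real.tendsto_log_atTop.comp (Real.tendsto_log_atTop.comp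
    (tendsto_atTop_mono (fun _ => le_max_left _ _) (tendsto_pow_atTop two_ne_zero)))

lemma log_one_add_le {s c : ℝ} (hc : 0 < c) (hs : |s| ≤ 1 - 1 / c) :
    Real.log (1 + s) ≤ s - s ^ 2 / 2 + c * |s| ^ 3 := by
  have hc' : 0 < 1 / c := by positivity
  have h := Real.abs_log_sub_add_sum_range_le (x := -s) (by rw [abs_neg]; linarith only [hs, hc']) 2
  have h2 : |s| ^ 3 / (1 - |s|) ≤ |s| ^ 3 / (1 / c) := by gcongr; linarith only [hs]
  rw [abs_neg, sub_neg_eq_add] at h
  have h3 := (abs_le.1 h).2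
  rw [div_div_eq_mul_div, div_one] at h2
  norm_num only [Finset.sum_range_succ, Finset.range_one, Finset.sum_singleton, pow_one, div_one, Even.neg_pow] at h3
  linarith only [h2, h3]

lemma major1 {p n w η : ℝ} (hw0 : 0 ≤ w) (hw : w ^ 2 = 1 + 2 * p + n ^ 2) (hp : |p| ≤ n)
    (hn : n ≤ 1 / 4) (hη0 : 0 ≤ η) :
    3 / 4 ≤ w ∧ Real.log ((w + η) ^ 2) ≤ 2 * p + n ^ 2 - 2 * p ^ 2 + 29 * n ^ 3 + 3 * η := by
  have hn0 : 0 ≤ n := le_trans (abs_nonneg _) hp
  obtain ⟨hp1, hp2⟩ := abs_le.1 hp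
  have hw1 : 3 / 4 ≤ w := by
    apply le_of_sq_le_sq _ hw0
    linarith only [hw, hp1, mul_nonneg (sub_nonneg.2 hn) (show 0 ≤ 7 / 4 - n by linarith only [hn])]
  refine ⟨hw1, ?_⟩
  have hs : |2 * p + n ^ 2| ≤ 9 / 4 * n := by
    rw [abs_le]
    constructor <;> linarith only [hn0, hp1, hp2, mul_le_mul_of_nonneg_left hn hn0, sq_nonneg n]
  have h1 := log_one_add_le (s := 2 * p + n ^ 2) (c := 16 / 7) (by norm_num) (by linarith only [hn, hs])
  have h2 : |2 * p + n ^ 2| ^ 3 ≤ (9 / 4 * n) ^ 3 := by gcongr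
  have h3 : Real.log ((w + η) ^ 2) = Real.log (w ^ 2) + 2 * Real.log (1 + η / w) := by
    have : w + η = w * (1 + η / w) := by field_simp
    rw [this, mul_pow, Real.log_mul (by positivity) (by positivity), Real.log_pow (1 + η / w)]
    norm_num
  have h4 : Real.log (1 + η / w) ≤ η / w := by
    have := Real.log_le_sub_one_of_pos (show 0 < 1 + η / w by positivity); linarith only [this]
  have h5 : η / w ≤ 3 / 2 * η := by
    rw [div_le_iff₀ (by positivity)]
    linarith only [mul_le_mul_of_nonneg_left hw1 hη0, hη0]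
  have h6 : -n * n ^ 2 ≤ p * n ^ 2 := by gcongr
  have h7 : 0 ≤ n ^ 3 := by positivity
  have h8 : 0 ≤ n ^ 4 := by positivity
  rw [h3, hw, add_assoc]
  linarith only [h1, h2, h4, h5, h6, h7, h8]

lemma major2 {p n η b L : ℝ} (hp : |p| ≤ n) (hn : n ≤ 1 / 4) (hη0 : 0 ≤ η) (hη : η ≤ 1 / 32)
    (hb0 : 0 ≤ b) (hb : b ≤ 1 / 8) (hL : L = 2 * p + n ^ 2 - 2 * p ^ 2 + 29 * n ^ 3 + 3 * η) :
    |L| ≤ 8 / 7 ∧ Real.log (1 + b * L) ≤ b * (2 * p - (2 * p ^ 2 - n ^ 2) + 6 * η) -
      4 / 3 * b ^ 2 * p ^ 2 + 72 * b * n ^ 3 := by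
  have hn0 : 0 ≤ n := le_trans (abs_nonneg _) hp
  obtain ⟨hp1, hp2⟩ := abs_le.1 hp
  have hpn : p ^ 2 ≤ n ^ 2 := sq_le_sq' hp1 hp2
  have hn2 : n * n ≤ 1 / 4 * n := by gcongr
  have hn3 : n * n ^ 2 ≤ 1 / 4 * n ^ 2 := by gcongr
  have hn3' : 0 ≤ n ^ 3 := by positivity
  have he : |L - 2 * p| ≤ 33 / 4 * n ^ 2 + 3 * η := by
    rw [abs_le]; constructor <;> linarith only [hη0, hL, hpn, hn3, hn3', sq_nonneg p, sq_nonneg n]
  have hL1 : |L| ≤ 8 / 7 := by
    have := abs_le.1 he
    rw [abs_le]; constructor <;> linarith only [hn, hη0, hL, hp1, hpn, hn2, hn3', hη, hp2, this]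
  refine ⟨hL1, ?_⟩
  have hx : |b * L| ≤ 1 / 8 * (8 / 7) := by rw [abs_mul, abs_of_nonneg hb0]; gcongr
  have h1 := log_one_add_le (s := b * L) (c := 7 / 6) (by norm_num) (by linarith only [hx])
  have h2 : |b * L| ^ 3 ≤ 1 / 8 * (8 / 7) * (b * L) ^ 2 := by
    rw [← sq_abs, pow_succ']; gcongr
  have h3 : 4 * p ^ 2 - 33 * n ^ 3 - 3 * η ≤ L ^ 2 := by
    have h4 : |p * (L - 2 * p)| ≤ n * (33 / 4 * n ^ 2 + 3 * η) := by rw [abs_mul]; gcongr
    have h5 := (abs_le.1 h4).1
    have h6 : n * η ≤ 1 / 4 * η := by gcongr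
    linarith only [h5, h6, sq_nonneg (L - 2 * p)]
  have h5 := mul_le_mul_of_nonneg_left h3 (sq_nonneg b)
  have h6 : b * (b * (11 * n ^ 3 + η)) ≤ 1 * (b * (11 * n ^ 3 + η)) := by gcongr; linarith only [hb]
  have h7 := mul_nonneg hb0 hn3'
  have h8 := mul_nonneg hb0 hη0
  have e1 : b * L = b * (2 * p - (2 * p ^ 2 - n ^ 2)) + 29 * (b * n ^ 3) + 3 * (b * η) := by
    rw [hL]; ring
  linarith only [h1, h2, h5, h6, h7, h8, e1]

lemma major {p n w η R ρ b : ℝ} (hw0 : 0 ≤ w) (hw : w ^ 2 = 1 + 2 * p + n ^ 2) (hp : |p| ≤ n)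
    (hη0 : 0 ≤ η) (hη : η ≤ 1 / 32) (hR : 8 ≤ R) (ha : 8 ≤ Real.log (R ^ 2))
    (hb : b = 1 / Real.log (R ^ 2)) (hρ0 : 0 ≤ ρ) (hρ : ρ ≤ R * (w + η)) :
    ff ρ ≤ ff R + b * (2 * p - (2 * p ^ 2 - n ^ 2) + 6 * η) -
      2 / 3 * b ^ 2 * (2 * p ^ 2 - n ^ 2) - b ^ 2 / 3 * n ^ 2 + 3888 * n ^ 4 := by
  have hn0 : 0 ≤ n := le_trans (abs_nonneg _) hp
  have hb0 : 0 ≤ b := by rw [hb]; positivity
  have hb1 : b ≤ 1 / 8 := by rw [hb]; exact one_div_le_one_div_of_le (by norm_num) ha
  have hlog : ∀ t L, 1 / 2 ≤ t → ρ ≤ R * t → Real.log (t ^ 2) ≤ L → -2 ≤ L →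
      ff ρ ≤ ff R + Real.log (1 + b * L) := by
    intro t L ht h hL hL2
    have h1 : Real.log (max (ρ ^ 2) 16) ≤ Real.log (R ^ 2) + Real.log (t ^ 2) := by
      rw [← Real.log_mul (by positivity) (by positivity), ← mul_pow]
      refine Real.log_le_log (by positivity) (max_le (by gcongr) ?_)
      have : 8 * (1 / 2) ≤ R * t := by gcongr
      calc (16 : ℝ) = (8 * (1 / 2)) ^ 2 := by norm_num
        _ ≤ _ := by gcongr
    have h2 : 0 < 1 + b * L := by linarith only [mul_le_mul_of_nonneg_left hL2 hb0, hb1]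
    have h3 : ff R = Real.log (Real.log (R ^ 2)) := by
      unfold ff; rw [max_eq_left (by linarith only [hR, sq_nonneg (R - 8)])]
    rw [h3, ← Real.log_mul (by linarith only [ha]) h2.ne']
    refine ff_le (le_trans h1 ?_)
    rw [hb]; field_simp; linarith only [hL]
  have key : ff ρ ≤ ff R + (b * (2 * p - (2 * p ^ 2 - n ^ 2) + 6 * η) -
      4 / 3 * b ^ 2 * p ^ 2 + 72 * b * n ^ 3) := by
    rcases le_total n (1 / 4) with hn | hn
    · obtain ⟨h1, h2⟩ := major1 hw0 hw hp hn hη0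
      obtain ⟨h3, h4⟩ := major2 hp hn hη0 hη hb0 hb1 rfl
      have := hlog _ _ (by linarith only [hη0, h1]) hρ h2 (by linarith only [(abs_le.1 h3).1])
      linarith only [h4, this]
    · obtain ⟨hp1, hp2⟩ := abs_le.1 hp
      have hpn : p ^ 2 ≤ n ^ 2 := sq_le_sq' hp1 hp2
      have h1 : w ≤ 1 + n := by apply le_of_sq_le_sq _ (by linarith only [hn]); linarith only [hw, hp2]
      have h3 := Real.log_le_sub_one_of_pos (show 0 < 1 + n + η by positivity)
      have h2 := hlog (1 + n + η) (2 * (n + η)) (by linarith only [hη0, hn]) (le_trans hρ (by gcongr))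
        (by rw [Real.log_pow]; push_cast; linarith only [h3]) (by linarith only [hη0, hn])
      have h5 := Real.log_le_sub_one_of_pos (show 0 < 1 + b * (2 * (n + η)) by positivity)
      have h6 : b * (b * p ^ 2) ≤ b * (1 / 8 * n ^ 2) := by gcongr
      have h7 : b * (2 * (n + η)) ≤
          b * (2 * p - (2 * p ^ 2 - n ^ 2) + 6 * η - n ^ 2 + 72 * n ^ 3) := by
        gcongr
        have : 1 / 4 * n ≤ n * n := by gcongr
        have : 1 / 4 * n ^ 2 ≤ n * n ^ 2 := by gcongr
        linarith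
      have h8 := mul_nonneg hb0 (sq_nonneg n)
      linarith only [h2, h5, h6, h7, h8]
  linarith only [key, sq_nonneg (b * n - 108 * n ^ 2)]

section recur

variable {K : ℝ} {l : ℕ → ℝ} {a : ℕ → ℂ}

lemma drift_num {K R b m ℓ I1 I2 I3 I4 t : ℝ} (hK : 1 ≤ K) (hb0 : 0 ≤ b) (hb : b ≤ 1)
    (hm : 0 ≤ m) (hm' : ℓ / R = m) (h1 : I1 ≤ 2 * K * m) (h2 : |I2| ≤ 4 * K ^ 3 * m)
    (h3 : t - 4 * K ^ 3 * m ≤ I3) (h4 : 3888 * I4 ≤ m) (ht : (40 * K ^ 3 + 2) * m ≤ b ^ 2 / 3 * t) :
    b * (2 * I1 - I2 + ℓ * (6 * (4 * K / R))) - 2 / 3 * b ^ 2 * I2 - b ^ 2 / 3 * I3 +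
      3888 * I4 ≤ -m := by
  have hK3 : K * m ≤ K ^ 3 * m := by gcongr; exact le_self_pow₀ hK (by norm_num)
  have hK0 : 0 ≤ K ^ 3 * m := by positivity
  obtain ⟨h5, h6⟩ := abs_le.1 h2
  have e : ℓ * (6 * (4 * K / R)) = 24 * (K * m) := by rw [← hm']; ring
  have hb2 : b ^ 2 ≤ 1 := pow_le_one₀ hb0 hb
  have h7 : b * (2 * I1 - I2 + 24 * (K * m)) ≤ b * (32 * (K ^ 3 * m)) := by gcongr; linarith only [h1, hK3, h5]
  have h8 : b * (K ^ 3 * m) ≤ 1 * (K ^ 3 * m) := by gcongr
  have h9 : b ^ 2 * (K ^ 3 * m) ≤ 1 * (K ^ 3 * m) := by gcongr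
  have h10 := mul_le_mul_of_nonneg_left h5 (sq_nonneg b)
  have h11 := mul_le_mul_of_nonneg_left h3 (sq_nonneg b)
  rw [e]
  linarith only [h4, ht, hK0, h7, h8, h9, h10, h11]

lemma drift (hl : Lac K l) (hd : Dv a) (ha1 : ∀ j, ‖a j‖ ≤ 1) :
    ∃ R' : ℝ, 0 < R' ∧ ∀ k x ℓ, 1 / l k ≤ ℓ → ℓ ≤ 2 / l k → R' ≤ ‖P l a k x‖ →
      ∃ T : ℕ, ∃ g : ℝ → ℝ, Continuous g ∧
        (∀ y ∈ Icc x (x + ℓ), ∀ ρ, 0 ≤ ρ → ρ ≤ ‖P l a (k + T) y‖ + 2 * K → ff ρ ≤ g y) ∧
        ∫ y in x..x + ℓ, g y ≤ (ff ‖P l a k x‖ - 1 / ‖P l a k x‖) * ℓ := by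
  have hK := hl.hK
  obtain ⟨K', hK'0, hK'⟩ : ∃ K' : ℝ, 1 ≤ K' ∧ 40 * K ^ 3 + 2 ≤ K' / 3 :=
    ⟨3 * (40 * K ^ 3 + 2), by have : 0 ≤ K ^ 3 := by positivity
                              linarith only [this], by linarith only []⟩
  set C : ℝ := 3888 * (9216 * K ^ 4 * 3) * (2 * K') ^ 2 * 2 ^ 4 with hC
  have hC0 : 0 < C := by positivity
  have ev1 := (Real.isLittleO_pow_log_id_atTop (n := 4)).bound (show 0 < 1 / C by positivity)
  have ev2 := Real.tendsto_log_atTop.eventually (eventually_ge_atTop 4)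
  obtain ⟨R', hR'⟩ := eventually_atTop.1
    (ev1.and (ev2.and ((eventually_ge_atTop (128 * K)).and (eventually_ge_atTop 8))))
  refine ⟨max R' 1, by positivity, fun k x ℓ h1 h2 hz => ?_⟩
  obtain ⟨e1, e2, e3, e4⟩ := hR' _ (le_trans (le_max_left _ _) hz)
  set z := P l a k x with hzdef
  set R := ‖z‖ with hR
  have hR0 : 0 < R := by linarith only [hK, e3]
  have hz0 : z ≠ 0 := norm_pos_iff.1 hR0
  have hk := hl.pos k
  have hℓ : 0 < ℓ := lt_of_lt_of_le (by positivity) h1
  have hA : Real.log (R ^ 2) = 2 * Real.log R := by rw [Real.log_pow]; norm_num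
  set A := Real.log (R ^ 2) with hAdef
  have hA8 : 8 ≤ A := by linarith only [e2, hA]
  set b := 1 / A with hb
  have hb0 : 0 ≤ b := by positivity
  obtain ⟨T, hT1, hT2⟩ := hd.cross ha1 k (show 0 ≤ K' * R * A ^ 2 by positivity)
  rw [En_add] at hT1 hT2
  have h4' : 1 * 1 * 1 ^ 2 ≤ K' * R * A ^ 2 := by gcongr <;> linarith only [hK, e3, e2, hA]
  set c : ℕ → ℂ := fun j => z⁻¹ * a (k + j) with hc
  set l' : ℕ → ℝ := fun j => l (k + j) with hl'
  have hL : Lac K l' := hl.shift k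
  have hcn : ∀ j, ‖c j‖ = ‖a (k + j)‖ / R := fun j => by
    rw [hc]; dsimp only; rw [norm_mul, norm_inv, div_eq_inv_mul]
  have hc1 : ∀ j < T, ‖c j‖ ≤ 1 / R := fun j _ => by rw [hcn]; gcongr; exact ha1 _
  have hE : En c T = En (fun j => a (k + j)) T * (1 / R) ^ 2 := by
    unfold En; rw [Finset.sum_mul]
    exact Finset.sum_congr rfl fun j _ => by rw [hcn]; ring
  have hE1 : K' * R * A ^ 2 * (1 / R) ^ 2 ≤ En c T := by rw [hE]; gcongr; linarith only [hT1]
  have hE2 : En c T ≤ 2 * K' * R * A ^ 2 * (1 / R) ^ 2 := by rw [hE]; gcongr; linarith only [hT2, h4']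
  have hζ := P_cont l' c T
  refine ⟨T, fun y => ff R + b * (2 * (P l' c T y).re - (P l' c T y ^ 2).re + 6 * (4 * K / R)) -
    2 / 3 * b ^ 2 * (P l' c T y ^ 2).re - b ^ 2 / 3 * ‖P l' c T y‖ ^ 2 + 3888 * ‖P l' c T y‖ ^ 4,
    by fun_prop, fun y hy ρ hρ0 hρ => ?_, ?_⟩
  · set ζ := P l' c T y with hζy
    have e5 : (ζ ^ 2).re = 2 * ζ.re ^ 2 - ‖ζ‖ ^ 2 := by
      rw [Complex.sq_norm, Complex.normSq_apply, sq, Complex.mul_re]; ring
    have e6 : ‖1 + ζ‖ ^ 2 = 1 + 2 * ζ.re + ‖ζ‖ ^ 2 := by rw [norm_add_sq']; simp; ring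
    dsimp only
    rw [e5]
    refine major (norm_nonneg _) e6 (Complex.abs_re_le_norm _) (by positivity)
      (by rw [div_le_iff₀ hR0]; linarith only [e3]) e4 hA8 rfl hρ0 (le_trans hρ ?_)
    have e7 : P l a (k + T) y = z * (1 + ζ) + (P l a k y - z) := by
      rw [P_add, hζy, hc, P_smul]; field_simp; ring
    have e8 := hl.lip' ha1 (Nat.le_succ k) (x := y) (y := x) (ρ := 2)
      (by rw [abs_of_nonneg (by linarith only [hy.1])]; linarith only [h2, hy.2])
    have e9 := norm_add_le (z * (1 + ζ)) (P l a k y - z)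
    rw [norm_mul, ← e7] at e9
    have e10 : R * (‖1 + ζ‖ + 4 * K / R) = R * ‖1 + ζ‖ + 4 * K := by field_simp
    linarith only [e8, e9, e10]
  · have hi : ∀ f : ℝ → ℝ, Continuous f → IntervalIntegrable f volume x (x + ℓ) :=
      fun f hf => hf.intervalIntegrable _ _
    rw [intervalIntegral.integral_add (hi _ (by fun_prop)) (hi _ (by fun_prop)),
      intervalIntegral.integral_sub (hi _ (by fun_prop)) (hi _ (by fun_prop)),
      intervalIntegral.integral_sub (hi _ (by fun_prop)) (hi _ (by fun_prop)),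
      intervalIntegral.integral_add (hi _ (by fun_prop)) (hi _ (by fun_prop)),
      intervalIntegral.integral_const_mul, intervalIntegral.integral_const_mul,
      intervalIntegral.integral_const_mul, intervalIntegral.integral_const_mul,
      intervalIntegral.integral_add (hi _ (by fun_prop)) (hi _ (by fun_prop)),
      intervalIntegral.integral_sub (hi _ (by fun_prop)) (hi _ (by fun_prop)),
      intervalIntegral.integral_const_mul, intervalIntegral.integral_const,
      intervalIntegral.integral_const, int_re hζ, int_re (by fun_prop)]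
    simp only [smul_eq_mul, add_sub_cancel_left]
    have hl0 : 1 / l' 0 ≤ ℓ := h1
    have hm2 : ∀ D, 0 ≤ D → D * (1 / R) ^ 2 / l' 0 ≤ D * (ℓ / R) := fun D hD => by
      have : 1 / R ≤ 1 := by rw [div_le_one hR0]; linarith only [hK, e3]
      calc _ = D * (1 / l' 0 * (1 / R) * (1 / R)) := by ring
        _ ≤ D * (ℓ * 1 * (1 / R)) := by gcongr
        _ = _ := by ring
    have m1 := le_trans (Complex.re_le_norm _) (M1 hL (by positivity) hc1 x (x + ℓ))
    have m2 := le_trans (Complex.abs_re_le_norm _) (M2 hL (by positivity) hc1 x (x + ℓ))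
    have m3 := (abs_le.1 (M3 hL hc1 x (x + ℓ))).1
    have m4 := M4 hL hE2 (show x ≤ x + ℓ by linarith only [hℓ])
    have m5 := mul_le_mul_of_nonneg_right hE1 hℓ.le
    have m6 := hm2 (4 * K ^ 3) (by positivity)
    rw [add_sub_cancel_left] at m3 m4
    have := drift_num (t := K' * R * A ^ 2 * (1 / R) ^ 2 * ℓ) hK.le hb0 (by
        rw [hb, div_le_one (by linarith only [e2, hA])]; linarith only [e2, hA]) (show 0 ≤ ℓ / R by positivity) rfl
      (le_trans m1 (by
        calc _ = 2 * K * (1 / l' 0 / R) := by ring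
          _ ≤ _ := by gcongr)) (le_trans m2 m6)
      (I3 := ∫ y in x..x + ℓ, ‖P l' c T y‖ ^ 2) (by linarith only [m3, m5, m6])
      (I4 := ∫ y in x..x + ℓ, ‖P l' c T y‖ ^ 4) (by
        have h5 : ℓ + 2 / l' 0 ≤ 3 * ℓ := by
          have : 2 / l' 0 = 2 * (1 / l' 0) := by ring
          linarith only [hl0, this]
        have h6 : Real.log R ^ 4 * C ≤ R := by
          simp only [Real.norm_eq_abs, id] at e1
          rw [abs_of_nonneg (by positivity), abs_of_pos hR0, one_div_mul_eq_div,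
            le_div_iff₀ hC0] at e1
          exact e1
        calc _ ≤ 3888 * (9216 * K ^ 4 * (2 * K' * R * A ^ 2 * (1 / R) ^ 2) ^ 2 * (3 * ℓ)) := by
              gcongr; exact le_trans m4 (by gcongr)
          _ = Real.log R ^ 4 * C * (ℓ / R ^ 2) := by rw [hA, hC]; field_simp
          _ ≤ R * (ℓ / R ^ 2) := by gcongr
          _ = _ := by field_simp)
      (by
        calc _ ≤ K' / 3 * (ℓ / R) := by gcongr
          _ = _ := by rw [hb]; field_simp)
    have e5 : (ff R - 1 / R) * ℓ = ℓ * ff R - ℓ / R := by ring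
    linarith only [this, e5]

/-- Coarse recurrence: almost every orbit returns to a fixed large disc. -/
lemma recur (hl : Lac K l) (hdv : Dv a) (ha1 : ∀ j, ‖a j‖ ≤ 1) :
    ∃ R₀ : ℝ, ∀ k, volume {y | ∀ j ≥ k, R₀ < ‖P l a j y‖} = 0 := by
  have hK := hl.hK
  obtain ⟨R', hR', hd⟩ := drift hl hdv ha1
  refine ⟨R' + 2 * K, ?_⟩
  set Av : ℕ → Set ℝ := fun k => {y | ∀ j ≥ k, R' + 2 * K < ‖P l a j y‖} with hAv
  set Cl : ℝ → Prop := fun μ => ∀ k x ℓ, 1 / l k ≤ ℓ → ℓ ≤ 2 / l k →
    volume.real (Av k ∩ Icc x (x + ℓ)) ≤ μ * (ff ‖P l a k x‖ * ℓ) with hCl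
  have hpos : ∀ k ℓ, 1 / l k ≤ ℓ → 0 < ℓ := fun k ℓ h =>
    lt_of_lt_of_le (by have := hl.pos k; positivity) h
  have triv : ∀ k x ℓ, 0 < ℓ → volume.real (Av k ∩ Icc x (x + ℓ)) ≤ ℓ := fun k x ℓ h => by
    have := measureReal_mono (μ := volume) (inter_subset_right (s := Av k))
      (fin_Icc (Subset.rfl (s := Icc x (x + ℓ))))
    rwa [Real.volume_real_Icc_of_le (by linarith only [h]), add_sub_cancel_left] at this
  have step : ∀ μ, 0 ≤ μ → Cl μ → ∀ k x ℓ, 1 / l k ≤ ℓ → ℓ ≤ 2 / l k → R' ≤ ‖P l a k x‖ →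
      volume.real (Av k ∩ Icc x (x + ℓ)) ≤ μ * ((ff ‖P l a k x‖ - 1 / ‖P l a k x‖) * ℓ) := by
    intro μ hμ hc k x ℓ h1 h2 h3
    obtain ⟨T, g, hg, hg1, hg2⟩ := hd k x ℓ h1 h2 h3
    have hℓ := hpos k ℓ h1
    have hk := hl.pos k
    have hk' := hl.pos (k + T)
    have h4 : 1 ≤ ℓ * l (k + T) := by
      rw [div_le_iff₀ hk] at h1
      exact le_trans h1 (by gcongr; exact hl.mono (by omega))
    set n := ⌊ℓ * l (k + T)⌋₊ with hn
    have hn1 : (1 : ℝ) ≤ n := by exact_mod_cast (Nat.one_le_floor_iff _).2 h4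
    have hn2 : (n : ℝ) ≤ ℓ * l (k + T) := Nat.floor_le (by linarith only [h4])
    have hn3 : ℓ * l (k + T) < n + 1 := Nat.lt_floor_add_one _
    set d := ℓ / n with hd'
    have hnd : n * d = ℓ := by rw [hd']; field_simp
    have hd0 : 0 < d := by positivity
    have hd1 : 1 / l (k + T) ≤ d := by rw [hd', div_le_div_iff₀ hk' (by linarith only [hn1])]; linarith only [hn2]
    have hd2 : d ≤ 2 / l (k + T) := by rw [hd', div_le_div_iff₀ (by linarith only [hn1]) hk']; linarith only [hn1, hn3]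
    have := split (H := Av k) (g := fun y => μ * g y) (by fun_prop) x d n fun i hi => by
      have hi' : (i : ℝ) * d + d ≤ n * d := by
        have : (i : ℝ) + 1 ≤ n := by exact_mod_cast hi
        linarith only [mul_le_mul_of_nonneg_right this hd0.le]
      have hi0 : 0 ≤ (i : ℝ) * d := by positivity
      calc _ ≤ volume.real (Av (k + T) ∩ Icc (x + i * d) (x + i * d + d)) :=
            measureReal_mono (inter_subset_inter_left _ (show Av k ⊆ Av (k + T) from
              fun y hy j hj => hy j (by omega))) (fin_Icc inter_subset_right)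
        _ ≤ μ * (ff ‖P l a (k + T) (x + i * d)‖ * d) := hc _ _ _ hd1 hd2
        _ = ∫ _y in (x + i * d)..(x + i * d + d), μ * ff ‖P l a (k + T) (x + i * d)‖ := by
            rw [intervalIntegral.integral_const, smul_eq_mul]; ring
        _ ≤ _ := by
            refine integral_mono_on (by linarith only [hd0]) (by simp)
              (by apply Continuous.intervalIntegrable; fun_prop) fun y hy => ?_
            refine mul_le_mul_of_nonneg_left (hg1 y ⟨by linarith only [hi0, hy.1], by linarith only [hnd, hi', hy.2]⟩ _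
              (norm_nonneg _) ?_) hμ
            have e8 := hl.lip' ha1 (Nat.le_succ (k + T)) (x := y) (y := x + i * d) (ρ := 2)
              (by rw [abs_of_nonneg (by linarith only [hy.1])]; linarith only [hd2, hy.2])
            have := norm_sub_norm_le (P l a (k + T) (x + i * d)) (P l a (k + T) y)
            rw [norm_sub_rev] at this
            linarith only [e8, this]
    rw [hnd, intervalIntegral.integral_const_mul] at this
    exact le_trans this (by gcongr)
  have iter : ∀ ρ, 1 ≤ ρ → ∀ n : ℕ, Cl (max ((1 - 1 / (ρ * ff ρ)) ^ n) (1 / ff ρ)) := by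
    intro ρ hρ n
    have hf := one_le_ff ρ
    have hδ : 1 / (ρ * ff ρ) ≤ 1 := by
      rw [div_le_one (by positivity)]; exact one_le_mul_of_one_le_of_one_le hρ hf
    have hδ0 : 0 < 1 / (ρ * ff ρ) := by positivity
    induction n with
    | zero =>
      intro k x ℓ h1 h2
      have hℓ := hpos k ℓ h1
      calc _ ≤ 1 * (1 * ℓ) := by simpa only [one_mul] using triv k x ℓ hℓ
        _ ≤ _ := by gcongr; exacts [by simp only [one_div, mul_inv_rev, pow_zero, le_sup_left], one_le_ff _]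
    | succ n ih =>
      intro k x ℓ h1 h2
      have hℓ := hpos k ℓ h1
      have hf' := one_le_ff ‖P l a k x‖
      set μ := max ((1 - 1 / (ρ * ff ρ)) ^ n) (1 / ff ρ) with hμ
      have hμ0 : 0 ≤ μ := le_trans (by positivity) (le_max_right _ _)
      rcases lt_or_ge ‖P l a k x‖ R' with h3 | h3
      · have : Av k ∩ Icc x (x + ℓ) = ∅ := by
          refine eq_empty_of_forall_notMem fun y hy => ?_
          have e8 := hl.lip' ha1 (Nat.le_succ k) (x := y) (y := x) (ρ := 2)
            (by rw [abs_of_nonneg (by linarith only [hy.2.1])]; linarith only [h2, hy.2.2])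
          have := norm_sub_norm_le (P l a k y) (P l a k x)
          have := hy.1 k le_rfl
          linarith
        rw [this, measureReal_empty]
        exact mul_nonneg (le_trans (by positivity) (le_max_right _ _)) (by positivity)
      rcases le_total ρ ‖P l a k x‖ with h4 | h4
      · calc _ ≤ 1 / ff ρ * (ff ρ * ℓ) := by
              rw [← mul_assoc, one_div_mul_cancel (by positivity), one_mul]; exact triv k x ℓ hℓ
          _ ≤ _ := by gcongr; exacts [le_max_right _ _, ff_mono (by linarith only [hρ]) h4]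
      · refine le_trans (step μ hμ0 ih k x ℓ h1 h2 h3) ?_
        have h5 : ff ‖P l a k x‖ - 1 / ‖P l a k x‖ ≤ (1 - 1 / (ρ * ff ρ)) * ff ‖P l a k x‖ := by
          have h6 : 1 / (ρ * ff ρ) * ff ‖P l a k x‖ ≤ 1 / (ρ * ff ρ) * ff ρ := by
            gcongr; exact ff_mono (norm_nonneg _) h4
          have h7 : 1 / (ρ * ff ρ) * ff ρ = 1 / ρ := by field_simp
          have h8 : 1 / ρ ≤ 1 / ‖P l a k x‖ := one_div_le_one_div_of_le (by linarith only [hR', h3]) h4
          linarith only [h6, h7, h8]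
        calc _ ≤ μ * ((1 - 1 / (ρ * ff ρ)) * ff ‖P l a k x‖ * ℓ) := by gcongr
          _ = (1 - 1 / (ρ * ff ρ)) * μ * (ff ‖P l a k x‖ * ℓ) := by ring
          _ ≤ _ := by
            gcongr
            rw [hμ, mul_max_of_nonneg _ _ (by linarith only [hδ]), pow_succ']
            gcongr
            exact mul_le_of_le_one_left (by positivity) (by linarith only [hδ0])
  intro k
  refine measure_null_of_locally_null _ fun x _ => ?_
  have hk := hl.pos k
  have hk' : 0 < 1 / l k := by positivity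
  set x' := x - 1 / l k with hx'
  refine ⟨Av k ∩ Icc x' (x' + 2 / l k), inter_mem_nhdsWithin _ (Icc_mem_nhds (by linarith only [hk']) ?_), ?_⟩
  · have : 2 / l k = 2 * (1 / l k) := by ring
    linarith only [hk', this]
  rw [← measureReal_eq_zero_iff (fin_Icc inter_subset_right)]
  refine le_antisymm (le_of_forall_pos_le_add fun ε hε => ?_) measureReal_nonneg
  have hf := one_le_ff ‖P l a k x'‖
  set D := ff ‖P l a k x'‖ * (2 / l k) with hD
  have hD0 : 0 < D := by positivity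
  obtain ⟨ρ, hρ1, hρ2⟩ := ((ff_top.eventually (eventually_ge_atTop (D / ε))).and
    (eventually_ge_atTop 1)).exists
  have hf := one_le_ff ρ
  obtain ⟨n, hn⟩ := exists_pow_lt_of_lt_one (show 0 < ε / D by positivity)
    (show 1 - 1 / (ρ * ff ρ) < 1 by have : 0 < 1 / (ρ * ff ρ) := by positivity
                                    linarith only [this])
  refine le_trans (iter ρ hρ2 n k x' _ (by gcongr; norm_num) le_rfl) ?_
  rw [zero_add, ← le_div_iff₀ hD0]
  refine max_le hn.le ?_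
  rw [div_le_div_iff₀ (by positivity) hD0]
  rw [div_le_iff₀ hε] at hρ1
  linarith only [hρ1]

end recur

end Pool.Agent.MP_5053af_an.H21

end

-- part MP_5053af_an.H21.Steer
section

/-! Steering, walls and direct hits, with time measured by energy
(walls and the crossing argument follow helper9's file). -/

set_option autoImplicit false

open MeasureTheory Set Filter Topology intervalIntegral Metric

namespace Pool.Agent.MP_5053af_an.H21

/-- Parameters whose partial sums come `r`-close to `F` after time `k`, within energy `A`. -/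
def Hit (l : ℕ → ℝ) (a : ℕ → ℂ) (F : Set ℂ) (r : ℝ) (k : ℕ) (A : ℝ) : Set ℝ :=
  {y | ∃ j, k ≤ j ∧ En a j ≤ En a k + A ∧ ∃ c ∈ F, ‖P l a j y - c‖ < r}

/-- From within distance `R` of `w`, the set `F` is approached with probability `p`. -/
def W (l : ℕ → ℝ) (a : ℕ → ℂ) (F : Set ℂ) (r : ℝ) (w : ℂ) (R A p : ℝ) : Prop :=
  ∀ k x, ‖P l a k x - w‖ ≤ R → TT (Hit l a F r k A) x (8 / l k) p

/-- In a block of energy about `B` the sums move one unit towards any target. -/
def St (l : ℕ → ℝ) (a : ℕ → ℂ) (B R p : ℝ) : Prop :=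
  ∀ k, ∃ j, k ≤ j ∧ En a k + B ≤ En a j ∧ En a j ≤ En a k + (B + 1) ∧ 16 / l j ≤ 7 / l k ∧
    ∀ x w, TT {y | ‖P l a j y - w‖ ≤ max (‖P l a k x - w‖ - 1) R ∧
      ∀ t, k ≤ t → t ≤ j → ‖P l a t y - P l a k y‖ ≤ R} x (1 / l k) p

/-- `F` follows a Lipschitz graph of length `len` issuing from `w` in the direction `u`. -/
def Wall (s : ℝ) (u : ℂ) (F : Set ℂ) (w : ℂ) (len : ℝ) : Prop :=
  ∃ (f : ℝ → ℝ) (β : ℝ), (∀ t t', |f t - f t'| ≤ |t - t'|) ∧ f 0 = 0 ∧ 0 ≤ β ∧ len ≤ β ∧
    (∀ t ∈ Icc 0 β, ∃ c ∈ F, ‖w + u * (t + f t * Complex.I) - c‖ ≤ s) ∧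
    w + u * (β + f β * Complex.I) ∈ F

lemma Hit.mono {l : ℕ → ℝ} {a : ℕ → ℂ} {F : Set ℂ} {r A A' : ℝ} {k k' : ℕ} (hk : k ≤ k')
    (hn : En a k' + A' ≤ En a k + A) : Hit l a F r k' A' ⊆ Hit l a F r k A :=
  fun _ ⟨j, h1, h2, h3⟩ => ⟨j, by omega, by linarith only [hn, h2], h3⟩

lemma glue {G H : Set ℝ} {x t p p₀ : ℝ} (hp : 0 < p) (hG : TT G x (1 / t) p₀)
    (h : ∀ y ∈ G, |y - x| ≤ 1 / t → ∃ δ, 0 < δ ∧ δ ≤ 7 / t ∧ TT H y δ p) :
    TT H x (8 / t) (p * (p₀ / 80)) := by
  have h1 := Loc hp (inter_subset_right (s := G)) fun y hy => h y hy.1 hy.2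
  have h2 := mul_le_mul_of_nonneg_left hG (show 0 ≤ p / 10 by positivity)
  unfold TT
  rw [show 8 / t = 1 / t + 7 / t by ring]
  refine le_trans (le_of_eq ?_) (le_trans h2 h1)
  ring

lemma exists_step {Q : ℕ → Prop} {m n : ℕ} (hm : m ≤ n) (h1 : Q m) (h2 : ¬Q n) :
    ∃ k, m ≤ k ∧ k < n ∧ Q k ∧ ¬Q (k + 1) := by
  induction n, hm using Nat.le_induction with
  | base => exact absurd h1 h2
  | succ n hn ih =>
    by_cases h : Q n
    · exact ⟨n, hn, by omega, h, h2⟩
    · obtain ⟨k, e1, e2, e3⟩ := ih h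
      exact ⟨k, e1, by omega, e3⟩

lemma TT.of_ball {H : Set ℝ} {x δ p : ℝ} (hδ : 0 ≤ δ) (hp : p ≤ 2) (h : closedBall x δ ⊆ H) :
    TT H x δ p := by
  unfold TT
  rw [inter_eq_right.2 h, Real.volume_real_closedBall hδ]
  gcongr

lemma TT.mono' {H H' : Set ℝ} {x δ p : ℝ} (h : TT H x δ p)
    (hH : ∀ y ∈ H, |y - x| ≤ δ → y ∈ H') : TT H' x δ p :=
  le_trans h (measureReal_mono (fun y hy => ⟨hH y hy.1 hy.2, hy.2⟩) (fin_ball inter_subset_right))

/-- Removing an exceptional set. -/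
lemma TT.diff {H H' N : Set ℝ} {x δ p q : ℝ} (h : TT H x δ p) (hN : N ⊆ closedBall x δ)
    (hq : volume.real N ≤ q * δ) (hH : ∀ y ∈ H, |y - x| ≤ δ → y ∉ N → y ∈ H') :
    TT H' x δ (p - q) := by
  have h1 := cover2 (A := H ∩ closedBall x δ) (B := H' ∩ closedBall x δ) (C := N)
    (fun y hy => by
      by_cases e : y ∈ N
      · exact Or.inr e
      · exact Or.inl ⟨hH y hy.1 hy.2 e, hy.2⟩) (fin_ball inter_subset_right) (fin_ball hN)
  unfold TT at *
  linarith only [h, hq, h1]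

section maximal

variable {K : ℝ} {l : ℕ → ℝ}

lemma int4 (hl : Lac K l) (c : ℕ → ℂ) {i j : ℕ} (hij : i ≤ j) {E u v : ℝ}
    (hE : En c j ≤ En c i + E) (huv : u ≤ v) :
    ∫ y in u..v, ‖P l c j y - P l c i y‖ ^ 4 ≤ 9216 * K ^ 4 * E ^ 2 * (v - u + 2 / l i) := by
  obtain ⟨n, rfl⟩ := Nat.exists_eq_add_of_le hij
  simp_rw [P_add, add_sub_cancel_left]
  rw [En_add] at hE
  exact M4 (hl.shift i) (by linarith only [hE]) huv

lemma tail_mk (hl : Lac K l) (c : ℕ → ℂ) {i j : ℕ} (hij : i ≤ j) {E t u v : ℝ}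
    (hE : En c j ≤ En c i + E) (huv : u ≤ v) (ht : 0 < t) :
    volume.real {y ∈ Icc u v | t < ‖P l c j y - P l c i y‖} ≤
      9216 * (K ^ 4 * E ^ 2 / t ^ 4 * (v - u + 2 / l i)) := by
  refine le_trans (markov (f := fun y => ‖P l c j y - P l c i y‖ ^ 4 / t ^ 4) (by fun_prop) huv
    (fun _ _ => by positivity) (sep_subset _ _) fun y hy => ?_) ?_
  · rw [one_le_div (by positivity)]; gcongr; exact hy.2.le
  · rw [intervalIntegral.integral_div]
    calc _ ≤ 9216 * K ^ 4 * E ^ 2 * (v - u + 2 / l i) / t ^ 4 := by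
          gcongr; exact int4 hl c hij hE huv
      _ = _ := by ring

/-- Maximal inequality from the fourth moment, by bisection of the energy. -/
lemma maxi (hl : Lac K l) (c : ℕ → ℂ) {u v : ℝ} (huv : u ≤ v) (n : ℕ) :
    ∀ (i : ℕ) (E t : ℝ), 0 < t → En c (i + n) ≤ En c i + E →
      volume.real {y ∈ Icc u v | ∃ j, i ≤ j ∧ j ≤ i + n ∧ t < ‖P l c j y - P l c i y‖} ≤
        300000000 * (K ^ 4 * E ^ 2 / t ^ 4 * (v - u + 2 / l i)) := by
  have hK := hl.hK
  induction n using Nat.strong_induction_on with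
  | _ n ih =>
  intro i E t ht hE
  have hi := hl.pos i
  have hL : 0 ≤ v - u + 2 / l i := by have : 0 < 2 / l i := by positivity
                                      linarith only [huv, this]
  rcases Nat.eq_zero_or_pos n with rfl | hn
  · rw [show {y ∈ Icc u v | ∃ j, i ≤ j ∧ j ≤ i + 0 ∧ t < ‖P l c j y - P l c i y‖} = ∅ from
      eq_empty_of_forall_notMem fun y ⟨_, j, h1, h2, h3⟩ => by
        rw [le_antisymm h2 h1] at h3; simp at h3; linarith only [ht, h3], measureReal_empty]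
    positivity
  have hE0 : 0 ≤ E := by linarith only [hE, En_mono c (Nat.le_add_right i n)]
  obtain ⟨h, h1, h2, h3, h4⟩ : ∃ h, i ≤ h ∧ h < i + n ∧ En c h ≤ En c i + E / 2 ∧
      En c (i + n) ≤ En c (h + 1) + E / 2 := by
    by_cases hq : En c (i + n) ≤ En c i + E / 2
    · exact ⟨i, le_rfl, by omega, by linarith only [hE0], by linarith only [hq, En_mono c (Nat.le_succ i)]⟩
    · obtain ⟨h, e1, e2, e3, e4⟩ := exists_step (Q := fun m => En c m ≤ En c i + E / 2)
        (Nat.le_add_right i n) (by linarith only [hE, hq]) hq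
      exact ⟨h, e1, e2, e3, by linarith only [hE, e4, not_le.1 e4]⟩
  have a1 := ih (h - i) (by omega) i (E / 2) t ht (by rwa [Nat.add_sub_cancel' h1])
  have a2 := tail_mk hl c (show i ≤ h + 1 by omega) (E := E) (t := t / 10)
    (le_trans (En_mono c (by omega)) hE) huv (by positivity)
  have a3 := ih (i + n - (h + 1)) (by omega) (h + 1) (E / 2) (9 / 10 * t) (by positivity)
    (by rwa [Nat.add_sub_cancel' (by omega)])
  rw [Nat.add_sub_cancel' h1] at a1
  rw [Nat.add_sub_cancel' (show h + 1 ≤ i + n by omega)] at a3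
  have a4 : K ^ 4 * (E / 2) ^ 2 / (9 / 10 * t) ^ 4 * (v - u + 2 / l (h + 1)) ≤
      2500 / 6561 * (K ^ 4 * E ^ 2 / t ^ 4 * (v - u + 2 / l i)) := by
    calc _ ≤ K ^ 4 * (E / 2) ^ 2 / (9 / 10 * t) ^ 4 * (v - u + 2 / l i) := by
          gcongr; exact hl.mono (by omega)
      _ = _ := by field_simp; ring
  have a5 : K ^ 4 * (E / 2) ^ 2 / t ^ 4 * (v - u + 2 / l i) =
      1 / 4 * (K ^ 4 * E ^ 2 / t ^ 4 * (v - u + 2 / l i)) := by ring
  have a6 : K ^ 4 * E ^ 2 / (t / 10) ^ 4 * (v - u + 2 / l i) =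
      10000 * (K ^ 4 * E ^ 2 / t ^ 4 * (v - u + 2 / l i)) := by field_simp; ring
  have a7 : 0 ≤ K ^ 4 * E ^ 2 / t ^ 4 * (v - u + 2 / l i) := by positivity
  refine le_trans (cover2
    (B := {y ∈ Icc u v | ∃ j, i ≤ j ∧ j ≤ h ∧ t < ‖P l c j y - P l c i y‖})
    (C := {y ∈ Icc u v | t / 10 < ‖P l c (h + 1) y - P l c i y‖} ∪
      {y ∈ Icc u v | ∃ j, h + 1 ≤ j ∧ j ≤ i + n ∧ 9 / 10 * t < ‖P l c j y - P l c (h + 1) y‖})
    ?_ (fin_Icc (sep_subset _ _)) (fin_Icc (union_subset (sep_subset _ _) (sep_subset _ _)))) ?_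
  · rintro y ⟨hy, j, e1, e2, e3⟩
    rcases le_or_gt j h with e | e
    · exact Or.inl ⟨hy, j, e1, e, e3⟩
    · by_cases e4 : t / 10 < ‖P l c (h + 1) y - P l c i y‖
      · exact Or.inr (Or.inl ⟨hy, e4⟩)
      · refine Or.inr (Or.inr ⟨hy, j, e, e2, ?_⟩)
        linarith only [e3, e4, norm_sub_le_norm_sub_add_norm_sub (P l c j y) (P l c (h + 1) y) (P l c i y)]
  · have := measureReal_union_le (μ := volume)
      {y ∈ Icc u v | t / 10 < ‖P l c (h + 1) y - P l c i y‖}
      {y ∈ Icc u v | ∃ j, h + 1 ≤ j ∧ j ≤ i + n ∧ 9 / 10 * t < ‖P l c j y - P l c (h + 1) y‖}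
    linarith only [a1, a2, a3, a4, a5, a6, a7, this]

lemma maxb (hl : Lac K l) (c : ℕ → ℂ) {i j : ℕ} (hij : i ≤ j) {E t x ρ : ℝ} (ht : 0 < t)
    (hE : En c j ≤ En c i + E) (hρ : 1 / l i ≤ ρ) :
    volume.real {y ∈ closedBall x ρ | ∃ m, i ≤ m ∧ m ≤ j ∧ t < ‖P l c m y - P l c i y‖} ≤
      1200000000 * K ^ 4 * E ^ 2 / t ^ 4 * ρ := by
  obtain ⟨n, rfl⟩ := Nat.exists_eq_add_of_le hij
  have hi := hl.pos i
  have h0 : 0 < ρ := lt_of_lt_of_le (by positivity) hρ
  rw [Real.closedBall_eq_Icc]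
  refine le_trans (maxi hl c (by linarith only [h0]) n i E t ht hE) ?_
  calc _ ≤ 300000000 * (K ^ 4 * E ^ 2 / t ^ 4 * (4 * ρ)) := by
        gcongr
        have : 2 / l i = 2 * (1 / l i) := by ring
        linarith only [hρ, this]
    _ = _ := by ring

end maximal

lemma tail {K : ℝ} {l : ℕ → ℝ} {c : ℕ → ℂ} (hl : Lac K l) {b : ℕ} {R β ℓ : ℝ} (hR0 : 0 < R)
    (hE : En c b = R ^ 2) (hc' : ∀ j < b, ‖c j‖ ≤ β) (hβ0 : 0 ≤ β) (hβ : β ≤ R)
    (hΛ' : 15360 * K ^ 3 * β ≤ R * (l 0 * ℓ)) (hℓ : 1 ≤ l 0 * ℓ) (x : ℝ) :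
    TT {y | (P l c b y).re < -(R / (16 * (384 * K ^ 2)))} x ℓ (1 / (12 * (384 * K ^ 2) ^ 2)) := by
  have hK := hl.hK
  set s := 384 * K ^ 2 with hs
  have hs0 : 0 < s := by positivity
  have h0 := hl.pos 0
  have hℓ0 : 0 < ℓ := pos_of_mul_pos_left (by linarith only [hℓ]) h0.le
  set A := s * R with hA
  have hA0 : 0 < A := by positivity
  set Λ := R / (16 * s) with hΛdef
  have hΛ : 0 ≤ Λ := by positivity
  have hX := P_cont l c b
  have hre : ∀ z : ℂ, (‖z‖ ^ 2 + (z ^ 2).re) / 2 = z.re ^ 2 ∧ z.re ^ 4 ≤ ‖z‖ ^ 4 := fun z => by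
    constructor
    · rw [Complex.sq_norm, Complex.normSq_apply, sq, Complex.mul_re]; ring
    · rw [← Even.pow_abs (by decide)]; gcongr; exact Complex.abs_re_le_norm _
  have key := pz (f := fun y => (‖P l c b y‖ ^ 2 + (P l c b y ^ 2).re) / 2 -
      A * (P l c b y).re - ‖P l c b y‖ ^ 4 / A ^ 2 - (Λ ^ 2 + A * Λ)) (by fun_prop)
    (show x - ℓ ≤ x + ℓ by linarith only [hℓ0]) (show 0 < 6 * A ^ 2 by positivity)
    (G := {y | (P l c b y).re < -Λ}) (fun y _ => by
      obtain ⟨e1, e2⟩ := hre (P l c b y)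
      rw [e1]
      set t := (P l c b y).re
      have h4 : 4 * t ^ 2 - 4 * A ^ 2 ≤ ‖P l c b y‖ ^ 4 / A ^ 2 := by
        rw [le_div_iff₀ (by positivity)]; linarith only [e2, sq_nonneg (t ^ 2 - 2 * A ^ 2)]
      have : 0 ≤ Λ ^ 2 + A * Λ := by positivity
      linarith only [h4, this, sq_nonneg (t + A), sq_nonneg t, sq_nonneg A]) (fun y _ hy => by
      obtain ⟨e1, e2⟩ := hre (P l c b y)
      rw [e1]
      have ht : -Λ ≤ (P l c b y).re := not_lt.1 hy
      set t := (P l c b y).re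
      have h4 : t ^ 4 / A ^ 2 ≤ ‖P l c b y‖ ^ 4 / A ^ 2 := by gcongr
      have h5 : 0 ≤ t ^ 4 / A ^ 2 := by positivity
      have h6 : 0 ≤ Λ ^ 2 + A * Λ := by positivity
      rcases le_total t 0 with h | h
      · have := mul_le_mul_of_nonneg_left ht hA0.le
        have : t ^ 2 ≤ Λ ^ 2 := sq_le_sq' ht (by linarith only [hΛ, h])
        linarith
      · rcases le_total t A with h' | h'
        · have := mul_le_mul_of_nonneg_right h' h
          linarith only [h4, h5, h6, this]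
        · have : t ^ 2 ≤ t ^ 4 / A ^ 2 := by
            rw [le_div_iff₀ (by positivity)]
            calc _ ≤ t ^ 2 * t ^ 2 := by gcongr
              _ = _ := by ring
          have := mul_nonneg hA0.le h
          linarith)
  have hi : ∀ f : ℝ → ℝ, Continuous f → IntervalIntegrable f volume (x - ℓ) (x + ℓ) :=
    fun f hf => hf.intervalIntegrable _ _
  rw [intervalIntegral.integral_sub (hi _ (by fun_prop)) (hi _ (by fun_prop)),
    intervalIntegral.integral_sub (hi _ (by fun_prop)) (hi _ (by fun_prop)),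
    intervalIntegral.integral_sub (hi _ (by fun_prop)) (hi _ (by fun_prop)),
    intervalIntegral.integral_div, intervalIntegral.integral_div,
    intervalIntegral.integral_add (hi _ (by fun_prop)) (hi _ (by fun_prop)),
    intervalIntegral.integral_const_mul, intervalIntegral.integral_const, int_re hX,
    int_re (by fun_prop), ← Real.closedBall_eq_Icc, smul_eq_mul] at key
  have m1 := le_trans (Complex.re_le_norm _) (M1 hl hβ0 hc' (x - ℓ) (x + ℓ))
  have m2 := (abs_le.1 (le_trans (Complex.abs_re_le_norm _)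
    (M2 hl hβ0 hc' (x - ℓ) (x + ℓ)))).1
  have m3 := (abs_le.1 (M3 hl hc' (x - ℓ) (x + ℓ))).1
  have m4 := M4 hl hE.le (show x - ℓ ≤ x + ℓ by linarith only [hℓ0])
  have e0 : 15360 * K ^ 3 * β / l 0 ≤ R * ℓ := by rw [div_le_iff₀ h0]; linarith only [hΛ']
  have e1 : 4 * K ^ 3 * β ^ 2 / l 0 ≤ R ^ 2 * ℓ / 20 := by
    calc _ = β * (15360 * K ^ 3 * β / l 0) / 3840 := by ring
      _ ≤ R * (R * ℓ) / 20 := by gcongr; norm_num
      _ = _ := by ring
  have e2 : A * (2 * β * (K / l 0)) ≤ R ^ 2 * ℓ / 20 := by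
    calc _ = R * (15360 * K ^ 3 * β / l 0) / 20 := by rw [hA, hs]; ring
      _ ≤ R * (R * ℓ) / 20 := by gcongr
      _ = _ := by ring
  have e3 : 9216 * K ^ 4 * (R ^ 2) ^ 2 * (x + ℓ - (x - ℓ) + 2 / l 0) ≤
      R ^ 2 * ℓ / 4 * A ^ 2 := by
    have : 2 / l 0 ≤ 2 * ℓ := by rw [div_le_iff₀ h0]; linarith only [hℓ]
    calc _ ≤ 9216 * K ^ 4 * (R ^ 2) ^ 2 * (4 * ℓ) := by gcongr; linarith only [this]
      _ = _ := by rw [hA, hs]; ring
  have m4' := le_trans m4 e3
  rw [← div_le_iff₀ (by positivity)] at m4'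
  rw [hE] at m3
  have m5 := mul_le_mul_of_nonneg_left m1 hA0.le
  have m6 : (x + ℓ - (x - ℓ)) * (Λ ^ 2 + A * Λ) ≤ R ^ 2 * ℓ / 7 := by
    have h1 : A * Λ = R ^ 2 / 16 := by rw [hA, hΛdef]; field_simp
    have h2 : Λ ≤ R / 16 := by
      rw [hΛdef]; gcongr
      have : 1 ≤ K ^ 2 := one_le_pow₀ hK.le
      linarith only [this]
    have h3 : Λ ^ 2 ≤ (R / 16) ^ 2 := by gcongr
    calc _ ≤ (2 * ℓ) * (R ^ 2 / 14) := by
          gcongr
          · linarith only []
          · linarith only [h1, h3, sq_nonneg R]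
      _ = _ := by ring
  have m7 : R ^ 2 * ℓ / 2 ≤ 6 * A ^ 2 * volume.real
      ({y | (P l c b y).re < -Λ} ∩ closedBall x ℓ) := by
    have : 0 ≤ R ^ 2 * ℓ := by positivity
    linarith only [key, m2, m3, e1, e2, m4', m5, m6, this]
  unfold TT
  refine le_of_mul_le_mul_left (le_trans (le_of_eq ?_) m7) (by positivity)
  rw [hA]; field_simp; ring

/-- One block moves the sum towards any target, by an amount proportional to the root of its
energy, with a probability that depends only on `K`. -/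
lemma move {K : ℝ} (hK : 1 < K) : ∃ c C Λ p : ℝ, 0 < c ∧ c ≤ 1 ∧ 1 ≤ C ∧ 1 ≤ Λ ∧ 0 < p ∧ p ≤ 1 ∧
    ∀ (l : ℕ → ℝ) (a : ℕ → ℂ), Lac K l → ∀ (i j : ℕ) (R β ℓ ω x : ℝ) (w : ℂ), i ≤ j → 0 < R →
      En a j = En a i + R ^ 2 → (∀ t, i ≤ t → t < j → ‖a t‖ ≤ β) → 0 ≤ β → β ≤ R →
      Λ * β ≤ R * (l i * ℓ) → 1 ≤ l i * ℓ →
      (∀ y, |y - x| ≤ ℓ → ‖P l a i y - P l a i x‖ ≤ ω) →
      TT {y | ‖P l a j y - w‖ ≤ max (‖P l a i x - w‖ - c * R) (C * R) + ω ∧
        ∀ t, i ≤ t → t ≤ j → ‖P l a t y - P l a i y‖ ≤ C * R} x ℓ p := by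
  have hK2 : 1 ≤ K ^ 2 := one_le_pow₀ hK.le
  set s := 384 * K ^ 2 with hs
  set D := 20000 * K ^ 2 with hD
  have hs1 : 1 ≤ s := by linarith only [hK2]
  have hD1 : 1 ≤ D := by linarith only [hK2]
  have hC : 16 * s * D ^ 2 + D ≤ 17 * s * D ^ 2 := by
    have : 1 * D ≤ s * D ^ 2 := by gcongr; exact le_self_pow₀ hD1 (by norm_num)
    linarith only [this]
  have hC0 : 0 ≤ 16 * s * D ^ 2 := by positivity
  refine ⟨1 / (32 * s), 17 * s * D ^ 2, 15360 * K ^ 3, 1 / (24 * s ^ 2), by positivity,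
    by rw [div_le_one (by positivity)]; linarith only [hK2], by linarith only [hK2, hC],
    by linarith only [one_le_pow₀ (n := 3) hK.le], by positivity,
    by rw [div_le_one (by positivity)]; linarith only [one_le_pow₀ (n := 2) hs1],
    fun l a hl i j R β ℓ ω x w hij hR hE hβ hβ0 hβR hΛ hℓ hω => ?_⟩
  have hi := hl.pos i
  obtain ⟨n, rfl⟩ := Nat.exists_eq_add_of_le hij
  set z := P l a i x - w with hz
  obtain ⟨u, hu, huz⟩ := Complex.exists_norm_eq_mul_self z
  have hun : ∀ j, ‖u * a (i + j)‖ = ‖a (i + j)‖ := fun j => by rw [norm_mul, hu, one_mul]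
  have h1 := tail (hl.shift i) (c := fun j => u * a (i + j)) (b := n) hR (by
    rw [En_add, add_right_inj] at hE
    rw [← hE]; unfold En; simp_rw [hun]) (fun j hj => by
      rw [hun]; exact hβ _ (by omega) (by omega)) hβ0 hβR hΛ hℓ x
  have h2 := maxb hl a hij (t := D * R) (x := x) (by positivity) hE.le
    (show 1 / l i ≤ ℓ by rw [div_le_iff₀ hi]; linarith only [hℓ])
  have hℓ0 : 0 < ℓ := pos_of_mul_pos_left (by linarith only [hℓ]) hi.le
  have h3 : 1200000000 * K ^ 4 * (R ^ 2) ^ 2 / (D * R) ^ 4 ≤ 1 / (24 * s ^ 2) := by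
    rw [div_le_div_iff₀ (by positivity) (by positivity), hs, hD]
    have : 0 ≤ K ^ 8 * R ^ 4 := by positivity
    linarith only [this]
  have h4 := h1.diff (sep_subset _ _) (le_trans h2 (mul_le_mul_of_nonneg_right h3 hℓ0.le))
    (H' := {y | ‖P l a (i + n) y - w‖ ≤ max (‖z‖ - 1 / (32 * s) * R) (17 * s * D ^ 2 * R) + ω ∧
        ∀ t, i ≤ t → t ≤ i + n → ‖P l a t y - P l a i y‖ ≤ 17 * s * D ^ 2 * R})
    fun y hy hyx hN => by
      have e1 : ∀ t, i ≤ t → t ≤ i + n → ‖P l a t y - P l a i y‖ ≤ D * R := fun t e1 e2 =>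
        not_lt.1 fun e => hN ⟨hyx, t, e1, e2, e⟩
      have e0 : D * R ≤ 17 * s * D ^ 2 * R := by gcongr; linarith only [hK2, hC]
      refine ⟨?_, fun t e2 e3 => le_trans (e1 t e2 e3) e0⟩
      set X := P (fun j => l (i + j)) (fun j => a (i + j)) n y with hX
      have e2 : ‖X‖ ≤ D * R := by
        have := e1 (i + n) (by omega) le_rfl
        rwa [P_add, add_sub_cancel_left] at this
      have e3 : (u * X).re < -(R / (16 * s)) := by rw [hX, ← P_smul]; exact hy
      have e4 : P l a (i + n) y - w = z + X + (P l a i y - P l a i x) := by rw [P_add, hz]; ring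
      rw [e4]
      refine le_trans (norm_add_le _ _) (add_le_add ?_ (hω y hyx))
      rcases le_total ‖z‖ (16 * s * D ^ 2 * R) with h | h
      · refine le_trans (norm_add_le _ _) (le_trans ?_ (le_max_right _ _))
        linarith only [e2, h, mul_le_mul_of_nonneg_right hC hR.le]
      · refine le_trans ?_ (le_max_left _ _)
        have e5 : ‖z + X‖ ^ 2 = ‖X‖ ^ 2 + ‖z‖ ^ 2 + 2 * (‖z‖ * (u * X).re) := by
          rw [← one_mul ‖z + X‖, ← hu, ← norm_mul, mul_add, ← huz, add_comm, norm_add_sq',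
            norm_mul, hu, one_mul, Complex.conj_ofReal, Complex.re_mul_ofReal, Complex.norm_real,
            norm_norm, mul_comm (u * X).re]
        have e6 : ‖X‖ ^ 2 ≤ (D * R) ^ 2 := by gcongr
        have e7 := mul_le_mul_of_nonneg_left e3.le (norm_nonneg z)
        have e8 : (D * R) ^ 2 ≤ ‖z‖ * (R / (16 * s)) := by
          calc _ = 16 * s * D ^ 2 * R * (R / (16 * s)) := by field_simp
            _ ≤ _ := by gcongr
        have e9 : 1 / (32 * s) * R ≤ ‖z‖ := by
          refine le_trans ?_ h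
          gcongr
          rw [div_le_iff₀ (by positivity)]
          calc (1 : ℝ) ≤ 16 * 1 * 1 ^ 2 * (32 * 1) := by norm_num
            _ ≤ _ := by gcongr
        have e10 : R / (16 * s) = 2 * (1 / (32 * s) * R) := by field_simp; norm_num
        apply le_of_sq_le_sq _ (by linarith only [e9])
        rw [e10] at e7 e8
        linarith only [e5, e6, e7, e8, sq_nonneg (1 / (32 * s) * R)]
  exact h4.mono Subset.rfl (le_of_eq (by rw [hs]; field_simp; ring)) hℓ0.le

section wall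

variable {K : ℝ} {l : ℕ → ℝ} {a : ℕ → ℂ}

lemma scale_le (hl : Lac K l) {k j : ℕ} {ρ ρ' : ℝ} (hρ' : 0 < ρ') (hρ : 0 ≤ ρ)
    (h : k + K * (ρ / ρ') ≤ j) : ρ / l j ≤ ρ' / l k := by
  have hK := hl.hK
  have hk := hl.pos k
  have h0 : 0 ≤ K * (ρ / ρ') := by positivity
  obtain ⟨n, rfl⟩ := Nat.exists_eq_add_of_le (show k ≤ j by exact_mod_cast (by linarith only [h, h0] : (k : ℝ) ≤ j))
  have h1 := hl.grow k n
  have h2 : ρ / ρ' ≤ n / K := by
    rw [le_div_iff₀ (by linarith only [hK])]; push_cast at h; linarith only [h]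
  rw [div_le_div_iff₀ (hl.pos _) hk]
  calc _ = ρ' * (ρ / ρ' * l k) := by field_simp
    _ ≤ ρ' * ((1 + n / K) * l k) := by gcongr; linarith only [h2]
    _ ≤ _ := by gcongr

lemma idx_ge (ha1 : ∀ j, ‖a j‖ ≤ 1) {k j : ℕ} (hkj : k ≤ j) {t : ℝ} (h : En a k + t ≤ En a j) :
    k + t ≤ j := by
  obtain ⟨n, rfl⟩ := Nat.exists_eq_add_of_le hkj
  have := En_step ha1 k n
  push_cast; linarith only [h, this]

lemma steer (hl : Lac K l) (hd : Dv a) (ha1 : ∀ j, ‖a j‖ ≤ 1) :
    ∃ B R p : ℝ, 0 < p ∧ p ≤ 1 ∧ 1 ≤ B ∧ 0 ≤ R ∧ Real.exp (-(B / (16 * K))) ≤ p / 160 ∧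
      St l a B R p := by
  have hK := hl.hK
  obtain ⟨c, C, Λ, p, hc, _, hC, hΛ, hp, hp1, h⟩ := move hK
  obtain ⟨B, b1, b2, b3, b4⟩ : ∃ B : ℝ, 3 * K ≤ B ∧ ((K + 1) / c) ^ 2 ≤ B ∧ Λ ^ 2 ≤ B ∧
      -(16 * K * Real.log (p / 160)) ≤ B := by
    have T := fun c : ℝ => eventually_ge_atTop c
    exact ((T _).and ((T _).and ((T _).and (T _)))).exists
  refine ⟨B, C * (B + 1) + K, p, hp, hp1, by linarith only [hK, b1], by
    have : 0 ≤ C * (B + 1) := mul_nonneg (by linarith only [hC]) (by linarith only [hK, b1])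
    linarith only [hK, this], ?_, fun k => ?_⟩
  · rw [← Real.le_log_iff_exp_le (by positivity), neg_le, le_div_iff₀ (by positivity)]; linarith only [b4]
  obtain ⟨n, h1, h2⟩ := hd.cross ha1 k (show 0 ≤ B by linarith only [hK, b1])
  have hk := hl.pos k
  refine ⟨k + n, by omega, h1, by linarith only [h2], scale_le hl (by norm_num) (by norm_num) (by
    linarith only [hK, b1, idx_ge ha1 (Nat.le_add_right k n) h1]), fun x w => ?_⟩
  obtain ⟨R, hR0, hR⟩ : ∃ R, 0 ≤ R ∧ R ^ 2 = En a (k + n) - En a k :=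
    ⟨√_, Real.sqrt_nonneg _, Real.sq_sqrt (by linarith only [hK, b1, h1])⟩
  have r1 : 1 ≤ R := le_of_sq_le_sq (by linarith only [hK, b1, h1, hR]) hR0
  have r2 : Λ ≤ R := le_of_sq_le_sq (by linarith only [b3, h1, hR]) hR0
  have r3 : (K + 1) / c ≤ R := le_of_sq_le_sq (by linarith only [b2, h1, hR]) hR0
  have r4 : C * R ≤ C * (B + 1) := by
    gcongr; linarith only [h2, hR, le_self_pow₀ r1 (show 2 ≠ 0 by norm_num)]
  rw [div_le_iff₀ hc] at r3
  have e : l k * (1 / l k) = 1 := by field_simp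
  refine (h l a hl k (k + n) R 1 (1 / l k) (1 * K * 1) x w (by omega) (by linarith only [r1]) (by linarith only [hR])
    (fun t _ _ => ha1 t) zero_le_one r1 (by rw [e]; linarith only [r2]) e.ge
    fun y hy => hl.lip' ha1 (Nat.le_succ k) hy).mono ?_ le_rfl (by positivity)
  rintro y ⟨e1, e2⟩
  refine ⟨le_trans e1 ?_, fun t e3 e4 => by linarith only [hK, r4, e2 t e3 e4]⟩
  rw [← max_add_add_right]
  exact max_le_max (by linarith only [r3]) (by linarith only [r4])

variable {B R₁ p₀ : ℝ}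

lemma up1 (hs : St l a B R₁ p₀) {F : Set ℂ} {r p A R R' : ℝ} {w : ℂ} (hp : 0 < p)
    (h : ∀ k x, ‖P l a k x - w‖ ≤ R' → ∃ δ, 0 < δ ∧ δ ≤ 16 / l k ∧ TT (Hit l a F r k A) x δ p)
    (h1 : R - 1 ≤ R') (h2 : R₁ ≤ R') : W l a F r w R (A + (B + 1)) (p * (p₀ / 80)) := by
  intro k x hx
  obtain ⟨j, j1, _, j3, j4, hj⟩ := hs k
  refine glue hp (hj x w) fun y hy _ => ?_
  obtain ⟨δ, e1, e2, e3⟩ := h j y (le_trans hy.1 (max_le (by linarith only [h1, hx]) h2))
  exact ⟨δ, e1, le_trans e2 j4, e3.mono (Hit.mono j1 (by linarith only [j3])) le_rfl e1.le⟩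

lemma upgrade (hl : Lac K l) (hp₀ : 0 < p₀) (hs : St l a B R₁ p₀) {F : Set ℂ}
    {r p A : ℝ} {w : ℂ} (hp : 0 < p) (h : W l a F r w R₁ A p) (m : ℕ) :
    W l a F r w (R₁ + m) (A + m * (B + 1)) (p * (p₀ / 80) ^ m) := by
  induction m with
  | zero => simpa using h
  | succ m ih =>
    have := up1 hs (R := R₁ + (m + 1 : ℕ)) (by positivity) (fun k x hx => ⟨8 / l k,
      by have := hl.pos k; positivity, by have := hl.pos k; gcongr; norm_num, ih k x hx⟩)
      (by push_cast; linarith only []) (by linarith only [Nat.cast_nonneg (α := ℝ) m])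
    rwa [add_assoc A, ← add_one_mul, ← Nat.cast_succ, mul_assoc, ← pow_succ] at this

/-- The sums can be kept in a fixed disc at a fixed cost per block. -/
lemma confine (hl : Lac K l) (ha1 : ∀ j, ‖a j‖ ≤ 1) (hp₀ : 0 < p₀) (hB : 1 ≤ B)
    (hs : St l a B R₁ p₀) (w : ℂ) (k' m : ℕ) : ∀ k x, ‖P l a k x - w‖ ≤ R₁ →
      En a k' ≤ En a k + m * B → TT {y | ∀ t, k ≤ t → t ≤ k' → ‖P l a t y - w‖ ≤ 2 * R₁ + 9 * K}
        x (8 / l k) ((p₀ / 80) ^ (m + 1)) := by
  induction m with
  | zero => ?_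
  | succ m ih => ?_
  all_goals
    intro k x hx hE
    obtain ⟨j, j1, j2, _, j4, hj⟩ := hs k
    have hj0 := hl.pos j
    rw [pow_succ]
    refine glue (by positivity) (hj x w) fun y hy hyx => ⟨8 / l j, by positivity,
      le_trans (by gcongr; norm_num) j4, ?_⟩
    have key : ∀ z, |z - y| ≤ 8 / l j → ∀ t, k ≤ t → t ≤ j → ‖P l a t z - w‖ ≤ 2 * R₁ + 9 * K :=
      fun z hz t e1 e2 => by
        linarith only [hx, hl.lip' ha1 (show t ≤ j + 1 by omega) hz, hy.2 t e1 e2,
          hl.lip' ha1 (Nat.le_succ k) hyx,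
          norm_sub_le_norm_sub_add_norm_sub (P l a t z) (P l a t y) w,
          norm_sub_le_norm_sub_add_norm_sub (P l a t y) (P l a k y) w,
          norm_sub_le_norm_sub_add_norm_sub (P l a k y) (P l a k x) w]
  · refine TT.of_ball (by positivity) (by norm_num) fun z hz t e1 e2 => key z hz t e1 ?_
    by_contra hc
    have := En_mono a (show j ≤ k' by omega)
    simp only [Nat.cast_zero, zero_mul] at hE
    linarith only [hB, j2, this, hE]
  · refine (ih j y (le_trans hy.1 (max_le (by linarith only [hx]) le_rfl))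
      (by push_cast at hE; linarith only [j2, hE])).mono' fun z hz hzy t e1 e2 => ?_
    rcases le_total t j with e | e
    · exact key z hzy t e1 e
    · exact hz t e e2

lemma phase (c : ℂ) {t : ℝ} (ht : 0 < t) (y : ℝ) :
    ∃ y', |y' - y| ≤ 13 / 2 / t ∧ (c * ex (t * y')).re = 0 ∧ (c * ex (t * y')).im ≤ 0 := by
  have hpi := Real.pi_pos
  set θ := -(Real.pi / 2) - c.arg with hθ
  set m := ⌊(t * y - θ) / (2 * Real.pi)⌋ with hm
  have h1 := Int.floor_le ((t * y - θ) / (2 * Real.pi))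
  have h2 := Int.lt_floor_add_one ((t * y - θ) / (2 * Real.pi))
  rw [le_div_iff₀ (by positivity)] at h1
  rw [div_lt_iff₀ (by positivity)] at h2
  have e : c * ex (t * ((θ + m * (2 * Real.pi)) / t)) = ‖c‖ * -Complex.I := by
    rw [mul_div_cancel₀ _ ht.ne']
    conv_lhs => rw [← Complex.norm_mul_exp_arg_mul_I c]
    rw [mul_assoc, ← Complex.exp_neg_pi_div_two_mul_I, ← mul_one (Complex.exp (- _ / 2 * _)),
      ← Complex.exp_int_mul_two_pi_mul_I m, ex, ← Complex.exp_add, ← Complex.exp_add, hθ]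
    congr 2; push_cast; ring
  refine ⟨(θ + m * (2 * Real.pi)) / t, ?_, by rw [e]; simp, by rw [e]; simp only [mul_neg, Complex.neg_im, Complex.mul_im, Complex.ofReal_re, Complex.I_im, mul_one, Complex.ofReal_im, Complex.I_re, mul_zero, add_zero, Left.neg_nonpos_iff, norm_nonneg]⟩
  have e2 : (θ + m * (2 * Real.pi)) / t - y = (θ + m * (2 * Real.pi) - t * y) / t := by field_simp
  rw [e2, abs_div, abs_of_pos ht]
  gcongr
  rw [abs_le]
  constructor <;> linarith only [h2, h1, Real.pi_lt_d2]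

lemma W.move {F : Set ℂ} {r R R' p A : ℝ} {w w' : ℂ} (h : W l a F r w' R' A p)
    (hw : ‖w - w'‖ + R ≤ R') : W l a F r w R A p := fun k x hx =>
  h k x (by linarith only [hw, hx, norm_sub_le_norm_sub_add_norm_sub (P l a k x) w w'])

lemma norm_pt (x y : ℝ) : ‖(x : ℂ) + y * Complex.I‖ ≤ |x| + |y| := by
  refine le_trans (norm_add_le _ _) (le_of_eq ?_); simp

/-- A long wall is hit with positive probability. -/
lemma cross (hl : Lac K l) (ha1 : ∀ j, ‖a j‖ ≤ 1) (hB : 1 ≤ B) (hp₀ : 0 < p₀) (hp₁ : p₀ ≤ 1)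
    (hR₁ : 0 ≤ R₁) (hs : St l a B R₁ p₀) :
    ∃ L n : ℝ, 0 ≤ n ∧ ∀ s, 0 < s → s ≤ 1 → ∃ p, 0 < p ∧ ∀ u F w r, ‖u‖ = 1 → 2 * s ≤ r →
      Wall s u F w (2 * L) → W l a F r w R₁ n p := by
  have hK := hl.hK
  obtain ⟨m₀, hm₀⟩ := exists_nat_ge (2 * (2 * R₁ + 1))
  set L : ℝ := R₁ + m₀ + R₁ + 8 * K with hL
  have hm0 : (0 : ℝ) ≤ m₀ := Nat.cast_nonneg _
  have hL0 : 0 ≤ L := by positivity
  obtain ⟨m₁, hm₁⟩ := exists_nat_ge (2 * L + (2 * R₁ + 1))
  refine ⟨L, m₀ * (B + 1) + m₁ * (B + 1), by positivity, fun s hs0 hs1 => ⟨s / (7 * K) * (p₀ / 80) ^ m₀ * (p₀ / 80) ^ m₁,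
    by positivity, fun u F w r hu hr ⟨f, β, hf, hf0, _, hβ, hF, _⟩ => ?_⟩⟩
  have hfc : Continuous f := (LipschitzWith.of_dist_le_mul (K := 1) fun t t' => by
    simpa [Real.dist_eq] using hf t t').continuous
  set v : ℂ → ℂ := fun z => (starRingEnd ℂ) u * (z - w) with hv
  have huu : u * (starRingEnd ℂ) u = 1 := by rw [Complex.mul_conj, Complex.normSq_eq_norm_sq, hu]; simp
  have hv1 : ∀ z, w + u * v z = z := fun z => by rw [hv, ← mul_assoc, huu]; ring
  have hv2 : ∀ q, v (w + u * q) = q := fun q => by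
    rw [hv]; dsimp only; rw [add_sub_cancel_left, ← mul_assoc, mul_comm _ u, huu, one_mul]
  have hv3 : ∀ z z', ‖v z - v z'‖ = ‖z - z'‖ := fun z z' => by
    rw [hv]; dsimp only; rw [← mul_sub, norm_mul, Complex.norm_conj, hu]; simp
  set φ : ℂ → ℝ := fun z => (v z).im - f (v z).re with hφ
  have hφc : Continuous φ := by rw [hφ, hv]; fun_prop
  have hφ1 : ∀ z z', |φ z - φ z'| ≤ 2 * ‖z - z'‖ := fun z z' => by
    have h1 := Complex.abs_im_le_norm (v z - v z')
    have h2 := le_trans (hf _ _) (Complex.abs_re_le_norm (v z - v z'))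
    rw [hv3, abs_le] at h1 h2
    rw [Complex.sub_im] at h1
    rw [abs_le, hφ]; constructor <;> linarith only [h1.1, h1.2, h2.1, h2.2]
  have hφ2 : ∀ τ : ℝ, φ (w + u * (L + (f L + τ : ℝ) * Complex.I)) = τ := fun τ => by
    rw [hφ]; dsimp only; rw [hv2]; simp
  set wp := w + u * (L + (f L + (2 * R₁ + 1) : ℝ) * Complex.I) with hwp
  -- a sign change of `φ` produces a hit
  have zero : ∀ k n j j' y y', k ≤ j' → En a j' ≤ En a k + n → j' ≤ j + 1 → |y' - y| ≤ 13 / 2 / l j →
      ‖P l a j' y - wp‖ ≤ L - 7 * K → (0 : ℝ) ∈ uIcc (φ (P l a j' y)) (φ (P l a j' y')) →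
      TT (Hit l a F r k n) y (7 / l j) (s / (7 * K)) := by
    intro k n j j' y y' h1 h2 h3 h4 h5 h6
    have hj := hl.pos j
    obtain ⟨z, hz, hz0⟩ := intermediate_value_uIcc (f := fun y => φ (P l a j' y))
      (by fun_prop) h6
    have h7 := le_trans (abs_sub_left_of_mem_uIcc hz) h4
    have h8 := hl.lip' ha1 h3 h7
    have h9 := le_trans (Complex.abs_re_le_norm (v (P l a j' z) - v wp)) (le_trans
      (hv3 _ _).le (norm_sub_le_norm_sub_add_norm_sub _ (P l a j' y) _))
    rw [hwp, hv2, ← hwp, abs_le] at h9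
    simp only [Complex.sub_re, Complex.add_re, Complex.ofReal_re, Complex.mul_re, Complex.I_re,
      Complex.ofReal_im, Complex.I_im, mul_zero, mul_one, sub_zero, add_zero] at h9
    obtain ⟨c, hc, hc'⟩ := hF (v (P l a j' z)).re ⟨by linarith only [hK, h5, h8, h9.1], by linarith only [hK, hβ, h5, h8, h9.2]⟩
    rw [← sub_eq_zero.1 hz0, Complex.re_add_im, hv1] at hc'
    have h10 : s / (2 * K) ≤ 1 / 2 := by rw [div_le_div_iff₀ (by positivity) (by norm_num)]; linarith only [hK, hs1]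
    have h14 : s / (7 * K) * (7 / l j) = volume.real (closedBall z (s / (2 * K) / l j)) := by
      rw [Real.volume_real_closedBall (by positivity)]; field_simp
    refine le_trans h14.le (measureReal_mono (fun y'' hy => mem_inter ⟨j', h1, h2, c, hc, ?_⟩ ?_)
      (fin_ball inter_subset_right))
    · have := hl.lip' ha1 h3 (mem_closedBall.1 hy)
      rw [show 1 * K * (s / (2 * K)) = s / 2 by field_simp] at this
      linarith only [hs0, hr, hc', this, norm_sub_le_norm_sub_add_norm_sub (P l a j' y'') (P l a j' z) c]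
    · have h11 : s / (2 * K) / l j ≤ 1 / 2 / l j := by gcongr
      have h12 : 7 / l j = 1 / 2 / l j + 13 / 2 / l j := by ring
      have := abs_sub_le y'' z y
      have h13 : |y'' - z| ≤ _ := mem_closedBall.1 hy
      rw [mem_closedBall, Real.dist_eq]; linarith only [h7, h11, h12, this, h13]
  have main : ∀ m : ℕ, m ≤ m₀ → ∀ k x, φ (P l a k x) < 0 → ‖P l a k x - wp‖ ≤ R₁ + m →
      TT (Hit l a F r k (m * (B + 1))) x (8 / l k) (s / (7 * K) * (p₀ / 80) ^ m) := by
    intro m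
    induction m with
    | zero =>
      intro _ k x h1 h2
      have := (abs_le.1 (hφ1 (P l a k x) wp)).1
      rw [hwp, hφ2, ← hwp] at this
      simp only [Nat.cast_zero, add_zero] at h2
      linarith only [h1, this, h2]
    | succ m ih =>
      intro hm k x h1 h2
      have hm' : (m : ℝ) + 1 ≤ m₀ := by exact_mod_cast hm
      have hk := hl.pos k
      push_cast at h2
      rw [pow_succ, ← mul_assoc]
      have hpm : s / (7 * K) * (p₀ / 80) ^ m ≤ s / (7 * K) :=
        mul_le_of_le_one_right (by positivity) (pow_le_one₀ (by positivity) (by linarith only [hp₁]))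
      obtain ⟨j, j1, _, j3, j4, hj⟩ := hs k
      obtain ⟨b, rfl⟩ := Nat.exists_eq_add_of_le j1
      have hm0' : 0 ≤ (m : ℝ) * (B + 1) := by positivity
      refine glue (by positivity) (hj x wp) fun y hy hyx => ?_
      by_cases h3 : φ (P l a (k + b) y) < 0
      · have := hl.pos (k + b)
        refine ⟨8 / l (k + b), by positivity, le_trans (by gcongr; norm_num) j4, ?_⟩
        refine (ih (by omega) (k + b) y h3 (le_trans hy.1 (max_le ?_ ?_))).mono
          (Hit.mono (by omega) ?_) le_rfl (by positivity)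
        · linarith only [h2]
        · linarith only [Nat.cast_nonneg (α := ℝ) m]
        · push_cast; linarith only [j3]
      have hpos : ∀ i ≤ b, ‖P l a (k + i) y - wp‖ ≤ L - 7 * K := fun i hi => by
        linarith only [hm', h2, hl.lip' ha1 (Nat.le_succ k) hyx, hy.2 (k + i) (by omega) (by omega),
          norm_sub_le_norm_sub_add_norm_sub (P l a (k + i) y) (P l a k y) wp,
          norm_sub_le_norm_sub_add_norm_sub (P l a k y) (P l a k x) wp]
      have hmb : ∀ i ≤ b, En a (k + i) ≤ En a k + (m + 1 : ℕ) * (B + 1) := fun i hi => by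
        have := En_mono a (show k + i ≤ k + b by omega)
        push_cast; linarith only [j3, hm0', this]
      by_cases h4 : φ (P l a k y) < 0
      swap
      · refine ⟨7 / l k, by positivity, le_rfl, (zero k _ k k y x le_rfl (hmb 0 (by omega)) (by omega) ?_
          (hpos 0 (by omega)) (mem_uIcc_of_ge h1.le (not_lt.1 h4))).mono Subset.rfl hpm
          (by positivity)⟩
        rw [abs_sub_comm]; exact le_trans hyx (by gcongr; norm_num)
      obtain ⟨i, hi, h5, h6⟩ : ∃ i < b, φ (P l a (k + i) y) < 0 ∧ 0 ≤ φ (P l a (k + i + 1) y) := by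
        by_contra hcon
        push Not at hcon
        have : ∀ i ≤ b, φ (P l a (k + i) y) < 0 := fun i hi => by
          induction i with
          | zero => exact h4
          | succ i ih => exact hcon i (by omega) (ih (by omega))
        exact h3 (this b le_rfl)
      have hj := hl.pos (k + i)
      obtain ⟨y', e1, e2, e3⟩ := phase ((starRingEnd ℂ) u * a (k + i)) hj y
      refine ⟨7 / l (k + i), by positivity, by gcongr; exact hl.mono (by omega),
        TT.mono ?_ Subset.rfl hpm (by positivity)⟩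
      by_cases h7 : φ (P l a (k + i) y') < 0
      · refine zero k _ (k + i) (k + i + 1) y y' (by omega) (hmb (i + 1) (by omega)) le_rfl e1
          (hpos (i + 1) (by omega)) (mem_uIcc_of_ge ?_ h6)
        have e4 : v (P l a (k + i + 1) y') = v (P l a (k + i) y') +
            (starRingEnd ℂ) u * a (k + i) * ex (l (k + i) * y') := by rw [P_succ, hv]; ring
        rw [hφ] at h7 ⊢
        dsimp only at h7 ⊢
        rw [e4, Complex.add_re, Complex.add_im, e2, add_zero]; linarith only [e3, h7]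
      · exact zero k _ (k + i) (k + i) y y' (by omega) (hmb i hi.le) (by omega) e1
          (hpos i hi.le) (mem_uIcc_of_le h5.le (not_lt.1 h7))
  set wm := w + u * (L + (f L + -(2 * R₁ + 1) : ℝ) * Complex.I) with hwm
  refine (upgrade hl hp₀ hs (w := wm) (by positivity) (fun k x hx => main m₀ le_rfl k x ?_ ?_)
    m₁).move ?_
  · have := (abs_le.1 (hφ1 (P l a k x) wm)).2
    rw [hwm, hφ2, ← hwm] at this
    linarith only [hx, this]
  · have e : ‖wm - wp‖ = 2 * (2 * R₁ + 1) := by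
      have : wm - wp = -(u * ((2 * (2 * R₁ + 1) : ℝ) * Complex.I)) := by
        rw [hwm, hwp]; push_cast; ring
      rw [this, norm_neg, norm_mul, norm_mul, hu, Complex.norm_real, Real.norm_of_nonneg
        (by positivity)]; simp
    linarith only [hm₀, hx, e, norm_sub_le_norm_sub_add_norm_sub (P l a k x) wm wp]
  · have e1 := norm_pt L (f L + -(2 * R₁ + 1))
    have e2 := hf L 0
    have e3 := abs_add_le (f L) (-(2 * R₁ + 1))
    rw [hf0, sub_zero, sub_zero] at e2
    rw [abs_neg, abs_of_pos (show 0 < 2 * R₁ + 1 by positivity)] at e3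
    rw [abs_of_nonneg hL0] at e1 e2
    rw [norm_sub_rev, hwm, add_sub_cancel_left, norm_mul, hu]
    linarith only [hm₁, e1, e2, e3]

end wall

lemma Wall.mono {s len : ℝ} {u w : ℂ} {F F' : Set ℂ} (h : Wall s u F w len) (hF : F ⊆ F') :
    Wall s u F' w len := by
  obtain ⟨f, β, h1, h2, h3, h4, h5, h6⟩ := h
  exact ⟨f, β, h1, h2, h3, h4, fun t ht => (h5 t ht).imp fun c hc => ⟨hF hc.1, hc.2⟩, hF h6⟩

lemma Wall.extend {s len : ℝ} {u w q : ℂ} {F : Set ℂ} (h : Wall s u F w len) (hu : ‖u‖ = 1)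
    (hq0 : 0 < q.re) (hq1 : |q.im| ≤ q.re) (hq : ‖q‖ ≤ s) :
    Wall s u (F ∪ (· + u * q) '' F) w (len + q.re) := by
  obtain ⟨f, β, h1, h2, h3, h4, h5, h6⟩ := h
  set σ := q.im / q.re with hσ
  have hσ1 : |σ| ≤ 1 := by rw [hσ, abs_div, abs_of_pos hq0, div_le_one hq0]; exact hq1
  have hσ2 : ∀ t, |σ * t| ≤ |t| := fun t => by
    rw [abs_mul]; exact mul_le_of_le_one_left (abs_nonneg _) hσ1
  refine ⟨fun t => f (min t β) + σ * (max t β - β), β + q.re, ?_, by simp only [h3, inf_of_le_left, h2, sup_of_le_right, sub_self, mul_zero, add_zero],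
    by linarith only [hq0, h3], by linarith only [h4], fun t ht => ?_, Or.inr ⟨_, h6, ?_⟩⟩
  · have key : ∀ t t', t' ≤ t → |f (min t β) + σ * (max t β - β) -
        (f (min t' β) + σ * (max t' β - β))| ≤ |t - t'| := fun t t' htt => by
      have e1 := h1 (min t β) (min t' β)
      have e2 := hσ2 (max t β - max t' β)
      rw [abs_of_nonneg (sub_nonneg.2 (min_le_min_right β htt))] at e1
      rw [abs_of_nonneg (sub_nonneg.2 (max_le_max_right β htt))] at e2
      have e3 := min_add_max t β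
      have e4 := min_add_max t' β
      rw [abs_of_nonneg (sub_nonneg.2 htt)]
      rw [abs_le] at e1 e2 ⊢
      constructor <;> linarith only [e3, e4, e1.1, e1.2, e2.1, e2.2]
    intro t t'
    rcases le_total t' t with h | h
    · exact key t t' h
    · rw [abs_sub_comm, abs_sub_comm t]; exact key t' t h
  · rcases le_total t β with h | h
    · obtain ⟨c, hc, hc'⟩ := h5 t ⟨ht.1, h⟩
      exact ⟨c, Or.inl hc, by simpa only [h, inf_of_le_left, sup_of_le_right, sub_self, mul_zero, add_zero] using hc'⟩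
    · refine ⟨_, Or.inl h6, le_trans (le_of_eq ?_)
        (le_trans (mul_le_of_le_one_left (norm_nonneg q) (show (t - β) / q.re ≤ 1 by
          rw [div_le_one hq0]; linarith only [ht.2])) hq)⟩
      have e : w + u * (t + (f (min t β) + σ * (max t β - β) : ℝ) * Complex.I) -
          (w + u * (β + f β * Complex.I)) = u * (((t - β) / q.re : ℝ) * q) := by
        have : (q.re : ℂ) ≠ 0 := by exact_mod_cast hq0.ne'
        rw [min_eq_right h, max_eq_left h, hσ]
        conv_rhs => rw [← Complex.re_add_im q]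
        simp only [Complex.add_re, Complex.ofReal_re, Complex.mul_re, Complex.I_re,
          Complex.ofReal_im, Complex.I_im, mul_zero, mul_one, sub_zero, add_zero]
        push_cast; field_simp; ring
      dsimp only
      rw [e, norm_mul, norm_mul, hu, one_mul, Complex.norm_real,
        Real.norm_of_nonneg (div_nonneg (by linarith only [h]) hq0.le)]
  · have : (q.re : ℂ) ≠ 0 := by exact_mod_cast hq0.ne'
    dsimp only
    rw [min_eq_right (by linarith only [hq0]), max_eq_left (by linarith only [hq0]), hσ]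
    conv_lhs => rw [← Complex.re_add_im q]
    push_cast; field_simp; ring

/-- Two walls whose lengths are at most `m` steps short of the needed total. -/
def Fam (s d L : ℝ) (m : ℕ) (F : Set ℂ) (w : ℂ) : Prop :=
  ∃ x y, Wall s 1 F w x ∧ Wall s Complex.I F w y ∧ L ≤ x + y + m * d

lemma Fam.step {s d L : ℝ} {m : ℕ} {F : Set ℂ} {w v : ℂ} (h : Fam s d L (m + 1) F w) (hd : 0 < d)
    (h1 : 2 * d ≤ ‖v‖) (h2 : ‖v‖ ≤ s) :
    Fam s d L m (F ∪ (· + v) '' F) w ∨ Fam s d L m (F ∪ (· + -v) '' F) w := by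
  obtain ⟨x, y, hx, hy, hL⟩ := h
  push_cast at hL
  have key : ∀ q : ℂ, ‖q‖ = ‖v‖ → |q.im| ≤ q.re → Fam s d L m (F ∪ (· + 1 * q) '' F) w ∧
      Fam s d L m (F ∪ (· + Complex.I * q) '' F) w := fun q hq hq1 => by
    have h3 := Complex.norm_le_abs_re_add_abs_im q
    rw [abs_of_nonneg (le_trans (abs_nonneg _) hq1)] at h3
    exact ⟨⟨_, _, hx.extend (by simp) (by linarith only [hd, h1, hq, hq1, h3]) hq1 (by linarith only [h2, hq]), hy.mono subset_union_left,
      by linarith only [h1, hL, hq, hq1, h3]⟩, _, _, hx.mono subset_union_left,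
      hy.extend (by simp) (by linarith only [hd, h1, hq, hq1, h3]) hq1 (by linarith only [h2, hq]), by linarith only [h1, hL, hq, hq1, h3]⟩
  rcases le_total |v.im| |v.re| with h | h
  · rcases le_total 0 v.re with h' | h'
    · exact Or.inl (by simpa using (key v rfl (by rwa [abs_of_nonneg h'] at h)).1)
    · exact Or.inr (by simpa only [image_add_right, neg_neg, mul_neg, one_mul] using (key (-v) (by simp) (by simpa only [Complex.neg_im, abs_neg, Complex.neg_re, abs_of_nonpos h'] using h)).1)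
  · rcases le_total 0 v.im with h' | h'
    · have := (key (-Complex.I * v) (by simp) (by simpa [abs_of_nonneg h'] using h)).2
      exact Or.inl (by simpa [← mul_assoc] using this)
    · have := (key (Complex.I * v) (by simp) (by simpa [abs_of_nonpos h'] using h)).2
      exact Or.inr (by simpa [← mul_assoc] using this)

section direct

lemma geo {K : ℝ} (hK : 1 < K) {ν b : ℕ → ℝ} (h0 : ∀ t, 0 ≤ ν t) {k j : ℕ} (hkj : k ≤ j)
    (h : ∀ t, k ≤ t → t < j → K * ν (t + 1) ≤ (K - 1) * (ν t + b t)) :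
    ∑ t ∈ Finset.Ico k j, ν t ^ 2 + K * ν j ^ 2 ≤
      K * ν k ^ 2 + K ^ 2 * ∑ t ∈ Finset.Ico k j, b t ^ 2 := by
  induction j, hkj using Nat.le_induction with
  | base => simp
  | succ j hj ih =>
    rw [Finset.sum_Ico_succ_top hj, Finset.sum_Ico_succ_top hj]
    have h1 := ih fun t e1 e2 => h t e1 (by omega)
    have h2 : (K * ν (j + 1)) ^ 2 ≤ ((K - 1) * (ν j + b j)) ^ 2 :=
      pow_le_pow_left₀ (mul_nonneg (by linarith only [hK]) (h0 _)) (h j hj (by omega)) 2
    have h3 : 0 ≤ (K - 1) * (ν j - (K - 1) * b j) ^ 2 := mul_nonneg (by linarith only [hK]) (sq_nonneg _)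
    have h4 : K * (K * ν (j + 1) ^ 2) ≤ K * ((K - 1) * ν j ^ 2 + (K - 1) ^ 2 * b j ^ 2) := by
      linarith only [h2, h3]
    have h5 := le_of_mul_le_mul_left h4 (by linarith only [hK])
    have h6 : (K - 1) ^ 2 * b j ^ 2 ≤ K ^ 2 * b j ^ 2 := by gcongr; linarith only []
    linarith only [h1, h5, h6]

/-- Lipschitz constant of the `t`-th partial sum at the scale `1 / l t`. -/
noncomputable def Lm (l : ℕ → ℝ) (c : ℕ → ℂ) (t : ℕ) : ℝ :=
  (∑ i ∈ Finset.range t, ‖c i‖ * l i) / l t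

variable {K : ℝ} {l : ℕ → ℝ}

lemma Lm_nonneg (hl : Lac K l) (c : ℕ → ℂ) (t : ℕ) : 0 ≤ Lm l c t :=
  div_nonneg (Finset.sum_nonneg fun i _ => mul_nonneg (norm_nonneg _) (hl.pos i).le) (hl.pos t).le

lemma Lm_lip (hl : Lac K l) (c : ℕ → ℂ) (t : ℕ) {x y ρ : ℝ} (h : |x - y| ≤ ρ / l t) :
    ‖P l c t x - P l c t y‖ ≤ Lm l c t * ρ := by
  have ht := hl.pos t
  unfold P Lm
  rw [← Finset.sum_sub_distrib, Finset.sum_div, Finset.sum_mul]
  refine le_trans (norm_sum_le _ _) (Finset.sum_le_sum fun j _ => ?_)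
  have hj := hl.pos j
  rw [← mul_sub, norm_mul]
  have h1 := ex_lip (l j * x) (l j * y)
  rw [← mul_sub, abs_mul, abs_of_pos hj] at h1
  calc _ ≤ ‖c j‖ * (l j * (ρ / l t)) := by gcongr; exact le_trans h1 (by gcongr)
    _ = _ := by ring

lemma Lm_le (hl : Lac K l) {c c' : ℕ → ℂ} {β : ℝ} (hβ : 0 ≤ β) (hc : ∀ j, ‖c' j‖ ≤ ‖c j‖ + β)
    (t : ℕ) : Lm l c' t ≤ Lm l c t + β * K := by
  have ht := hl.pos t
  unfold Lm
  rw [div_add' _ _ _ ht.ne']
  gcongr
  calc _ ≤ ∑ i ∈ Finset.range t, (‖c i‖ * l i + β * l i) := Finset.sum_le_sum fun i _ => by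
        rw [← add_mul]; exact mul_le_mul_of_nonneg_right (hc i) (hl.pos i).le
    _ ≤ _ := by
        rw [Finset.sum_add_distrib, ← Finset.mul_sum, mul_assoc]
        gcongr; exact hl.sum_le' (Nat.le_succ t)

lemma Lm_bd (hl : Lac K l) {c : ℕ → ℂ} {β : ℝ} (hc : ∀ j, ‖c j‖ ≤ β) (t : ℕ) :
    Lm l c t ≤ β * K := by
  have := Lm_le hl (c := fun _ => 0) (le_trans (norm_nonneg _) (hc 0)) (by simpa only [norm_zero, zero_add] using hc) t
  simpa only [Lm, ge_iff_le, norm_zero, zero_mul, Finset.sum_const_zero, zero_div, zero_add] using this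

lemma Lm_succ (hl : Lac K l) (c : ℕ → ℂ) (t : ℕ) :
    K * Lm l c (t + 1) ≤ (K - 1) * (Lm l c t + ‖c t‖) := by
  have ht := hl.pos t
  have e : Lm l c (t + 1) = (Lm l c t + ‖c t‖) * l t / l (t + 1) := by
    unfold Lm; rw [Finset.sum_range_succ]; field_simp
  have h0 := add_nonneg (Lm_nonneg hl c t) (norm_nonneg (c t))
  rw [e, ← mul_div_assoc, div_le_iff₀ (hl.pos _)]
  linarith only [mul_le_mul_of_nonneg_left (hl.gap t) h0]

lemma En_Ico (c : ℕ → ℂ) {i j : ℕ} (h : i ≤ j) :
    ∑ t ∈ Finset.Ico i j, ‖c t‖ ^ 2 = En c j - En c i := Finset.sum_Ico_eq_sub _ h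

lemma En_cmp {c c' : ℕ → ℂ} {i j : ℕ} {θ : ℝ} (h : i ≤ j)
    (hc : ∀ t, i ≤ t → t < j → ‖c t‖ ^ 2 ≤ θ * ‖c' t‖ ^ 2) :
    En c j - En c i ≤ θ * (En c' j - En c' i) := by
  rw [← En_Ico c h, ← En_Ico c' h, Finset.mul_sum]
  exact Finset.sum_le_sum fun t ht => hc t (Finset.mem_Ico.1 ht).1 (Finset.mem_Ico.1 ht).2

/-- The terms of modulus at most `η`. -/
noncomputable def sm (a : ℕ → ℂ) (η : ℝ) (t : ℕ) : ℂ := if ‖a t‖ ≤ η then a t else 0

lemma sm_le (a : ℕ → ℂ) {η : ℝ} (hη : 0 ≤ η) (t : ℕ) : ‖sm a η t‖ ≤ η ∧ ‖sm a η t‖ ≤ ‖a t‖ := by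
  unfold sm; split_ifs with h <;> simp [h, hη]

lemma sm_En (a : ℕ → ℂ) {η : ℝ} (hη : 0 ≤ η) {i j : ℕ} (h : i ≤ j) :
    En (sm a η) j - En (sm a η) i ≤ En a j - En a i := by
  simpa only [tsub_le_iff_right, one_mul] using En_cmp (θ := 1) h fun t _ _ => by
    rw [one_mul]; gcongr; exact (sm_le a hη t).2

lemma glue2 {G H : Set ℝ} {x ρ δ₀ p q : ℝ} (hp : 0 < p) (hG : TT G x ρ q)
    (h : ∀ y ∈ G, |y - x| ≤ ρ → ∃ δ, 0 < δ ∧ δ ≤ δ₀ ∧ TT H y δ p) :
    p / 10 * (q * ρ) ≤ volume.real (H ∩ closedBall x (ρ + δ₀)) :=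
  le_trans (mul_le_mul_of_nonneg_left hG (by positivity))
    (Loc hp (inter_subset_right (s := G)) fun y hy => h y hy.1 hy.2)

/-- A stretch of small energy, a fixed part of which is carried by tiny terms, steers the sums
into a given small disc. -/
lemma direct {K r : ℝ} (hK : 1 < K) (hr : 0 < r) : ∃ E₀ ρ : ℝ, 0 < E₀ ∧ 0 < ρ ∧ ∀ R κ : ℝ,
    0 ≤ R → 0 < κ → ∃ η₀ p : ℝ, 0 < η₀ ∧ 0 < p ∧ ∀ (l : ℕ → ℝ) (a : ℕ → ℂ), Lac K l →
      (∀ j, ‖a j‖ ≤ 1) → ∀ (η : ℝ) (k k₂ : ℕ) (w : ℂ) (x : ℝ), 0 ≤ η → η ≤ η₀ → k ≤ k₂ →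
      En a k₂ ≤ En a k + E₀ → En (sm a η) k + κ ≤ En (sm a η) k₂ → ‖P l a k x - w‖ ≤ R →
      TT {y | ∃ j, k ≤ j ∧ j ≤ k₂ ∧ ‖P l a j y - w‖ < r} x (ρ / l k) p := by
  obtain ⟨c, C, Λ, p, hc, hc1, hC, hΛ, hp, hp1, hmove⟩ := move hK
  set e₀ := min 1 (r / (4 * C)) with he₀
  have he0 : 0 < e₀ := by positivity
  have he1 : e₀ ^ 2 ≤ 1 := pow_le_one₀ he0.le (min_le_left _ _)
  have he2 : C * e₀ ≤ r / 4 := by
    calc _ ≤ C * (r / (4 * C)) := by gcongr; exact min_le_right _ _
      _ = _ := by field_simp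
  refine ⟨e₀ ^ 2, 1 + K * Λ, by positivity, by positivity, fun R κ hR hκ => ?_⟩
  set R' := R + 201 * K with hR'
  have hR0 : 0 < R' := by positivity
  obtain ⟨σ, hσ, hσ1, hσ2, hσ3⟩ : ∃ σ : ℝ, 0 < σ ∧ σ ≤ 1 ∧ σ ≤ r / (2 * K) ∧
      σ ≤ c * κ / (8 * R' + 6) :=
    ⟨min 1 (min _ _), by positivity, min_le_left _ _, le_trans (min_le_right _ _) (min_le_left _ _),
      le_trans (min_le_right _ _) (min_le_right _ _)⟩
  rw [le_div_iff₀ (by positivity)] at hσ2 hσ3
  have hcσ : c * σ ≤ σ := mul_le_of_le_one_left hσ.le hc1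
  have hKσ : σ ≤ K * σ := le_mul_of_one_le_left hσ.le hK.le
  set ν₀ := c * σ / (2 * Λ) with hν₀
  set μ := κ / (4 * K ^ 3) with hμ
  have hμ0 : 0 < μ := by positivity
  set m₀ := ⌈2 * R' / (c * σ)⌉₊ with hm₀
  have hm1 : R' ≤ m₀ * (c * σ / 2) := by
    have := Nat.le_ceil (2 * R' / (c * σ))
    rw [div_le_iff₀ (by positivity)] at this; linarith only [this]
  have hm2 : 2 * σ ^ 2 * m₀ + σ ^ 2 ≤ κ / 2 := by
    have h1 := (Nat.ceil_lt_add_one (show 0 ≤ 2 * R' / (c * σ) by positivity)).le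
    have h2 : c * σ * σ ≤ 1 * 1 * σ := by gcongr
    refine le_of_mul_le_mul_left ?_ hc
    calc _ ≤ c * (2 * σ ^ 2 * (2 * R' / (c * σ) + 1) + σ ^ 2) := by gcongr
      _ = 4 * σ * R' + 3 * (c * σ * σ) := by field_simp; ring
      _ ≤ _ := by linarith only [hσ3, h2]
  refine ⟨min σ (ν₀ * min 1 μ), (p / (10 * K)) ^ m₀ / 10 / (1 + K * Λ), by positivity,
    by positivity, fun l a hl ha1 η k k₂ w x hη0 hη hk hE hκ' hx => ?_⟩
  have hη1 : η ^ 2 ≤ σ ^ 2 := by gcongr; exact le_trans hη (min_le_left _ _)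
  have hη2 : η ^ 2 ≤ μ * ν₀ ^ 2 := by
    calc _ ≤ (ν₀ * min 1 μ) ^ 2 := by gcongr; exact le_trans hη (min_le_right _ _)
      _ = (min 1 μ * min 1 μ) * ν₀ ^ 2 := by ring
      _ ≤ (1 * μ) * ν₀ ^ 2 := by gcongr; exacts [min_le_left _ _, min_le_right _ _]
      _ = _ := by ring
  set Ψ : ℕ → ℝ := fun t => En (sm a η) k₂ - En (sm a η) t -
    μ * ∑ i ∈ Finset.Ico t k₂, Lm l a i ^ 2 with hΨ
  have hS : ∀ t, 0 ≤ μ * ∑ i ∈ Finset.Ico t k₂, Lm l a i ^ 2 := fun t => by positivity
  have skip : ∀ n t, t + n = k₂ → 0 < Ψ t → ∃ t₂, t ≤ t₂ ∧ t₂ ≤ k₂ ∧ Lm l a t₂ ≤ ν₀ ∧ Ψ t ≤ Ψ t₂ := by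
    intro n
    induction n with
    | zero => intro t ht h; rw [add_zero] at ht; simp [hΨ, ht] at h
    | succ n ih =>
      intro t ht h
      rcases le_total (Lm l a t) ν₀ with e | e
      · exact ⟨t, le_rfl, by omega, e, le_rfl⟩
      have e1 : Ψ t ≤ Ψ (t + 1) := by
        have e2 : ‖sm a η t‖ ^ 2 ≤ η ^ 2 := by gcongr; exact (sm_le a hη0 t).1
        have e3 : μ * ν₀ ^ 2 ≤ μ * Lm l a t ^ 2 := by gcongr
        simp only [hΨ]
        rw [Finset.sum_eq_sum_Ico_succ_bot (show t < k₂ by omega), En_succ]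
        linarith only [hη2, e2, e3]
      obtain ⟨t₂, e2, e3, e4, e5⟩ := ih (t + 1) (by omega) (by linarith only [h, e1])
      exact ⟨t₂, by omega, e3, e4, by linarith only [e1, e5]⟩
  set H := {y | ∃ j, k ≤ j ∧ j ≤ k₂ ∧ ‖P l a j y - w‖ < r} with hH
  have hν : ∀ t x y ρ, Lm l a t ≤ ν₀ → 0 ≤ ρ → |y - x| ≤ ρ * Λ / l t →
      ‖P l a t y - P l a t x‖ ≤ ρ * (c * σ / 2) := fun t x y ρ h1 h2 h3 => by
    calc _ ≤ ν₀ * (ρ * Λ) := le_trans (Lm_lip hl a t h3) (by gcongr)
      _ = _ := by rw [hν₀]; field_simp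
  have main : ∀ m : ℕ, ∀ t x, k ≤ t → t ≤ k₂ → Lm l a t ≤ ν₀ → 2 * σ ^ 2 * m + σ ^ 2 ≤ Ψ t →
      ‖P l a t x - w‖ ≤ r / 2 + m * (c * σ / 2) → TT H x (K * Λ / l t) ((p / (10 * K)) ^ m) := by
    intro m
    induction m with
    | zero =>
      intro t x h1 h2 h3 _ h5
      have := hl.pos t
      refine TT.of_ball (by positivity) (by norm_num) fun y hy => ⟨t, h1, h2, ?_⟩
      have e1 := hν t x y K h3 (by linarith only [hK]) hy
      have e2 : K * (c * σ) ≤ K * σ := by gcongr
      simp only [Nat.cast_zero, zero_mul] at h5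
      linarith only [hσ, hσ2, hKσ, e1, e2, h5, norm_sub_le_norm_sub_add_norm_sub (P l a t y) (P l a t x) w]
    | succ m ih =>
      intro t x h1 h2 h3 h4 h5
      have ht := hl.pos t
      have hm0 : 0 ≤ 2 * σ ^ 2 * m := by positivity
      have hσσ : 0 < σ ^ 2 := by positivity
      push_cast at h4 h5
      obtain ⟨i, i1, i2, i3, i4⟩ := exists_step (Q := fun i => En a i < En a t + σ ^ 2) h2
        (by linarith only [hσσ]) (by
          have := sm_En a hη0 h2
          have := hS t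
          simp only [hΨ] at h4
          rw [not_lt]; linarith)
      have e1 : Ψ t - 2 * σ ^ 2 ≤ Ψ (i + 1) := by
        have e2 : ‖sm a η i‖ ^ 2 ≤ η ^ 2 := by gcongr; exact (sm_le a hη0 i).1
        have e3 := sm_En a hη0 i1
        have e4 : μ * ∑ i ∈ Finset.Ico (i + 1) k₂, Lm l a i ^ 2 ≤
            μ * ∑ i ∈ Finset.Ico t k₂, Lm l a i ^ 2 := by gcongr; omega
        simp only [hΨ]
        rw [En_succ]
        linarith only [hη1, i3, e2, e3, e4]
      obtain ⟨j, j1, j2, j3, j4⟩ := skip (k₂ - (i + 1)) (i + 1) (by omega) (by linarith only [hm0, hσσ, h4, e1])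
      have hj := hl.pos j
      have e2 := En_mono a j1
      obtain ⟨ϱ, hϱ0, hϱ⟩ : ∃ ϱ, 0 ≤ ϱ ∧ ϱ ^ 2 = En a j - En a t :=
        ⟨√_, Real.sqrt_nonneg _, Real.sq_sqrt (by linarith only [hσσ, i4, e2, not_lt.1 i4])⟩
      have r1 : σ ≤ ϱ := le_of_sq_le_sq (by linarith only [i4, e2, hϱ, not_lt.1 i4]) hϱ0
      have r2 : ϱ ≤ e₀ := le_of_sq_le_sq (by linarith only [hE, hϱ, En_mono a j2, En_mono a h1]) he0.le
      have r3 : c * σ ≤ c * ϱ := by gcongr
      have r4 : C * ϱ ≤ C * e₀ := by gcongr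
      have e : l t * (Λ / l t) = Λ := by field_simp
      have h6 := hmove l a hl t j ϱ ϱ (Λ / l t) (1 * (c * σ / 2)) x w (by omega) (by linarith only [hσ, r1])
        (by linarith only [hϱ]) (fun s s1 s2 => le_of_sq_le_sq (by
          have := En_mono a (show s + 1 ≤ j from s2)
          rw [En_succ] at this
          linarith only [hϱ, this, En_mono a s1]) hϱ0) hϱ0 le_rfl (by rw [e, mul_comm]) (by rw [e]; exact hΛ)
        fun y hy => hν t x y 1 h3 zero_le_one (by rwa [one_mul])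
      have h7 := glue2 (H := H) (p := (p / (10 * K)) ^ m) (δ₀ := (K - 1) * Λ / l t)
        (by positivity) h6 fun y hy _ => ⟨K * Λ / l j, by positivity, by
          rw [div_le_div_iff₀ hj ht]
          linarith only [mul_le_mul_of_nonneg_left (hl.lt (show t < j by omega)) (show 0 ≤ Λ by linarith only [hΛ])],
          ih j y (by omega) j2 j3 (by linarith only [h4, e1, j4]) (le_trans hy.1 (by
            have : 0 ≤ m * (c * σ / 2) := by positivity
            rw [← max_add_add_right]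
            exact max_le (by linarith only [h5, r3]) (by linarith only [he2, hσ2, hcσ, hKσ, r4, this])))⟩
      rw [show Λ / l t + (K - 1) * Λ / l t = K * Λ / l t by ring] at h7
      refine le_trans (le_of_eq ?_) h7
      rw [pow_succ]; field_simp
  have hk0 := hl.pos k
  have h1 : κ / 2 ≤ Ψ k := by
    have e1 := geo hK (Lm_nonneg hl a) hk fun t _ _ => Lm_succ hl a t
    have e2 : Lm l a k ^ 2 ≤ (1 * K) ^ 2 :=
      pow_le_pow_left₀ (Lm_nonneg hl a k) (Lm_bd hl ha1 k) 2
    have e3 : K * Lm l a k ^ 2 ≤ K * (1 * K) ^ 2 := by gcongr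
    have e4 : K ^ 2 * (En a k₂ - En a k) ≤ K ^ 2 * K := by gcongr; linarith only [hK, he1, hE]
    have e5 : 0 ≤ K * Lm l a k₂ ^ 2 := by positivity
    rw [En_Ico a hk] at e1
    have e6 : μ * ∑ i ∈ Finset.Ico k k₂, Lm l a i ^ 2 ≤ μ * (2 * K ^ 3) := by gcongr; linarith only [e1, e3, e4, e5]
    have e7 : μ * (2 * K ^ 3) = κ / 2 := by rw [hμ]; field_simp; norm_num
    simp only [hΨ]
    linarith only [hκ', e6, e7]
  obtain ⟨j, j1, j2, j3, j4⟩ := skip (k₂ - k) k (by omega) (by linarith only [hκ, h1])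
  have hj := hl.pos j
  have h2 := maxb hl a j1 (E := 1) (t := 200 * K) (x := x) (by positivity)
    (by linarith only [he1, hE, En_mono a j2]) le_rfl
  have h3 := (TT.of_ball (H := univ) (x := x) (show 0 ≤ 1 / l k by positivity) le_rfl
    (subset_univ _)).diff (q := 1) (sep_subset _ _) (le_trans h2 (by
      gcongr; rw [div_le_one (by positivity)]
      have : 0 ≤ K ^ 4 := by positivity
      linarith only [this])) (H' := {y | ‖P l a j y - P l a k y‖ ≤ 200 * K})
    fun y _ hy hN => not_lt.1 fun e => hN ⟨hy, j, j1, le_rfl, e⟩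
  have h4 := glue2 (H := H) (p := (p / (10 * K)) ^ m₀) (δ₀ := K * Λ / l k) (by positivity) h3
    fun y hy hyx => ⟨K * Λ / l j, by positivity, by gcongr; exact hl.mono j1,
      main m₀ j y j1 j2 j3 (by linarith only [hm2, h1, j4]) (by
        linarith only [hσ, hσ2, hKσ, hm1, hx, hl.lip' ha1 (Nat.le_succ k) hyx, show ‖_‖ ≤ _ from hy,
          norm_sub_le_norm_sub_add_norm_sub (P l a j y) (P l a k y) w,
          norm_sub_le_norm_sub_add_norm_sub (P l a k y) (P l a k x) w])⟩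
  rw [← add_div] at h4
  refine le_trans (le_of_eq ?_) h4
  field_simp; ring

/-- A window rich in tiny terms contains a rich piece of small energy. -/
lemma piece (a : ℕ → ℂ) {η E₀ κ : ℝ} (hη : 0 ≤ η) (hE : 0 ≤ E₀) (hκ : 0 < κ) (j : ℕ) (m : ℕ) :
    ∀ k, k ≤ j → En a j ≤ En a k + (m + 1) * E₀ →
      En (sm a η) k + (m + 1) * (κ + η ^ 2) ≤ En (sm a η) j →
      ∃ t t', k ≤ t ∧ t ≤ t' ∧ t' ≤ j ∧ En a t' ≤ En a t + E₀ ∧
        En (sm a η) t + κ ≤ En (sm a η) t' := by
  induction m with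
  | zero =>
    intro k h1 h2 h3
    simp only [Nat.cast_zero, zero_add, one_mul] at h2 h3
    exact ⟨k, j, le_rfl, h1, le_rfl, h2, by linarith only [h3, sq_nonneg η]⟩
  | succ m ih =>
    intro k h1 h2 h3
    push_cast at h2 h3
    by_cases hq : En a j ≤ En a k + E₀
    · have : 0 ≤ (m + 1 : ℝ) * (κ + η ^ 2) := by positivity
      exact ⟨k, j, le_rfl, h1, le_rfl, hq, by linarith only [h3, this, sq_nonneg η]⟩
    obtain ⟨i, i1, i2, i3, i4⟩ := exists_step (Q := fun i => En a i ≤ En a k + E₀) h1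
      (by linarith only [hE]) hq
    rcases le_total (En (sm a η) k + κ) (En (sm a η) i) with e | e
    · exact ⟨k, i, le_rfl, i1, i2.le, i3, e⟩
    · have e2 : ‖sm a η i‖ ^ 2 ≤ η ^ 2 := by gcongr; exact (sm_le a hη i).1
      obtain ⟨t, t', e3, e4⟩ := ih (i + 1) i2 (by linarith only [h2, i4, not_le.1 i4])
        (by rw [En_succ]; linarith only [h3, e, e2])
      exact ⟨t, t', by omega, e4⟩

end direct

end Pool.Agent.MP_5053af_an.H21

end
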